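import Pool.Agent.MP_be2dd8_ag.H53.Spec
import Pool.Agent.MP_077ac3_nt.H56.AuxPoly

set_option autoImplicit false

/-!
The auxiliary polynomial for finitely many systems of linear forms over a number field.
-/

namespace Pool.Agent.MP_be2dd8_ag.H53

open MvPolynomial Finset
open Pool.Agent.MP_077ac3_nt.H56 (toF toF_inj toF_curry box mem_box box_card_pos box_card_le Good
  bad_card_le siegel)

namespace AUX

variable {K : Type} [Field K]

/-- `x` is an integer combination of the `ω k` with coefficients bounded by `B`. -/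
def Rep {r : ℕ} (ω : Fin r → K) (B : ℝ) (x : K) : Prop :=
  ∃ a : Fin r → ℤ, (∀ k, |(a k : ℝ)| ≤ B) ∧ x = ∑ k, (a k : K) * ω k

theorem Rep.zero {r : ℕ} (ω : Fin r → K) {B : ℝ} (hB : 0 ≤ B) : Rep ω B 0 :=
  ⟨0, fun k => by simpa using hB, by simp⟩

theorem Rep.mono {r : ℕ} {ω : Fin r → K} {B B' : ℝ} {x : K} (h : Rep ω B x) (hB : B ≤ B') :
    Rep ω B' x := by
  obtain ⟨a, ha, hx⟩ := h
  exact ⟨a, fun k => (ha k).trans hB, hx⟩

theorem Rep.sum {r : ℕ} {ω : Fin r → K} {ι : Type} [Fintype ι] {B : ℝ} {x : ι → K}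
    (h : ∀ j, Rep ω B (x j)) : Rep ω (Fintype.card ι * B) (∑ j, x j) := by
  choose a ha hx using h
  refine ⟨fun k => ∑ j, a j k, fun k => ?_, ?_⟩
  · push_cast
    refine (Finset.abs_sum_le_sum_abs _ _).trans ?_
    calc ∑ j, |(a j k : ℝ)| ≤ ∑ _j : ι, B := Finset.sum_le_sum fun j _ => ha j k
      _ = Fintype.card ι * B := by simp
  · simp only [hx]
    rw [Finset.sum_comm]
    refine Finset.sum_congr rfl fun k _ => ?_
    push_cast
    rw [Finset.sum_mul]

theorem Rep.mul {r : ℕ} {ω : Fin r → K} {A B : ℝ} {x y : K} (hy : ∀ k, Rep ω A (y * ω k))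
    (hA : 0 ≤ A) (h : Rep ω B x) : Rep ω (r * A * B) (y * x) := by
  obtain ⟨a, ha, hx⟩ := h
  choose c hc hy using hy
  refine ⟨fun l => ∑ k, a k * c k l, fun l => ?_, ?_⟩
  · push_cast
    refine (Finset.abs_sum_le_sum_abs _ _).trans ?_
    calc ∑ k, |(a k : ℝ) * c k l| ≤ ∑ _k : Fin r, A * B := Finset.sum_le_sum fun k _ => by
          rw [abs_mul, mul_comm]
          exact mul_le_mul (hc k l) (ha k) (abs_nonneg _) hA
      _ = r * A * B := by simp [mul_assoc]
  · rw [hx, Finset.mul_sum]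
    have : ∀ k, y * ((a k : K) * ω k) = ∑ l, (a k : K) * c k l * ω l := fun k => by
      rw [mul_left_comm, hy k, Finset.mul_sum]
      simp only [mul_assoc]
    simp only [this]
    rw [Finset.sum_comm]
    refine Finset.sum_congr rfl fun l _ => ?_
    push_cast
    rw [Finset.sum_mul]

/-- A finite family in a number field, scaled by an integer, acts on a finitely generated
subgroup containing `1`. -/
theorem exists_frame {κ : Type} [Fintype κ] [NumberField K] (y : κ → K) :
    ∃ (t : ℤ) (r : ℕ) (ω : Fin r → K) (A : ℝ), t ≠ 0 ∧ 1 ≤ A ∧ Rep ω A 1 ∧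
      ∀ i k, Rep ω A ((t : K) * y i * ω k) := by
  classical
  have h1 : ∀ i, ∃ c : ℤ, c ≠ 0 ∧ IsIntegral ℤ (c • y i) := fun i =>
    ((IsFractionRing.isAlgebraic_iff ℤ ℚ K).2
      (Algebra.IsAlgebraic.isAlgebraic (y i))).exists_integral_multiple
  choose c hc0 hc using h1
  set t : ℤ := ∏ i, c i with ht
  have hint : ∀ i, IsIntegral ℤ ((t : K) * y i) := fun i => by
    have : (t : K) * y i = (∏ j ∈ Finset.univ.erase i, c j) • (c i • y i) := by
      rw [smul_smul, Finset.prod_erase_mul _ _ (Finset.mem_univ i), zsmul_eq_mul]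
    rw [this]
    exact (hc i).smul _
  have hfg : (Algebra.adjoin ℤ (Set.range fun i => (t : K) * y i)).toSubmodule.FG :=
    fg_adjoin_of_finite (Set.finite_range _) (by rintro _ ⟨i, rfl⟩; exact hint i)
  obtain ⟨r, ω, hω⟩ := Submodule.fg_iff_exists_fin_generating_family.1 hfg
  have key : ∀ x ∈ Algebra.adjoin ℤ (Set.range fun i => (t : K) * y i), ∃ A, Rep ω A x := by
    intro x hx
    have hx' : x ∈ Submodule.span ℤ (Set.range ω) := by rw [hω]; exact hx
    obtain ⟨a, ha⟩ := (Submodule.mem_span_range_iff_exists_fun ℤ).1 hx'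
    refine ⟨∑ k, |(a k : ℝ)|, a, fun k => ?_, ?_⟩
    · exact Finset.single_le_sum (f := fun k => |(a k : ℝ)|) (fun _ _ => abs_nonneg _)
        (Finset.mem_univ k)
    · rw [← ha]
      simp [zsmul_eq_mul]
  have hωm : ∀ k, ω k ∈ Algebra.adjoin ℤ (Set.range fun i => (t : K) * y i) := fun k => by
    have : ω k ∈ Submodule.span ℤ (Set.range ω) := Submodule.subset_span ⟨k, rfl⟩
    rw [hω] at this
    exact this
  obtain ⟨A0, hA0⟩ := key 1 (one_mem _)
  have h2 : ∀ p : κ × Fin r, ∃ A, Rep ω A ((t : K) * y p.1 * ω p.2) := fun p =>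
    key _ (mul_mem (Algebra.subset_adjoin ⟨p.1, rfl⟩) (hωm p.2))
  choose A1 hA1 using h2
  refine ⟨t, r, ω, 1 + |A0| + ∑ p, |A1 p|, Finset.prod_ne_zero_iff.2 fun i _ => hc0 i, ?_, ?_, ?_⟩
  · have := Finset.sum_nonneg (s := Finset.univ) fun p _ => abs_nonneg (A1 p)
    have := abs_nonneg A0
    linarith
  · refine hA0.mono ?_
    have := Finset.sum_nonneg (s := Finset.univ) fun p _ => abs_nonneg (A1 p)
    have := le_abs_self A0
    linarith
  · intro i k
    refine (hA1 (i, k)).mono ?_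
    have := Finset.single_le_sum (f := fun p => |A1 p|) (fun _ _ => abs_nonneg _)
      (Finset.mem_univ (i, k))
    have := le_abs_self (A1 (i, k))
    have := abs_nonneg A0
    linarith

/-- All coefficients have bounded integer coordinates. -/
def PRep {r : ℕ} {σ : Type} (ω : Fin r → K) (B : ℝ) (Q : MvPolynomial σ K) : Prop :=
  ∀ I, Rep ω B (coeff I Q)

theorem PRep.one {r : ℕ} {σ : Type} {ω : Fin r → K} {A : ℝ} (hA : 0 ≤ A) (h : Rep ω A 1) :
    PRep ω A (1 : MvPolynomial σ K) := by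
  classical
  intro I
  rw [coeff_one]
  split_ifs
  · exact h
  · exact Rep.zero ω hA

theorem PRep.lin {r : ℕ} {σ ι : Type} [Fintype ι] {ω : Fin r → K} {A B : ℝ} (hA : 0 ≤ A)
    (hB : 0 ≤ B) (y : ι → K) (v : ι → σ) (hy : ∀ j k, Rep ω A (y j * ω k))
    {Q : MvPolynomial σ K} (h : PRep ω B Q) :
    PRep ω (Fintype.card ι * r * A * B) ((∑ j, C (y j) * X (v j)) * Q) := by
  classical
  intro I
  rw [Finset.sum_mul, coeff_sum]
  have : (Fintype.card ι : ℝ) * r * A * B = Fintype.card ι * (r * A * B) := by ring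
  rw [this]
  refine Rep.sum fun j => ?_
  rw [mul_assoc (C (y j)), coeff_C_mul, coeff_X_mul']
  refine Rep.mul (hy j) hA ?_
  split_ifs
  · exact h _
  · exact Rep.zero ω hB

theorem PRep.pow {r : ℕ} {σ : Type} {ω : Fin r → K} {D : ℝ} (hD : 0 ≤ D) {L : MvPolynomial σ K}
    (hL : ∀ (B : ℝ) (Q : MvPolynomial σ K), 0 ≤ B → PRep ω B Q → PRep ω (D * B) (L * Q))
    (n : ℕ) {B : ℝ} (hB : 0 ≤ B) {Q : MvPolynomial σ K} (h : PRep ω B Q) :
    PRep ω (D ^ n * B) (L ^ n * Q) := by
  induction n with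
  | zero => simpa using h
  | succ n ih =>
    have := hL _ _ (by positivity) ih
    rwa [← mul_assoc, ← mul_assoc, ← pow_succ', ← pow_succ'] at this

theorem PRep.prod {r : ℕ} {σ τ : Type} {ω : Fin r → K} {D A : ℝ} (hD : 0 ≤ D) (hA : 0 ≤ A)
    (h1 : Rep ω A 1) (L : τ → MvPolynomial σ K)
    (hL : ∀ s (B : ℝ) (Q : MvPolynomial σ K), 0 ≤ B → PRep ω B Q → PRep ω (D * B) (L s * Q))
    (J : τ → ℕ) (S : Finset τ) :
    PRep ω (D ^ (∑ s ∈ S, J s) * A) (∏ s ∈ S, L s ^ J s) := by
  classical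
  induction S using Finset.induction_on with
  | empty => simpa using PRep.one hA h1
  | insert s S hs ih =>
    rw [Finset.prod_insert hs, Finset.sum_insert hs, pow_add, mul_assoc]
    exact PRep.pow hD (hL s) _ (by positivity) ih

theorem linK_monomial {m : ℕ} {ι : Type} [Fintype ι] (M : Matrix ι ι K) (J : Fin m × ι →₀ ℕ)
    (a : ℤ) : linK M (monomial J a) =
      C (a : K) * ∏ s : Fin m × ι, (∑ j, C (M s.2 j) * X (s.1, j)) ^ J s := by
  rw [linK, aeval_monomial, Finsupp.prod_fintype _ _ (fun _ => pow_zero _)]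
  simp

theorem prod_hom {m : ℕ} {ι : Type} [Fintype ι] (M : Matrix ι ι K) (J : Fin m × ι → ℕ)
    (I : Fin m × ι →₀ ℕ)
    (hI : coeff I (∏ s : Fin m × ι, (∑ j, C (M s.2 j) * X (s.1, j) :
      MvPolynomial (Fin m × ι) K) ^ J s) ≠ 0) (h : Fin m) :
    ∑ i, I (h, i) = ∑ i, J (h, i) := by
  classical
  set w : Fin m × ι → ℕ := fun s => if s.1 = h then 1 else 0 with hw
  have h1 : IsWeightedHomogeneous w (∏ s : Fin m × ι, (∑ j, C (M s.2 j) * X (s.1, j) :
      MvPolynomial (Fin m × ι) K) ^ J s) (∑ s : Fin m × ι, J s • w s) := by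
    refine IsWeightedHomogeneous.prod _ _ _ fun s _ => IsWeightedHomogeneous.pow ?_ _
    refine IsWeightedHomogeneous.sum _ _ _ fun j _ => ?_
    exact (isWeightedHomogeneous_X K w (s.1, j)).C_mul _
  have h2 := h1 hI
  rw [Finsupp.weight_eq_sum] at h2
  have h3 : ∀ F : Fin m × ι → ℕ, ∑ s : Fin m × ι, F s • w s = ∑ i, F (h, i) := by
    intro F
    rw [Fintype.sum_prod_type, Finset.sum_eq_single h]
    · simp [hw]
    · intro b _ hb
      simp [hw, hb]
    · simp
  rw [← h3 I, ← h3 J, h2]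

end AUX

open AUX in
theorem auxG : AuxG := by
  classical
  intro K ι S _ _ _ _ _ _ M ε hε
  obtain ⟨t, r, ω, A, ht, hA, h1, hy⟩ :=
    exists_frame (κ := S × ι × ι) (fun p => M p.1 p.2.1 p.2.2)
  have hN : (1 : ℝ) ≤ Fintype.card ι := by exact_mod_cast Fintype.card_pos
  set R : ℕ := 2 * (Fintype.card S * r) with hR
  obtain ⟨m0, hm0⟩ := exists_nat_ge ((R : ℝ) * (Fintype.card ι : ℝ) / ε ^ 2)
  set D : ℝ := 1 + Fintype.card ι * r * A with hD
  have hD1 : 1 ≤ D := by
    have : 0 ≤ (Fintype.card ι : ℝ) * r * A := by positivity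
    linarith
  have h2N : (1 : ℝ) ≤ 2 ^ Fintype.card ι := one_le_pow₀ (by norm_num)
  refine ⟨m0 + 1, Nat.succ_pos _, (2 ^ Fintype.card ι) * (2 ^ Fintype.card ι) * D * A,
    one_le_mul_of_one_le_of_one_le (one_le_mul_of_one_le_of_one_le
      (one_le_mul_of_one_le_of_one_le h2N h2N) hD1) hA, fun d hd => ?_⟩
  set n : ℕ := ∑ h, d h with hn
  have hn1 : 1 ≤ n := (hd 0).trans_le
    (Finset.single_le_sum (f := d) (fun _ _ => Nat.zero_le _) (mem_univ 0))
  set Gd := box ι d with hGd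
  set Bd := (box ι d).filter fun J => ¬ Good d ε J with hBd
  have hbad : R * Bd.card ≤ Gd.card := by
    have h2 := bad_card_le ι d hd ε hε (Nat.succ_pos _)
    have h3 : (R : ℝ) * (Fintype.card ι : ℝ) ≤ ((m0 + 1 : ℕ) : ℝ) * ε ^ 2 := by
      rw [div_le_iff₀ (by positivity)] at hm0
      push_cast
      nlinarith [sq_nonneg ε]
    have h4 : (0 : ℝ) ≤ Bd.card := Nat.cast_nonneg _
    have h5 : (Fintype.card ι : ℝ) * ((R : ℝ) * Bd.card) ≤
        Fintype.card ι * (box ι d).card := by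
      refine le_trans ?_ h2
      calc (Fintype.card ι : ℝ) * ((R : ℝ) * Bd.card)
          = Bd.card * ((R : ℝ) * (Fintype.card ι : ℝ)) := by ring
        _ ≤ _ := mul_le_mul_of_nonneg_left h3 h4
    have h6 := le_of_mul_le_mul_left h5 (by linarith)
    exact_mod_cast h6
  have hpos : 0 < Gd.card := box_card_pos ι d
  set L : S → Fin (m0 + 1) × ι → MvPolynomial (Fin (m0 + 1) × ι) K :=
    fun v s => ∑ j, C (M v s.2 j) * X (s.1, j) with hL
  have hrep : ∀ (v : S) (J : Gd), ∀ I, Rep ω (D ^ n * A)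
      ((t : K) ^ n * coeff I (∏ s : Fin (m0 + 1) × ι, L v s ^ J.1 s.1 s.2)) := by
    intro v J I
    have hJ := mem_box.1 J.2
    have hs : ∑ s : Fin (m0 + 1) × ι, J.1 s.1 s.2 = n := by
      rw [Fintype.sum_prod_type, hn]
      exact Finset.sum_congr rfl fun h _ => hJ h
    have h2 := PRep.prod (σ := Fin (m0 + 1) × ι) (D := D) (by linarith) (by linarith) h1
      (fun s => C (t : K) * L v s) (fun s B Q hB hQ => by
        have h3 := PRep.lin (by linarith) hB (fun j => (t : K) * M v s.2 j) (fun j => (s.1, j))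
          (fun j k => hy (v, s.2, j) k) hQ
        have h4 : (∑ j, C ((t : K) * M v s.2 j) * X (s.1, j) :
            MvPolynomial (Fin (m0 + 1) × ι) K) = C (t : K) * L v s := by
          rw [hL, Finset.mul_sum]
          simp only [C_mul, mul_assoc]
        rw [h4] at h3
        intro I
        refine (h3 I).mono (mul_le_mul_of_nonneg_right ?_ hB)
        linarith) (fun s => J.1 s.1 s.2) univ I
    simp only [mul_pow, Finset.prod_mul_distrib, Finset.prod_pow_eq_pow_sum, hs] at h2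
    rwa [← C_pow, coeff_C_mul] at h2
  choose a ha hQ using hrep
  have hB1 : 1 ≤ D ^ n * A := one_le_mul_of_one_le_of_one_le (one_le_pow₀ hD1) hA
  obtain ⟨p, hp0, hp, hpB⟩ := siegel (α := S × Bd × Fin r) (β := Gd)
    (fun e J => a e.1 J (toF e.2.1.1) e.2.2) (D ^ n * A) hB1 (fun e J => ha _ _ _ _)
    (by
      simp only [Fintype.card_prod, Fintype.card_coe, Fintype.card_fin]
      refine le_trans (le_of_eq ?_) hbad
      rw [hR]
      ring)
    (by simpa only [Fintype.card_coe] using hpos)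
  set P : MvPolynomial (Fin (m0 + 1) × ι) ℤ := ∑ J : Gd, monomial (toF J.1) (p J) with hP
  have hco : ∀ J : Gd, coeff (toF J.1) P = p J := by
    intro J
    rw [hP, coeff_sum, Finset.sum_eq_single J]
    · simp
    · intro J' _ hne
      rw [coeff_monomial, if_neg]
      exact fun hh => hne (Subtype.ext (toF_inj hh))
    · simp
  have hsupp : ∀ I ∈ P.support, ∃ J : Gd, toF J.1 = I := by
    intro I hI
    by_contra hne
    rw [not_exists] at hne
    refine mem_support_iff.1 hI ?_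
    rw [hP, coeff_sum]
    exact Finset.sum_eq_zero fun J _ => by rw [coeff_monomial, if_neg (hne J)]
  refine ⟨P, ?_, ?_, ?_, ?_⟩
  · intro h0
    refine hp0 (funext fun J => ?_)
    rw [← hco J, h0]
    simp
  · intro I hI h
    obtain ⟨J, rfl⟩ := hsupp I hI
    exact mem_box.1 J.2 h
  · have hc : (Gd.card : ℝ) ≤ (2 ^ Fintype.card ι) ^ n := by
      have : Gd.card ≤ (2 ^ Fintype.card ι) ^ n := box_card_le ι d
      exact_mod_cast this
    have hs : (P.support.card : ℝ) ≤ Gd.card := by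
      have : P.support ⊆ Gd.image toF := fun I hI => by
        obtain ⟨J, rfl⟩ := hsupp I hI
        exact Finset.mem_image_of_mem _ J.2
      exact_mod_cast (Finset.card_le_card this).trans Finset.card_image_le
    have hAn : A ≤ A ^ n := le_self_pow₀ hA (by omega)
    calc Pool.Agent.MP_077ac3_nt.H18.l1 P
        ≤ ∑ _I ∈ P.support, (Gd.card : ℝ) * (D ^ n * A) := by
          refine Finset.sum_le_sum fun I hI => ?_
          obtain ⟨J, rfl⟩ := hsupp I hI
          rw [hco J]
          simpa using hpB J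
      _ = P.support.card * ((Gd.card : ℝ) * (D ^ n * A)) := by simp
      _ ≤ (2 ^ Fintype.card ι) ^ n * ((2 ^ Fintype.card ι) ^ n * (D ^ n * A ^ n)) := by
          gcongr
          exact hs.trans hc
      _ = _ := by simp only [mul_pow, mul_assoc]
  · intro v I hI
    have hI' := mem_support_iff.1 hI
    have hco2 : coeff I (linK (M v) P) =
        ∑ J : Gd, (p J : K) * coeff I (∏ s : Fin (m0 + 1) × ι, L v s ^ J.1 s.1 s.2) := by
      rw [hP, map_sum, coeff_sum]
      refine Finset.sum_congr rfl fun J _ => ?_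
      rw [linK_monomial, coeff_C_mul]
      rfl
    have hbox : (fun h i => I (h, i)) ∈ box ι d := by
      rw [hco2] at hI'
      obtain ⟨J, _, hJ⟩ := Finset.exists_ne_zero_of_sum_ne_zero hI'
      refine mem_box.2 fun h => ?_
      rw [prod_hom (M v) (fun s => J.1 s.1 s.2) I (right_ne_zero_of_mul hJ) h]
      exact mem_box.1 J.2 h
    by_contra hbal
    have hmem : (fun h i => I (h, i)) ∈ Bd := Finset.mem_filter.2 ⟨hbox, hbal⟩
    have ht' : (t : K) ^ n ≠ 0 := pow_ne_zero _ (by exact_mod_cast ht)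
    refine hI' (mul_left_cancel₀ ht' ?_)
    rw [hco2, mul_zero, Finset.mul_sum]
    have e1 : ∀ J : Gd, (t : K) ^ n * ((p J : K) *
        coeff I (∏ s : Fin (m0 + 1) × ι, L v s ^ J.1 s.1 s.2)) =
          ∑ k, ((a v J I k * p J : ℤ) : K) * ω k := by
      intro J
      rw [mul_left_comm, hQ v J I, Finset.mul_sum]
      refine Finset.sum_congr rfl fun k _ => ?_
      push_cast
      ring
    simp only [e1]
    rw [Finset.sum_comm]
    refine Finset.sum_eq_zero fun k _ => ?_
    have e2 := hp (v, ⟨_, hmem⟩, k)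
    simp only [toF_curry] at e2
    rw [← Finset.sum_mul, ← Int.cast_sum, e2]
    simp

end Pool.Agent.MP_be2dd8_ag.H53
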