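import Pool.Agent.MP_be2dd8_ag.H53.Spec

set_option autoImplicit false

/-! The Boettcher coordinate at infinity over a complete non archimedean field. -/

namespace Pool.Agent.MP_be2dd8_ag.H53

open Filter Topology Finset

namespace Bo

open PowerSeries

section Formal

variable {O : Type} [CommRing O]

/-- The substitution `T ↦ β T ^ d`. -/
noncomputable def sb (β : O) (d : ℕ) (ψ : O⟦X⟧) : O⟦X⟧ :=
  PowerSeries.mk fun n => if d ∣ n then β ^ (n / d) * coeff (n / d) ψ else 0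

lemma sb_sub (β : O) (d : ℕ) (ψ ψ' : O⟦X⟧) : sb β d (ψ - ψ') = sb β d ψ - sb β d ψ' := by
  ext n
  simp only [sb, coeff_mk, map_sub]
  split_ifs <;> ring

lemma sb_const (β : O) (d : ℕ) (ψ : O⟦X⟧) : constantCoeff (sb β d ψ) = constantCoeff ψ := by
  rw [← coeff_zero_eq_constantCoeff_apply, ← coeff_zero_eq_constantCoeff_apply]
  simp [sb]

lemma sb_dvd (β : O) {d j : ℕ} (hd : 2 ≤ d) (hj : 1 ≤ j) {ψ : O⟦X⟧} (h : X ^ j ∣ ψ) :
    X ^ (j + 1) ∣ sb β d ψ := by
  rw [X_pow_dvd_iff] at h ⊢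
  intro n hn
  simp only [sb, coeff_mk]
  split_ifs with hdn
  · obtain ⟨k, rfl⟩ := hdn
    rw [Nat.mul_div_cancel_left k (by omega), h k (by nlinarith), mul_zero]
  · rfl

/-- A contracting map on the series with constant term one has a fixed point. -/
lemma exists_fix (Φ : O⟦X⟧ → O⟦X⟧) (h1 : ∀ ψ, constantCoeff ψ = 1 → constantCoeff (Φ ψ) = 1)
    (h2 : ∀ ψ ψ' j, 1 ≤ j → constantCoeff ψ = 1 → constantCoeff ψ' = 1 → X ^ j ∣ ψ - ψ' →
      X ^ (j + 1) ∣ Φ ψ - Φ ψ') : ∃ ψ, constantCoeff ψ = 1 ∧ Φ ψ = ψ := by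
  have c1 : ∀ j, constantCoeff (Φ^[j] 1) = 1 := by
    intro j
    induction j with
    | zero => simp
    | succ j ih => rw [Function.iterate_succ_apply']; exact h1 _ ih
  have c2 : ∀ j, X ^ (j + 1) ∣ Φ^[j + 1] 1 - Φ^[j] 1 := by
    intro j
    induction j with
    | zero =>
      rw [zero_add, pow_one, X_dvd_iff, map_sub, c1, c1, sub_self]
    | succ j ih =>
      have := h2 _ _ (j + 1) (by omega) (c1 _) (c1 _) ih
      rwa [← Function.iterate_succ_apply' Φ, ← Function.iterate_succ_apply' Φ] at this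
  have c3 : ∀ k j, k ≤ j → coeff k (Φ^[j] 1) = coeff k (Φ^[k] 1) := by
    intro k j hkj
    induction j, hkj using Nat.le_induction with
    | base => rfl
    | succ j hkj ih =>
      have := X_pow_dvd_iff.1 (c2 j) k (by omega)
      rw [map_sub, sub_eq_zero] at this
      rw [this, ih]
  let ψ : O⟦X⟧ := PowerSeries.mk fun k => coeff k (Φ^[k] 1)
  have c4 : ∀ j, X ^ (j + 1) ∣ ψ - Φ^[j] 1 := by
    intro j
    rw [X_pow_dvd_iff]
    intro k hk
    rw [map_sub, c3 k j (by omega), coeff_mk, sub_self]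
  have c5 : constantCoeff ψ = 1 := by
    rw [← coeff_zero_eq_constantCoeff_apply, coeff_mk, coeff_zero_eq_constantCoeff_apply]
    exact c1 0
  refine ⟨ψ, c5, ?_⟩
  ext k
  have := X_pow_dvd_iff.1 (h2 _ _ (k + 1) (by omega) c5 (c1 k) (c4 k)) k (by omega)
  rw [map_sub, sub_eq_zero, ← Function.iterate_succ_apply' Φ] at this
  rw [this, c3 k _ (Nat.le_succ k), coeff_mk]

lemma exists_psi {d : ℕ} (hd : 2 ≤ d) (e : O) (he : e * d = 1) (b : ℕ → O) (β : O) :
    ∃ ψ : O⟦X⟧, constantCoeff ψ = 1 ∧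
      ψ ^ d + ∑ k ∈ range d, C (b k) * X ^ (d - k) * ψ ^ k = sb β d ψ := by
  have hed : (C e : O⟦X⟧) * d = 1 := by
    rw [← map_natCast (C : O →+* O⟦X⟧), ← map_mul, he, map_one]
  obtain ⟨ψ, h1, h2⟩ := exists_fix (fun ψ : O⟦X⟧ => ψ - C e *
      (ψ ^ d + ∑ k ∈ range d, C (b k) * X ^ (d - k) * ψ ^ k - sb β d ψ)) (by
    intro ψ h
    have : constantCoeff (∑ k ∈ range d, C (b k) * X ^ (d - k) * ψ ^ k) = 0 := by
      rw [map_sum]
      refine Finset.sum_eq_zero fun k hk => ?_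
      have : d - k ≠ 0 := by have := mem_range.1 hk; omega
      simp [this]
    simp only [map_sub, map_mul, map_add, map_pow, h, this, sb_const]
    ring) (by
    intro ψ ψ' j hj h h' hdv
    have a1 : X ^ (j + 1) ∣ ψ - ψ' - C e * (ψ ^ d - ψ' ^ d) := by
      have : ψ - ψ' - C e * (ψ ^ d - ψ' ^ d) =
          (ψ - ψ') * (1 - C e * ∑ i ∈ range d, ψ ^ i * ψ' ^ (d - 1 - i)) := by
        rw [← (Commute.all ψ ψ').geom_sum₂_mul d]
        ring
      rw [this, pow_succ]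
      refine mul_dvd_mul hdv (X_dvd_iff.2 ?_)
      simp [map_sum, h, h', he]
    have a2 : X ^ (j + 1) ∣ ∑ k ∈ range d, C (b k) * X ^ (d - k) * ψ ^ k -
        ∑ k ∈ range d, C (b k) * X ^ (d - k) * ψ' ^ k := by
      rw [← Finset.sum_sub_distrib]
      refine Finset.dvd_sum fun k hk => ?_
      rw [← mul_sub, pow_succ']
      refine mul_dvd_mul (Dvd.dvd.mul_left (dvd_pow_self _ ?_) _)
        (hdv.trans (sub_dvd_pow_sub_pow _ _ _))
      have := mem_range.1 hk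
      omega
    have a3 := sb_dvd β hd hj hdv
    rw [sb_sub] at a3
    convert (a1.sub (a2.mul_left (C e))).add (a3.mul_left (C e)) using 1
    ring)
  refine ⟨ψ, h1, ?_⟩
  have h3 := sub_eq_self.1 h2
  have h4 : (d : O⟦X⟧) * (C e *
      (ψ ^ d + ∑ k ∈ range d, C (b k) * X ^ (d - k) * ψ ^ k - sb β d ψ)) = 0 := by
    rw [h3, mul_zero]
  rw [← mul_assoc, mul_comm (d : O⟦X⟧), hed, one_mul] at h4
  exact sub_eq_zero.1 h4

end Formal

variable {F : Type} [NormedField F] [IsUltrametricDist F]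

/-- The unit ball. -/
def UB (F : Type) [NormedField F] [IsUltrametricDist F] : Subring F where
  carrier := {x | ‖x‖ ≤ 1}
  mul_mem' := fun {a b} ha hb => by
    show ‖a * b‖ ≤ 1
    rw [norm_mul]
    exact mul_le_one₀ ha (norm_nonneg _) hb
  one_mem' := by simp
  add_mem' := fun {a b} ha hb => (IsUltrametricDist.norm_add_le_max a b).trans (max_le ha hb)
  zero_mem' := by simp
  neg_mem' := fun {a} ha => by simpa using ha

lemma ub_le (a : UB F) : ‖(a : F)‖ ≤ 1 := a.2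

/-- Evaluation. -/
noncomputable def ev (t : F) (ψ : (UB F)⟦X⟧) : F := ∑' k, ((coeff k ψ : UB F) : F) * t ^ k

lemma term_le {t : F} (ψ : (UB F)⟦X⟧) (k : ℕ) :
    ‖((coeff k ψ : UB F) : F) * t ^ k‖ ≤ ‖t‖ ^ k := by
  rw [norm_mul, norm_pow]
  exact mul_le_of_le_one_left (by positivity) (ub_le _)

lemma summ {t : F} (ht : ‖t‖ < 1) (ψ : (UB F)⟦X⟧) :
    Summable fun k => ‖((coeff k ψ : UB F) : F) * t ^ k‖ :=
  Summable.of_nonneg_of_le (fun _ => norm_nonneg _) (term_le ψ)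
    (summable_geometric_of_lt_one (norm_nonneg _) ht)

lemma ev_le {t : F} (ht : ‖t‖ < 1) (ψ : (UB F)⟦X⟧) : ‖ev t ψ‖ ≤ 1 :=
  IsUltrametricDist.norm_tsum_le_of_forall_le fun k =>
    (term_le ψ k).trans (pow_le_one₀ (norm_nonneg _) ht.le)

lemma ev_zero (ψ : (UB F)⟦X⟧) : ev 0 ψ = ((constantCoeff ψ : UB F) : F) := by
  unfold ev
  rw [tsum_eq_single 0 (fun k hk => by simp [hk])]
  simp

lemma ev_C (t : F) (a : UB F) : ev t (C a) = a := by
  unfold ev
  rw [tsum_eq_single 0 (fun k hk => by simp [coeff_C, hk])]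
  simp

lemma ev_X (t : F) : ev t X = t := by
  unfold ev
  rw [tsum_eq_single 1 (fun k hk => by simp [coeff_X, hk])]
  simp

variable [CompleteSpace F]

lemma hs {t : F} (ht : ‖t‖ < 1) (ψ : (UB F)⟦X⟧) :
    HasSum (fun k => ((coeff k ψ : UB F) : F) * t ^ k) (ev t ψ) := (summ ht ψ).of_norm.hasSum

/-- Evaluation as a ring homomorphism. -/
noncomputable def evH {t : F} (ht : ‖t‖ < 1) : (UB F)⟦X⟧ →+* F where
  toFun := ev t
  map_one' := by simpa using ev_C t 1
  map_zero' := by simpa using ev_C t 0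
  map_add' := fun φ ψ => by
    refine (hs ht _).unique ?_
    simpa [add_mul] using (hs ht φ).add (hs ht ψ)
  map_mul' := fun φ ψ => by
    unfold ev
    rw [tsum_mul_tsum_eq_tsum_sum_antidiagonal_of_summable_norm (summ ht φ) (summ ht ψ)]
    refine tsum_congr fun n => ?_
    rw [coeff_mul]
    push_cast
    rw [Finset.sum_mul]
    refine Finset.sum_congr rfl fun p hp => ?_
    rw [← mem_antidiagonal.1 hp]
    ring

lemma ev_lip {t t' : F} (ht : ‖t‖ < 1) (ht' : ‖t'‖ < 1) (ψ : (UB F)⟦X⟧) :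
    ‖ev t ψ - ev t' ψ‖ ≤ ‖t - t'‖ := by
  rw [← ((hs ht ψ).sub (hs ht' ψ)).tsum_eq]
  refine IsUltrametricDist.norm_tsum_le_of_forall_le fun k => ?_
  obtain ⟨w, hw⟩ := sub_dvd_pow_sub_pow (⟨t, ht.le⟩ : UB F) ⟨t', ht'.le⟩ k
  have h1 : t ^ k - t' ^ k = (t - t') * w := by simpa using congrArg Subtype.val hw
  rw [← mul_sub, h1, norm_mul, norm_mul]
  calc _ ≤ 1 * (‖t - t'‖ * 1) := by gcongr <;> exact ub_le _
    _ = _ := by ring

omit [IsUltrametricDist F] [CompleteSpace F] in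
lemma step_le {β t : F} {d : ℕ} (hβ : ‖β‖ ≤ 1) (ht : ‖t‖ < 1) (hd : 2 ≤ d) :
    ‖β * t ^ d‖ ≤ ‖t‖ ^ 2 := by
  rw [norm_mul, norm_pow]
  exact (mul_le_of_le_one_left (by positivity) hβ).trans
    (pow_le_pow_of_le_one (norm_nonneg _) ht.le hd)

lemma ev_sb {t : F} (ht : ‖t‖ < 1) (β : UB F) {d : ℕ} (hd : 2 ≤ d) (ψ : (UB F)⟦X⟧) :
    ev t (sb β d ψ) = ev (β * t ^ d) ψ := by
  have h1 : ‖(β : F) * t ^ d‖ < 1 :=
    (step_le (ub_le β) ht hd).trans_lt (pow_lt_one₀ (norm_nonneg _) ht (by norm_num))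
  have hinj : Function.Injective fun k : ℕ => d * k := mul_right_injective₀ (by omega)
  refine (hs ht _).unique ((hinj.hasSum_iff ?_).1 ?_)
  · intro n hn
    have : ¬d ∣ n := fun ⟨k, hk⟩ => hn ⟨k, hk.symm⟩
    simp [sb, this]
  · convert hs h1 ψ using 2 with k
    simp only [Function.comp_apply, sb, coeff_mk, dvd_mul_right, if_true,
      Nat.mul_div_cancel_left k (show 0 < d by omega)]
    push_cast
    rw [mul_pow, pow_mul]
    ring

lemma exists_start {s : F} (hs0 : s ≠ 0) (hs1 : ‖s‖ < 1) (ψ : (UB F)⟦X⟧)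
    (h1 : constantCoeff ψ = 1) : ∃ t : F, t ≠ 0 ∧ ‖t‖ < 1 ∧ t = s * ev t ψ := by
  have hm : Set.MapsTo (fun t => s * ev t ψ) (Metric.closedBall 0 ‖s‖)
      (Metric.closedBall 0 ‖s‖) := by
    intro t ht
    rw [mem_closedBall_zero_iff] at ht ⊢
    rw [norm_mul]
    exact mul_le_of_le_one_right (norm_nonneg _) (ev_le (ht.trans_lt hs1) ψ)
  have hc : ContractingWith ‖s‖₊ (hm.restrict _ _ _) := by
    refine ⟨by exact_mod_cast hs1, LipschitzWith.of_dist_le_mul fun t t' => ?_⟩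
    have ht := (mem_closedBall_zero_iff.1 t.2).trans_lt hs1
    have ht' := (mem_closedBall_zero_iff.1 t'.2).trans_lt hs1
    show dist (s * ev (t : F) ψ) (s * ev (t' : F) ψ) ≤ ‖s‖ * dist (t : F) (t' : F)
    rw [dist_eq_norm, dist_eq_norm, ← mul_sub, norm_mul]
    exact mul_le_mul_of_nonneg_left (ev_lip ht ht' ψ) (norm_nonneg _)
  obtain ⟨t, ht, hf, -⟩ := ContractingWith.exists_fixedPoint' Metric.isClosed_closedBall.isComplete
    hm hc (x := 0) (Metric.mem_closedBall_self (norm_nonneg _)) (edist_ne_top _ _)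
  refine ⟨t, fun h0 => hs0 ?_, (mem_closedBall_zero_iff.1 ht).trans_lt hs1, hf.symm⟩
  have h2 : s * ev t ψ = t := hf
  rw [h0, ev_zero, h1] at h2
  simpa using h2

end Bo

open Bo in
theorem boett : BoettStmt := by
  intro F _ _ _ hn f hd x hx hR
  set d := f.natDegree with hdd
  have hd2 : 2 ≤ d := hd
  have ha : f.coeff d ≠ 0 := by
    refine Polynomial.leadingCoeff_ne_zero.2 fun h0 => ?_
    rw [h0] at hdd
    simp [hdd] at hd
  set a := f.coeff d with haa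
  obtain ⟨n0, hn0⟩ := hR (1 + ‖a⁻¹‖ + ∑ k ∈ range d, ‖f.coeff k * a⁻¹‖)
  set lam := x n0 with hlam
  have hs0 : 0 ≤ ∑ k ∈ range d, ‖f.coeff k * a⁻¹‖ := Finset.sum_nonneg fun _ _ => norm_nonneg _
  have hl1 : 1 ≤ ‖lam‖ := by linarith [norm_nonneg a⁻¹]
  have hl0 : lam ≠ 0 := norm_pos_iff.1 (by linarith)
  have key : ∀ (y : F) (j : ℕ), ‖y‖ ≤ ‖lam‖ → 1 ≤ j → ‖y / lam ^ j‖ ≤ 1 := by
    intro y j hy hj
    rw [norm_div, norm_pow]
    exact div_le_one_of_le₀ (hy.trans (le_self_pow₀ hl1 (by omega))) (by positivity)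
  have hb : ∀ k, k < d → ‖f.coeff k * a⁻¹ / lam ^ (d - k)‖ ≤ 1 := fun k hk => by
    refine key _ _ ?_ (by omega)
    have := Finset.single_le_sum (f := fun k => ‖f.coeff k * a⁻¹‖) (fun _ _ => norm_nonneg _)
      (mem_range.2 hk)
    linarith [norm_nonneg a⁻¹]
  let b : ℕ → UB F := fun k => if h : k < d then ⟨_, hb k h⟩ else 0
  let β : UB F := ⟨a⁻¹ / lam ^ (d - 1), key _ _ (by linarith) (by omega)⟩
  have hdn : ‖(d : F)‖ = 1 := hn d (by omega)
  have hd0 : (d : F) ≠ 0 := norm_pos_iff.1 (by rw [hdn]; norm_num)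
  obtain ⟨ψ, hψ1, hψ⟩ := exists_psi (O := UB F) hd2
    ⟨(d : F)⁻¹, show ‖(d : F)⁻¹‖ ≤ 1 by rw [norm_inv, hdn, inv_one]⟩
    (Subtype.ext (by simp [hd0])) b β
  have hβ0 : (β : F) ≠ 0 := div_ne_zero (inv_ne_zero ha) (pow_ne_zero _ hl0)
  have step : ∀ y t : F, t ≠ 0 → ‖t‖ < 1 → y * t = lam * ev t ψ →
      f.eval y * (β * t ^ d) = lam * ev (β * t ^ d) ψ := by
    intro y t ht0 ht hy
    have h1 := congrArg (evH ht) hψ
    simp only [map_add, map_pow, map_sum, map_mul] at h1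
    change ev t ψ ^ d + ∑ k ∈ range d, ev t (PowerSeries.C (b k)) * ev t PowerSeries.X ^ (d - k) *
      ev t ψ ^ k = ev t (sb β d ψ) at h1
    rw [ev_sb ht β hd2] at h1
    have h2 : ev t ψ = y * t / lam := by rw [hy]; field_simp
    rw [← h1, Polynomial.eval_eq_sum_range, ← hdd, Finset.sum_range_succ, add_mul, mul_add,
      add_comm, Finset.sum_mul, Finset.mul_sum, h2]
    obtain ⟨d', hd'⟩ : ∃ d', d = d' + 1 := ⟨d - 1, by omega⟩
    congr 1
    · rw [← haa]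
      simp only [β, hd', Nat.add_sub_cancel, div_pow]
      field_simp
      ring
    · refine Finset.sum_congr rfl fun k hk => ?_
      have hk' := mem_range.1 hk
      obtain ⟨j, hj⟩ : ∃ j, d' = k + j := ⟨d' - k, by omega⟩
      rw [ev_C, ev_X]
      simp only [b, dif_pos hk', β, div_pow]
      rw [show d - 1 = k + j by omega, show d - k = j + 1 by omega, show d = k + (j + 1) by omega]
      field_simp
      ring
  obtain ⟨M, hM⟩ := hR ‖lam‖
  have hxM : x M ≠ 0 := norm_pos_iff.1 (by linarith)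
  obtain ⟨t0, ht0, ht1, ht2⟩ := exists_start (s := lam / x M) (div_ne_zero hl0 hxM)
    (by rw [norm_div]; exact (div_lt_one (by linarith)).2 hM) ψ hψ1
  let w : ℕ → F := fun j => (fun t => (β : F) * t ^ d)^[j] t0
  have hw : ∀ j, w (j + 1) = β * w j ^ d := fun j => Function.iterate_succ_apply' _ _ _
  have hind : ∀ j, w j ≠ 0 ∧ ‖w j‖ ≤ ‖t0‖ ^ (j + 1) ∧ x (M + j) * w j = lam * ev (w j) ψ := by
    intro j
    induction j with
    | zero =>
      refine ⟨ht0, by simp [w], ?_⟩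
      show x M * t0 = lam * ev t0 ψ
      conv_lhs => rw [ht2]
      field_simp
    | succ j ih =>
      obtain ⟨i1, i2, i3⟩ := ih
      have i4 : ‖w j‖ ≤ ‖t0‖ := i2.trans (pow_le_of_le_one (norm_nonneg _) ht1.le (by omega))
      rw [hw]
      refine ⟨mul_ne_zero hβ0 (pow_ne_zero _ i1), ?_, ?_⟩
      · refine (step_le (ub_le β) (i4.trans_lt ht1) hd2).trans ?_
        rw [sq, pow_succ]
        gcongr
      · rw [← add_assoc, hx]
        exact step _ _ i1 (i4.trans_lt ht1) i3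
  have hlt : ∀ j, ‖w j‖ < 1 := fun j =>
    (hind j).2.1.trans_lt (pow_lt_one₀ (norm_nonneg _) ht1 (by omega))
  refine ⟨fun k => lam * ((PowerSeries.coeff k ψ : UB F) : F), fun n => w (n - M), β, ‖lam‖, M,
    fun k => ?_, ?_, fun n hMn => ⟨(hind _).1, hlt _, ?_, ?_⟩⟩
  · rw [norm_mul]
    exact mul_le_of_le_one_right (norm_nonneg _) (ub_le _)
  · refine Tendsto.comp (g := w) ?_ (tendsto_sub_atTop_nat M)
    refine squeeze_zero_norm (fun j => (hind j).2.1) ?_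
    exact (tendsto_pow_atTop_nhds_zero_of_lt_one (norm_nonneg _) ht1).comp (tendsto_add_atTop_nat 1)
  · show w (n + 1 - M) = _
    rw [show n + 1 - M = n - M + 1 by omega, hw]
  · have h1 := (hind (n - M)).2.2
    rw [show M + (n - M) = n by omega] at h1
    show HasSum (fun k => lam * ((PowerSeries.coeff k ψ : UB F) : F) * w (n - M) ^ k)
      (x n * w (n - M))
    rw [h1]
    simpa [mul_assoc] using (hs (hlt (n - M)) ψ).mul_left lam

end Pool.Agent.MP_be2dd8_ag.H53
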