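import Pool.Agent.MP_be2dd8_ag.H53.Key

/-! Return sets of parametrised orbits. -/

set_option autoImplicit false

namespace Pool.Agent.MP_be2dd8_ag.H53

open Filter Topology

/-- sequences that are meromorphic functions of an orbit of a monomial map -/
def Par {F : Type} [NormedField F] (d : ℕ) (x : ℕ → F) : Prop :=
  ∃ (u : ℕ → Fˣ) (β : Fˣ) (Ψ : ℕ → F → F) (M p : ℕ) (z : Prop), 0 < p ∧
    (∀ n, M ≤ n → u (n + 1) = β * u n ^ d ∧ ‖(u n : F)‖ ≤ 1 ∧ x n * u n = Ψ n (u n) ∧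
      Ψ (n + p) = Ψ n) ∧
    (¬ z → Tendsto (fun n => (u n : F)) atTop (𝓝 0)) ∧
    ∀ (n N : ℕ) (i : Fin N) (Z : Fin N → Prop), (¬ z → ¬ Z i) → An Z 1 fun v => Ψ n (v i)

theorem core {F : Type} [NormedField F] [CompleteSpace F] (hF : UnitEq F) (hQ : UnitEq ℚ)
    (hgap : ∀ Γ : Subgroup Fˣ, Γ.FG → ∀ (A : Type) [Fintype A] (c : A → F),
      ∃ ε : ℝ, 0 < ε ∧ ∀ y : A → Fˣ, (∀ a, y a ∈ Γ) → ∑ a, c a * (y a : F) ≠ 0 →
        ∃ a, ε * ‖(y a : F)‖ ≤ ‖∑ a, c a * (y a : F)‖)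
    {N : ℕ} (d : Fin N → ℕ) (hd : ∀ i, 2 ≤ d i) (x : Fin N → ℕ → F) (hx : ∀ i, Par (d i) (x i))
    (T : Set (MvPolynomial (Fin N) F)) :
    ∃ (m : ℕ) (γ : Fin m → Fin N → ℕ) (H : Fin m → AddSubgroup (Fin N → ℤ)),
      {n : Fin N → ℕ | ∀ q ∈ T, MvPolynomial.eval (fun i => x i (n i)) q = 0}
        = {n : Fin N → ℕ | ∃ j : Fin m, ∃ h ∈ H j,
            (∀ i, 0 ≤ h i) ∧ ∀ i, (n i : ℤ) = (γ j i : ℤ) + h i} := by
  classical
  choose w β Ψ M p0 z hp0 hw hz hΨ using hx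
  set Γ : Subgroup Fˣ := Subgroup.closure (Set.range (fun i => w i (M i)) ∪ Set.range β) with hΓ
  have hfg : Γ.FG :=
    (Subgroup.fg_iff _).2 ⟨_, rfl, (Set.finite_range _).union (Set.finite_range _)⟩
  have hwΓ : ∀ i n, M i ≤ n → w i n ∈ Γ := by
    intro i n hn
    induction n, hn using Nat.le_induction with
    | base => exact Subgroup.subset_closure (Or.inl ⟨i, rfl⟩)
    | succ n hn ih =>
      rw [(hw i n hn).1]
      exact Γ.mul_mem (Subgroup.subset_closure (Or.inr ⟨i, rfl⟩)) (Γ.pow_mem ih _)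
  obtain ⟨Q, _, π, hπ1, hπ2⟩ := exists_sep hfg
  choose M1 p1 hp1 hper1 using fun i => H15.periodic_of_finite (fun n => π (w i n))
    (fun v => π (β i) * v ^ d i) (M i) (fun n hn => by rw [(hw i n hn).1, map_mul, map_pow]) hπ1
    fun n hn => ⟨_, hwΓ i n hn, rfl⟩
  set p : Fin N → ℕ := fun i => p0 i * p1 i with hpd
  have hp : ∀ i, 0 < p i := fun i => Nat.mul_pos (hp0 i) (hp1 i)
  set M' : Fin N → ℕ := fun i => max (M i) (M1 i) with hM'
  have hd0 : ∀ i, (d i : ℚ) ≠ 0 := fun i => by have := hd i; positivity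
  suffices key : ∀ U : Ultrafilter (Fin N → ℕ),
      {n : Fin N → ℕ | ∀ q ∈ T, MvPolynomial.eval (fun i => x i (n i)) q = 0} ∈ U →
      ∃ j : (Fin N → ℕ) × AddSubgroup (Fin N → ℤ),
        {n : Fin N → ℕ | ∃ h ∈ j.2, (∀ i, 0 ≤ h i) ∧ ∀ i, (n i : ℤ) = (j.1 i : ℤ) + h i} ⊆
          {n : Fin N → ℕ | ∀ q ∈ T, MvPolynomial.eval (fun i => x i (n i)) q = 0} ∧
        {n : Fin N → ℕ | ∃ h ∈ j.2, (∀ i, 0 ≤ h i) ∧ ∀ i, (n i : ℤ) = (j.1 i : ℤ) + h i} ∈ U by
    obtain ⟨m, j, hj⟩ := H15.cover _ _ key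
    exact ⟨m, fun i => (j i).1, fun i => (j i).2, hj⟩
  intro U hU
  set bd : Fin N → Prop := fun i => ∃ b, ∀ᶠ n in (U : Filter (Fin N → ℕ)), n i = b with hbd
  set rel : Fin N → Fin N → Prop := fun i j => ∃ t : ℚ, ∀ᶠ n in (U : Filter (Fin N → ℕ)),
    (d i : ℚ) ^ n i / (d j : ℚ) ^ n j = t with hrel
  have hinf : ∀ i, ¬ bd i → Tendsto (fun n : Fin N → ℕ => n i) U atTop :=
    fun i h => H15.tendsto_of_not_const U _ h
  have hmod : ∀ i, ∃ b, ∀ᶠ n in (U : Filter (Fin N → ℕ)), n i % p i = b := fun i => by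
    by_contra h
    obtain ⟨n, hn⟩ :=
      ((H15.tendsto_of_not_const U _ h).eventually (eventually_ge_atTop (p i))).exists
    exact absurd (Nat.mod_lt (n i) (hp i)) (not_lt.2 hn)
  have hlarge : ∀ B : Fin N → ℕ, ∀ᶠ n in (U : Filter (Fin N → ℕ)), ∀ i, ¬ bd i → B i ≤ n i :=
    fun B => eventually_all.2 fun i => by
      by_cases h : bd i
      · exact Eventually.of_forall fun _ h' => absurd h h'
      · exact ((hinf i h).eventually (eventually_ge_atTop (B i))).mono fun _ h _ => h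
  obtain ⟨γ, ⟨g1, g2⟩, g3, g4⟩ :=
    (((eventually_all.2 fun i => H15.ev_const (U : Filter (Fin N → ℕ)) fun n => n i).and
      (eventually_all.2 fun i => H15.ev_const (U : Filter (Fin N → ℕ)) fun n => n i % p i)).and
      ((eventually_all.2 fun i => eventually_all.2 fun j => H15.ev_const (U : Filter (Fin N → ℕ))
        fun n => (d i : ℚ) ^ n i / (d j : ℚ) ^ n j).and (hlarge M'))).exists
  let H : AddSubgroup (Fin N → ℤ) :=
    { carrier := {h | (∀ i, bd i → h i = 0) ∧ (∀ i, (p i : ℤ) ∣ h i) ∧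
        ∀ i j, rel i j → (d i : ℚ) ^ h i = (d j : ℚ) ^ h j}
      zero_mem' := by simp
      add_mem' := fun {a b} ha hb => ⟨fun i hi => by simp [ha.1 i hi, hb.1 i hi],
        fun i => (ha.2.1 i).add (hb.2.1 i), fun i j h => by
          simp only [Pi.add_apply, zpow_add₀ (hd0 _), ha.2.2 i j h, hb.2.2 i j h]⟩
      neg_mem' := fun {a} ha => ⟨fun i hi => by simp [ha.1 i hi],
        fun i => (ha.2.1 i).neg_right, fun i j h => by
          simp only [Pi.neg_apply, zpow_neg, ha.2.2 i j h]⟩ }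
  set P : Set (Fin N → ℕ) :=
    {n | ∃ h ∈ H, (∀ i, 0 ≤ h i) ∧ ∀ i, (n i : ℤ) = (γ i : ℤ) + h i} with hP
  have hPU : P ∈ U := by
    have e1 : ∀ᶠ n in (U : Filter (Fin N → ℕ)), ∀ i, bd i → n i = γ i :=
      eventually_all.2 fun i => eventually_imp_distrib_left.2 (g1 i)
    have e2 := eventually_all.2 fun i => g2 i (hmod i)
    have e3 : ∀ᶠ n in (U : Filter (Fin N → ℕ)), ∀ i j, rel i j →
        (d i : ℚ) ^ n i / (d j : ℚ) ^ n j = (d i : ℚ) ^ γ i / (d j : ℚ) ^ γ j :=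
      eventually_all.2 fun i => eventually_all.2 fun j => eventually_imp_distrib_left.2 (g3 i j)
    filter_upwards [e1, e2, e3, hlarge γ] with n e1 e2 e3 e4
    refine ⟨fun i => n i - γ i, ⟨fun i hi => by simp [e1 i hi], fun i => ?_, fun i j h => ?_⟩,
      fun i => ?_, fun i => by ring⟩
    · exact (Nat.modEq_iff_dvd.1 (e2 i).symm)
    · have := e3 i j h
      have h1 := hd0 i
      have h2 := hd0 j
      simp only [zpow_sub₀ (hd0 _), zpow_natCast]
      field_simp at this ⊢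
      linear_combination this
    · by_cases h : bd i
      · simp [e1 i h]
      · simpa using e4 i h
  have hPn : ∀ n ∈ P, ∀ i, (bd i → n i = γ i) ∧ ∃ t, n i = γ i + p i * t := by
    rintro n ⟨h, ⟨h1, h2, -⟩, h3, h4⟩ i
    refine ⟨fun hi => by have := h4 i; rw [h1 i hi] at this; omega, ?_⟩
    obtain ⟨t, ht⟩ := h2 i
    have h5 : 0 ≤ t := by
      have := h3 i
      rw [ht] at this
      exact nonneg_of_mul_nonneg_right this (by exact_mod_cast hp i)
    lift t to ℕ using h5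
    refine ⟨t, ?_⟩
    have := h4 i
    rw [ht] at this
    exact_mod_cast this
  have hγM : ∀ i, ¬ bd i → M i ≤ γ i := fun i h => le_of_max_le_left (g4 i h)
  have hnM : ∀ n ∈ P, ∀ i, ¬ bd i → M i ≤ n i := fun n hn i h => by
    obtain ⟨t, ht⟩ := (hPn n hn i).2
    have := hγM i h
    omega
  set u : (Fin N → ℕ) → Fin N → Fˣ := fun n i => if bd i then 1 else w i (n i) with hu
  set g : Fin N → (Fin N → F) → F := fun i =>
    if bd i then fun v => x i (γ i) * mon (Pi.single i 1) v else fun v => Ψ i (γ i) (v i) with hg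
  have hur : ∀ n ∈ P, ∀ i, ‖(u n i : F)‖ ≤ 1 := by
    intro n hn i
    simp only [hu]
    split_ifs with h
    · simp
    · exact (hw i _ (hnM n hn i h)).2.1
  have hgA : ∀ i, An (fun i => bd i ∨ z i) 1 (g i) := fun i => by
    simp only [hg]
    split_ifs with h
    · exact An.monomial 1 _ _
    · exact hΨ i _ N i _ fun h' => not_or.2 ⟨h, h'⟩
  have hxu : ∀ n ∈ P, ∀ i, x i (n i) * u n i = g i (fun i => u n i) := by
    intro n hn i
    obtain ⟨h1, t, ht⟩ := hPn n hn i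
    by_cases h : bd i
    · simp only [hg, if_pos h, mon_single, pow_one, h1 h]
    · have h3 : Ψ i (n i) = Ψ i (γ i) := by
        rw [ht, hpd, mul_assoc]
        exact H15.per_mul (fun n hn => (hw i n hn).2.2.2) (hγM i h) _
      simp only [hg, hu, if_neg h, ← h3]
      exact (hw i _ (hnM n hn i h)).2.2.1
  have huΓ : ∀ n ∈ P, ∀ i, u n i ∈ Γ := by
    intro n hn i
    simp only [hu]
    split_ifs with h
    · exact Γ.one_mem
    · exact hwΓ i _ (hnM n hn i h)
  have hrig := rigid π hπ2 U hPU u (fun n i => (d i : ℚ) ^ n i) ?_ ?_ (scaleG hQ U hPU d hd id ?_ ?_)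
  rotate_left
  · suffices h : ∀ n ∈ P, ∀ i, π (u n i) = π (u γ i) from
      fun n hn n' hn' i => (h n hn i).trans (h n' hn' i).symm
    intro n hn i
    simp only [hu]
    split_ifs with h
    · rfl
    · obtain ⟨t, ht⟩ := (hPn n hn i).2
      rw [ht, show p i * t = p1 i * (p0 i * t) by simp only [hpd]; ring]
      exact H15.per_mul (x := fun n => π (w i n)) (hper1 i) (le_of_max_le_right (g4 i h)) _
  · intro θ
    choose r s hrs using fun i => theta_form θ (w i) (β i) (hd i) fun n hn => (hw i n hn).1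
    refine ⟨fun i => if bd i then 0 else r i, fun i => if bd i then 0 else s i, fun n hn i => ?_⟩
    simp only [hu]
    split_ifs with h
    · simp
    · exact hrs i _ (hnM n hn i h)
  · intro i b hb n hn
    obtain ⟨n0, h1, h2⟩ := (hb.and hPU).exists
    exact ((hPn n hn i).1 ⟨b, hb⟩).trans (((hPn n0 h2 i).1 ⟨b, hb⟩).symm.trans h1)
  · intro i j t ht
    have hr : rel i j := ⟨t, ht.mono fun n hn => by
      rw [div_eq_iff (pow_ne_zero _ (hd0 j))]; exact hn⟩
    have h1 : ∀ n ∈ P, (d i : ℚ) ^ n i * (d j : ℚ) ^ γ j = (d i : ℚ) ^ γ i * (d j : ℚ) ^ n j := by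
      rintro n ⟨h, ⟨-, -, h1⟩, -, h2⟩
      rw [← zpow_natCast _ (n i), ← zpow_natCast _ (n j), h2 i, h2 j, zpow_add₀ (hd0 _),
        zpow_add₀ (hd0 _), h1 i j hr, zpow_natCast, zpow_natCast]
      ring
    obtain ⟨n0, h2, h3⟩ := (ht.and hPU).exists
    intro n hn
    have h4 := h1 n hn
    have h5 := h1 n0 h3
    simp only [id] at h2 ⊢
    rw [h2] at h5
    refine mul_right_cancel₀ (mul_ne_zero (pow_ne_zero (γ j) (hd0 j))
      (pow_ne_zero (n0 j) (hd0 j))) ?_
    linear_combination (d j : ℚ) ^ n0 j * h4 - (d j : ℚ) ^ n j * h5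
  have hmon : ∀ (a : Fin N → ℕ) n, ((∏ i, u n i ^ a i : Fˣ) : F) = mon a fun i => (u n i : F) := by
    intro a n
    simp [mon]
  refine ⟨(γ, H), fun n hn q hq => ?_, hPU⟩
  obtain ⟨D, G, hG, hGq⟩ := An.poly zero_le_one g hgA q
  have := hG.vanish one_pos le_rfl U P hPU (fun n i => u n i) (fun n _ i => (u n i).ne_zero) hur
    (fun i hi => ?_) (fun E c => ?_) ?_ n hn
  · rw [hGq _ _ (hxu n hn)] at this
    exact (mul_eq_zero.1 this).resolve_right (mon_ne fun i => (u n i).ne_zero)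
  · obtain ⟨h1, h2⟩ := not_or.1 hi
    simp only [hu, if_neg h1]
    exact (hz i h2).comp (hinf i h1)
  · have hs : ∀ n, ∑ a ∈ E, c a * mon a (fun i => (u n i : F)) =
        ∑ a : E, c a * ((∏ i, u n i ^ (a : Fin N → ℕ) i : Fˣ) : F) := fun n => by
      simp only [hmon]
      exact (Finset.sum_coe_sort E fun a => c a * mon a fun i => (u n i : F)).symm
    have hy : ∀ n ∈ P, ∀ a : E, ∏ i, u n i ^ (a : Fin N → ℕ) i ∈ Γ := fun n hn a =>
      Γ.prod_mem fun i _ => Γ.pow_mem (huΓ n hn i) _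
    simp only [hs]
    by_cases h0 : ∀ᶠ n in (U : Filter (Fin N → ℕ)),
        ∑ a : E, c a * ((∏ i, u n i ^ (a : Fin N → ℕ) i : Fˣ) : F) = 0
    · refine Or.inl (uec hF hfg U hPU _ hy (fun a b t ht => ?_) _ h0)
      have e : ∀ n, ∏ i, u n i ^ (((a : Fin N → ℕ) i : ℤ) - (b : Fin N → ℕ) i) =
          (∏ i, u n i ^ (a : Fin N → ℕ) i) / ∏ i, u n i ^ (b : Fin N → ℕ) i := fun n => by
        rw [← Finset.prod_div_distrib]
        exact Finset.prod_congr rfl fun i _ => by rw [zpow_sub, zpow_natCast, zpow_natCast,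
          div_eq_mul_inv]
      have ht0 : t ≠ 0 := by
        rintro rfl
        obtain ⟨n, hn⟩ := ht.exists
        exact Units.ne_zero _ (hn.trans (zero_mul _))
      intro n hn
      have h1 := hrig (fun i => ((a : Fin N → ℕ) i : ℤ) - (b : Fin N → ℕ) i) (Units.mk0 t ht0)
        (ht.mono fun n hn => by
          rw [e, div_eq_iff_eq_mul]
          exact Units.ext hn) n hn
      rw [e, div_eq_iff_eq_mul] at h1
      exact congrArg Units.val h1
    · obtain ⟨ε, hε, h1⟩ := hgap Γ hfg E fun a => c a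
      refine Or.inr ⟨ε, hε, ?_⟩
      filter_upwards [hPU, Ultrafilter.eventually_not.2 h0] with n hn h2
      obtain ⟨a, ha⟩ := h1 _ (hy n hn) h2
      exact ⟨a, a.2, by rwa [← hmon]⟩
  · filter_upwards [hPU, hU] with n hn hS
    rw [hGq _ _ (hxu n hn), hS q hq, zero_mul]

end Pool.Agent.MP_be2dd8_ag.H53
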