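import Pool.Agent.MP_be2dd8_ag.H53.Spec

set_option autoImplicit false

/-! Row GL: no excessive cancellation, and Laurent series as a differential field. -/

namespace Pool.Agent.MP_be2dd8_ag.H53

open Filter Topology

namespace Gl

section Gap

variable {F : Type} [NormedField F]

/-- the field of constants -/
def cst (δ : Derivation ℤ F F) : Subfield F where
  carrier := {x | δ x = 0}
  mul_mem' := fun {a b} ha hb => by
    simp only [Set.mem_ofPred_eq] at ha hb ⊢
    rw [δ.leibniz, ha, hb]; simp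
  one_mem' := δ.map_one_eq_zero
  add_mem' := fun {a b} ha hb => by
    simp only [Set.mem_ofPred_eq] at ha hb ⊢
    rw [map_add, ha, hb, add_zero]
  zero_mem' := map_zero δ
  neg_mem' := fun {a} ha => by
    simp only [Set.mem_ofPred_eq] at ha ⊢
    rw [map_neg, ha, neg_zero]
  inv_mem' := fun a ha => by
    simp only [Set.mem_ofPred_eq] at ha ⊢
    rw [δ.leibniz_inv, ha, smul_zero]

/-- the derivation is linear over its constants -/
def lin (δ : Derivation ℤ F F) : F →ₗ[cst δ] F where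
  toFun := δ
  map_add' := map_add δ
  map_smul' := fun t x => by
    have ht : δ (t : F) = 0 := t.2
    change δ ((t : F) * x) = (t : F) * δ x
    rw [δ.leibniz, ht]; simp

lemma norm_cst {δ : Derivation ℤ F F} (hk : ∀ x, δ x = 0 → ‖x‖ ≤ 1) {x : F} (h : δ x = 0)
    (h0 : x ≠ 0) : ‖x‖ = 1 := by
  have h1 := hk x h
  have h2 := hk x⁻¹ ((cst δ).inv_mem h)
  rw [norm_inv] at h2
  have h3 : 0 < ‖x‖ := norm_pos_iff.2 h0
  exact le_antisymm h1 ((inv_le_one₀ h3).1 h2)

variable [IsUltrametricDist F]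

lemma norms_finite {δ : Derivation ℤ F F} (hk : ∀ x, δ x = 0 → ‖x‖ ≤ 1)
    (E : Submodule (cst δ) F) (hE : E.FG) : ((fun x : F => ‖x‖) '' (E : Set F)).Finite := by
  classical
  obtain ⟨s, rfl⟩ := hE
  induction s using Finset.induction_on with
  | empty => simp
  | insert v s _ ih =>
    set E := Submodule.span (cst δ) (s : Set F)
    have h1 : ({r | (∃ e ∈ E, ‖v + e‖ = r) ∧ r ∉ (fun x : F => ‖x‖) '' (E : Set F)}).Subsingleton := by
      rintro r ⟨⟨e, he, rfl⟩, hr⟩ r' ⟨⟨e', he', rfl⟩, hr'⟩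
      by_contra hne
      have h2 : ‖(v + e) + -(v + e')‖ = max ‖v + e‖ ‖-(v + e')‖ :=
        IsUltrametricDist.norm_add_eq_max_of_norm_ne_norm (by rwa [norm_neg])
      have h3 : (v + e) + -(v + e') = e - e' := by ring
      rw [h3, norm_neg] at h2
      rcases max_choice ‖v + e‖ ‖v + e'‖ with h | h
      · exact hr ⟨e - e', E.sub_mem he he', h2.trans h⟩
      · exact hr' ⟨e - e', E.sub_mem he he', h2.trans h⟩
    refine (ih.union h1.finite).subset ?_
    rintro _ ⟨x, hx, rfl⟩
    rw [Finset.coe_insert, SetLike.mem_coe, Submodule.mem_span_insert] at hx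
    obtain ⟨t, e, he, rfl⟩ := hx
    by_cases hin : ‖t • v + e‖ ∈ (fun x : F => ‖x‖) '' (E : Set F)
    · exact Or.inl hin
    refine Or.inr ⟨?_, hin⟩
    have ht : t ≠ 0 := by
      rintro rfl
      exact hin ⟨e, he, by simp⟩
    refine ⟨t⁻¹ • e, E.smul_mem _ he, ?_⟩
    have ht' : (t : F) ≠ 0 := fun h => ht (Subtype.ext h)
    have h4 : t • v + e = (t : F) * (v + t⁻¹ • e) := by
      change (t : F) * v + e = (t : F) * (v + ((t⁻¹ : cst δ) : F) * e)
      rw [Subfield.coe_inv]
      field_simp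
    simp only [h4, norm_mul, norm_cst hk t.2 ht', one_mul]

lemma norms_bdd {δ : Derivation ℤ F F} (hk : ∀ x, δ x = 0 → ‖x‖ ≤ 1)
    (E : Submodule (cst δ) F) (hE : E.FG) :
    ∃ c0 C0 : ℝ, 0 < c0 ∧ 0 < C0 ∧ ∀ e ∈ E, e ≠ 0 → c0 ≤ ‖e‖ ∧ ‖e‖ ≤ C0 := by
  have hf := norms_finite hk E hE
  obtain ⟨C0, hC0⟩ := hf.bddAbove
  obtain ⟨B, hB⟩ := (hf.image fun r => r⁻¹).bddAbove
  refine ⟨(max B 1)⁻¹, max C0 1, by positivity, by positivity, fun e he h0 => ⟨?_, ?_⟩⟩
  · have h1 : ‖e‖⁻¹ ≤ B := hB ⟨‖e‖, ⟨e, he, rfl⟩, rfl⟩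
    exact inv_le_of_inv_le₀ (norm_pos_iff.2 h0) (h1.trans (le_max_left _ _))
  · exact (hC0 ⟨e, he, rfl⟩).trans (le_max_left _ _)

omit [IsUltrametricDist F] in
lemma exists_log (δ : Derivation ℤ F F) (Γ : Subgroup Fˣ) (hΓ : Γ.FG) :
    ∃ L : Submodule (cst δ) F, L.FG ∧ ∀ y ∈ Γ, δ (y : F) / y ∈ L := by
  obtain ⟨S, rfl⟩ := hΓ
  refine ⟨Submodule.span _ ((fun g : Fˣ => δ (g : F) / g) '' (S : Set Fˣ)),
    Submodule.fg_span (S.finite_toSet.image _), fun y hy => ?_⟩
  induction hy using Subgroup.closure_induction with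
  | mem x hx => exact Submodule.subset_span ⟨x, hx, rfl⟩
  | one => simp
  | mul x y _ _ hx hy =>
    have : δ ((x * y : Fˣ) : F) / ((x * y : Fˣ) : F) = δ (x : F) / x + δ (y : F) / y := by
      rw [Units.val_mul, δ.leibniz, smul_eq_mul, smul_eq_mul]
      field_simp
      ring
    rw [this]
    exact Submodule.add_mem _ hx hy
  | inv x _ hx =>
    have : δ ((x⁻¹ : Fˣ) : F) / ((x⁻¹ : Fˣ) : F) = -(δ (x : F) / x) := by
      rw [Units.val_inv_eq_inv_val, δ.leibniz_inv, smul_eq_mul]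
      field_simp
    rw [this]
    exact Submodule.neg_mem _ hx

lemma gap_aux {δ : Derivation ℤ F F} {C : ℝ} (hC : ∀ x, ‖δ x‖ ≤ C * ‖x‖)
    (hk : ∀ x, δ x = 0 → ‖x‖ ≤ 1) {Γ : Subgroup Fˣ} (hΓ : Γ.FG) {A : Type} (T : Finset A) :
    ∀ E : Submodule (cst δ) F, E.FG → ∃ ε : ℝ, 0 < ε ∧ ∀ (y : A → Fˣ) (e : A → F),
      (∀ a, y a ∈ Γ) → (∀ a, e a ∈ E) → ∑ a ∈ T, e a * (y a : F) ≠ 0 →
      ∃ a, ε * ‖(y a : F)‖ ≤ ‖∑ a ∈ T, e a * (y a : F)‖ := by
  classical
  obtain ⟨L, hL, hlog⟩ := exists_log δ Γ hΓ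
  induction T using Finset.induction_on with
  | empty => exact fun E _ => ⟨1, one_pos, fun y e _ _ h => absurd (by simp) h⟩
  | insert a0 T ha0 ih =>
    intro E hE
    obtain ⟨ε1, h1, k1⟩ := ih E hE
    obtain ⟨ε2, h2, k2⟩ := ih (E * E.map (lin δ) ⊔ E * E * L)
      ((hE.mul (hE.map _)).sup ((hE.mul hE).mul hL))
    obtain ⟨c0, C0, hc0, hC0, hb⟩ := norms_bdd hk E hE
    have hC1 : 0 < max C 1 := by positivity
    refine ⟨min ε1 (min c0 (ε2 / (max C 1 * C0))), by positivity, fun y e hy he hs => ?_⟩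
    rw [Finset.sum_insert ha0] at hs ⊢
    by_cases e0 : e a0 = 0
    · rw [e0, zero_mul, zero_add] at hs ⊢
      obtain ⟨a, ha⟩ := k1 y e hy he hs
      exact ⟨a, (mul_le_mul_of_nonneg_right (min_le_left _ _) (norm_nonneg _)).trans ha⟩
    obtain ⟨b1, b2⟩ := hb _ (he a0) e0
    have y0 : (y a0 : F) ≠ 0 := (y a0).ne_zero
    have ny0 : 0 < ‖(y a0 : F)‖ := norm_pos_iff.2 y0
    have ne0 : 0 < ‖e a0‖ := norm_pos_iff.2 e0
    set z : A → Fˣ := fun a => y a / y a0 with hz
    set w : F := e a0 + ∑ a ∈ T, e a * (z a : F) with hw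
    have hsw : e a0 * (y a0 : F) + ∑ a ∈ T, e a * (y a : F) = w * y a0 := by
      rw [hw, add_mul, Finset.sum_mul]
      congr 1
      refine Finset.sum_congr rfl fun a _ => ?_
      simp [hz, mul_assoc]
    rw [hsw] at hs ⊢
    have w0 : w ≠ 0 := left_ne_zero_of_mul hs
    set e' : A → F := fun a => e a0 * δ (e a) - e a * δ (e a0) +
      e a0 * e a * (δ (z a : F) / z a) with he'
    have hd : ∑ a ∈ T, e' a * (z a : F) = e a0 ^ 2 * δ (w / e a0) := by
      have h3 : e a0 ^ 2 * δ (w / e a0) = e a0 * δ w - w * δ (e a0) := by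
        rw [δ.leibniz_div]
        simp only [smul_eq_mul]
        field_simp
      rw [h3, hw, map_add, map_sum, mul_add, add_mul, Finset.mul_sum, Finset.sum_mul,
        add_sub_add_left_eq_sub, ← Finset.sum_sub_distrib]
      refine Finset.sum_congr rfl fun a _ => ?_
      have := (z a).ne_zero
      rw [δ.leibniz, he']
      simp only [smul_eq_mul]
      field_simp
      ring
    by_cases hu : δ (w / e a0) = 0
    · have h3 := norm_cst hk hu (div_ne_zero w0 e0)
      rw [norm_div, div_eq_one_iff_eq ne0.ne'] at h3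
      refine ⟨a0, ?_⟩
      rw [norm_mul, h3]
      exact mul_le_mul_of_nonneg_right
        ((min_le_right _ _).trans ((min_le_left _ _).trans b1)) ny0.le
    · obtain ⟨a, ha⟩ := k2 z e' (fun a => Γ.div_mem (hy a) (hy a0)) (fun a => by
        refine Submodule.add_mem _ (Submodule.mem_sup_left (Submodule.sub_mem _ ?_ ?_))
          (Submodule.mem_sup_right ?_)
        · exact Submodule.mul_mem_mul (he a0) ⟨e a, he a, rfl⟩
        · exact Submodule.mul_mem_mul (he a) ⟨e a0, he a0, rfl⟩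
        · exact Submodule.mul_mem_mul (Submodule.mul_mem_mul (he a0) (he a))
            (hlog _ (Γ.div_mem (hy a) (hy a0))))
        (by rw [hd]; exact mul_ne_zero (pow_ne_zero _ e0) hu)
      refine ⟨a, ?_⟩
      have h3 : ‖δ (w / e a0)‖ ≤ max C 1 * (‖w‖ / ‖e a0‖) := by
        rw [← norm_div]
        exact (hC _).trans (mul_le_mul_of_nonneg_right (le_max_left _ _) (norm_nonneg _))
      have h4 : ‖e a0 ^ 2 * δ (w / e a0)‖ ≤ max C 1 * C0 * ‖w‖ := by
        rw [norm_mul, norm_pow]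
        calc ‖e a0‖ ^ 2 * ‖δ (w / e a0)‖ ≤ ‖e a0‖ ^ 2 * (max C 1 * (‖w‖ / ‖e a0‖)) := by gcongr
          _ = max C 1 * ‖e a0‖ * ‖w‖ := by field_simp
          _ ≤ max C 1 * C0 * ‖w‖ := by gcongr
      have h5 : ‖(y a : F)‖ = ‖(z a : F)‖ * ‖(y a0 : F)‖ := by
        rw [← norm_mul]
        simp [hz]
      rw [hd] at ha
      rw [h5, norm_mul, ← mul_assoc]
      refine mul_le_mul_of_nonneg_right ?_ ny0.le
      calc _ ≤ ε2 / (max C 1 * C0) * ‖(z a : F)‖ :=
            mul_le_mul_of_nonneg_right ((min_le_right _ _).trans (min_le_right _ _))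
              (norm_nonneg _)
        _ ≤ ‖w‖ := by
            rw [div_mul_eq_mul_div, div_le_iff₀ (by positivity), mul_comm ‖w‖]
            exact ha.trans h4

end Gap

section Laur

/-- Laurent series, to be given the norm `2 ^ (-order)` -/
def LS (k : Type) [Field k] : Type := LaurentSeries k

variable {k : Type} [Field k]

noncomputable instance : Field (LS k) := inferInstanceAs (Field (LaurentSeries k))

open Classical in
/-- the norm -/
noncomputable def nm (x : LaurentSeries k) : ℝ := if x = 0 then 0 else (2 : ℝ) ^ (-x.order)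

lemma nm_zero : nm (0 : LaurentSeries k) = 0 := if_pos rfl

lemma nm_of_ne {x : LaurentSeries k} (h : x ≠ 0) : nm x = (2 : ℝ) ^ (-x.order) := if_neg h

lemma nm_nonneg (x : LaurentSeries k) : 0 ≤ nm x := by
  unfold nm
  split_ifs
  · exact le_rfl
  · positivity

lemma nm_lt_iff (x : LaurentSeries k) (i : ℤ) :
    nm x < (2 : ℝ) ^ (-i) ↔ ∀ j ≤ i, x.coeff j = 0 := by
  by_cases h : x = 0
  · subst h
    simp only [nm_zero, HahnSeries.coeff_zero, implies_true, iff_true]
    positivity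
  rw [nm_of_ne h, zpow_lt_zpow_iff_right₀ (by norm_num), neg_lt_neg_iff]
  refine ⟨fun hi j hj => HahnSeries.coeff_eq_zero_of_lt_order (hj.trans_lt hi), fun hi => ?_⟩
  by_contra hc
  exact h (HahnSeries.coeff_order_eq_zero.1 (hi _ (not_lt.1 hc)))

lemma nm_le_of {x y : LaurentSeries k} (h : x.support ⊆ y.support) : nm x ≤ nm y := by
  by_cases hx : x = 0
  · rw [hx, nm_zero]; exact nm_nonneg y
  have h1 : y.coeff x.order ≠ 0 := h fun e => hx (HahnSeries.coeff_order_eq_zero.1 e)
  rw [nm_of_ne hx, nm_of_ne (HahnSeries.ne_zero_of_coeff_ne_zero h1)]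
  exact zpow_le_zpow_right₀ (by norm_num) (neg_le_neg (HahnSeries.order_le_of_coeff_ne_zero h1))

lemma nm_add (x y : LaurentSeries k) : nm (x + y) ≤ max (nm x) (nm y) := by
  by_cases hx : x = 0
  · rw [hx, zero_add]; exact le_max_right _ _
  by_cases hy : y = 0
  · rw [hy, add_zero]; exact le_max_left _ _
  by_cases h : x + y = 0
  · rw [h, nm_zero]; exact (nm_nonneg x).trans (le_max_left _ _)
  have h1 := HahnSeries.min_order_le_order_add h
  rw [nm_of_ne hx, nm_of_ne hy, nm_of_ne h]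
  rcases min_le_iff.1 h1 with h2 | h2
  · exact le_max_of_le_left (zpow_le_zpow_right₀ (by norm_num) (neg_le_neg h2))
  · exact le_max_of_le_right (zpow_le_zpow_right₀ (by norm_num) (neg_le_neg h2))

lemma nm_mul (x y : LaurentSeries k) : nm (x * y) = nm x * nm y := by
  by_cases hx : x = 0
  · rw [hx, zero_mul, nm_zero, zero_mul]
  by_cases hy : y = 0
  · rw [hy, mul_zero, nm_zero, mul_zero]
  rw [nm_of_ne hx, nm_of_ne hy, nm_of_ne (mul_ne_zero hx hy), HahnSeries.order_mul hx hy, neg_add,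
    zpow_add₀ (by norm_num)]

/-- the norm as an absolute value -/
noncomputable def abv : AbsoluteValue (LS k) ℝ where
  toFun := nm
  map_mul' := nm_mul
  nonneg' := nm_nonneg
  eq_zero' := fun x => ⟨fun h => by
    by_contra hx
    have h1 : nm (k := k) x = _ := nm_of_ne hx
    rw [h1] at h
    exact (zpow_pos (by norm_num) _).ne' h, fun h => by subst h; exact nm_zero⟩
  add_le' := fun x y => (nm_add x y).trans
    (max_le (le_add_of_nonneg_right (nm_nonneg y)) (le_add_of_nonneg_left (nm_nonneg x)))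

noncomputable instance : NontriviallyNormedField (LS k) where
  toNormedField := abv.toNormedField
  non_trivial := ⟨HahnSeries.single (-1 : ℤ) (1 : k), by
    change 1 < nm _
    rw [nm_of_ne (HahnSeries.single_ne_zero one_ne_zero), HahnSeries.order_single one_ne_zero]
    norm_num⟩

lemma norm_eq (x : LS k) : ‖x‖ = nm (k := k) x := rfl

instance : IsUltrametricDist (LS k) :=
  IsUltrametricDist.isUltrametricDist_of_forall_norm_add_le_max_norm nm_add

/-- coefficients -/
def co (x : LS k) (j : ℤ) : k := HahnSeries.coeff (show LaurentSeries k from x) j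

lemma dist_lt_iff (x y : LS k) (i : ℤ) :
    dist x y < (2 : ℝ) ^ (-i) ↔ ∀ j ≤ i, co x j = co y j := by
  rw [dist_eq_norm, norm_eq]
  refine (nm_lt_iff _ i).trans (forall₂_congr fun j _ => ?_)
  rw [← sub_eq_zero (a := co x j)]
  exact Eq.congr_left HahnSeries.coeff_sub

instance : CompleteSpace (LS k) := by
  refine Metric.complete_of_cauchySeq_tendsto fun u hu => ?_
  have h1 : ∀ i : ℤ, ∃ N, ∀ m ≥ N, ∀ n ≥ N, ∀ j ≤ i, co (u m) j = co (u n) j := by
    intro i
    obtain ⟨N, hN⟩ := Metric.cauchySeq_iff.1 hu ((2 : ℝ) ^ (-i)) (by positivity)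
    exact ⟨N, fun m hm n hn => (dist_lt_iff _ _ i).1 (hN m hm n hn)⟩
  choose N hN using h1
  have h2 : ∀ i n, N i ≤ n → ∀ j ≤ i, co (u n) j = co (u (N j)) j := by
    intro i n hn j hj
    rw [hN i n hn (max n (N j)) (hn.trans (le_max_left _ _)) j hj]
    exact hN j _ (le_max_right _ _) _ le_rfl j le_rfl
  have h3 : BddBelow (Function.support fun j => co (u (N j)) j) := by
    refine ⟨min 0 (HahnSeries.order (show LaurentSeries k from u (N 0))), fun j hj => ?_⟩
    by_contra hc
    rw [not_le, lt_min_iff] at hc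
    apply hj
    change co (u (N j)) j = 0
    rw [← h2 0 (N 0) le_rfl j hc.1.le]
    exact HahnSeries.coeff_eq_zero_of_lt_order hc.2
  refine ⟨HahnSeries.ofSuppBddBelow _ h3, Metric.tendsto_atTop.2 fun ε hε => ?_⟩
  obtain ⟨i, hi⟩ := exists_pow_lt_of_lt_one hε (by norm_num : (2 : ℝ)⁻¹ < 1)
  refine ⟨N i, fun n hn => lt_trans ((dist_lt_iff _ _ i).2 fun j hj => h2 i n hn j hj) ?_⟩
  rwa [zpow_neg, zpow_natCast, ← inv_pow]

/-- the Euler operator -/
def eul (x : LaurentSeries k) : LaurentSeries k where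
  coeff n := (n : k) * x.coeff n
  isPWO_support' := x.isPWO_support.mono fun _ h => right_ne_zero_of_mul h

lemma eul_supp (x : LaurentSeries k) : (eul x).support ⊆ x.support :=
  fun _ h => right_ne_zero_of_mul h

lemma eul_add (x y : LaurentSeries k) : eul (x + y) = eul x + eul y := by
  ext n
  simp [eul, mul_add]

lemma eul_mul (x y : LaurentSeries k) : eul (x * y) = x * eul y + y * eul x := by
  ext n
  rw [mul_comm y, HahnSeries.coeff_add, HahnSeries.coeff_mul_right' y.isPWO_support (eul_supp y),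
    HahnSeries.coeff_mul_left' x.isPWO_support (eul_supp x), ← Finset.sum_add_distrib]
  change (n : k) * (x * y).coeff n = _
  rw [HahnSeries.coeff_mul, Finset.mul_sum]
  refine Finset.sum_congr rfl fun ij hij => ?_
  have h := (Finset.mem_antidiagonal.1 hij).2.2
  simp only [eul]
  rw [← h]
  push_cast
  ring

/-- the Euler operator as a derivation -/
noncomputable def der : Derivation ℤ (LS k) (LS k) :=
  Derivation.mk' (AddMonoidHom.toIntLinearMap (AddMonoidHom.mk' (eul (k := k)) eul_add)) eul_mul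

lemma nm_le_one [CharZero k] {x : LaurentSeries k} (h : eul x = 0) : nm x ≤ 1 := by
  by_cases hx : x = 0
  · rw [hx, nm_zero]; exact zero_le_one
  have h1 : ((x.order : ℤ) : k) * x.coeff x.order = 0 := congrArg (fun z => z.coeff x.order) h
  have h2 : x.order = 0 := by
    have := (mul_eq_zero.1 h1).resolve_right fun e => hx (HahnSeries.coeff_order_eq_zero.1 e)
    exact_mod_cast this
  rw [nm_of_ne hx, h2]
  norm_num

end Laur

end Gl

theorem gap : GapStmt := by
  intro F _ _ δ C hC hk Γ hΓ A _ c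
  obtain ⟨ε, h0, h⟩ := Gl.gap_aux hC hk hΓ (Finset.univ : Finset A)
    (Submodule.span _ (Set.range c)) (Submodule.fg_span (Set.finite_range c))
  exact ⟨ε, h0, fun y hy hs => h y c hy (fun a => Submodule.subset_span ⟨a, rfl⟩) hs⟩

theorem laur : LaurStmt := by
  intro k _ _
  refine ⟨Gl.LS k, inferInstance, inferInstance, inferInstance, RingHom.id _, Gl.der, 1,
    fun x => ?_, fun x hx => Gl.nm_le_one hx, fun x hx => Gl.nm_of_ne hx⟩
  rw [one_mul]
  exact Gl.nm_le_of (Gl.eul_supp x)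

end Pool.Agent.MP_be2dd8_ag.H53
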