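import Pool.Agent.MP_be2dd8_ag.H53.Spec
import Pool.Agent.MP_077ac3_nt.H68.Height
import Pool.Agent.MP_077ac3_nt.H18.Core

set_option autoImplicit false

/-! The height of the hyperplanes, and the finiteness of the set of hyperplanes. -/

namespace Pool.Agent.MP_be2dd8_ag.H53

open Finset Matrix NumberField Pool.Agent.MP_077ac3_nt

namespace Ht

variable {K S : Type} [Field K] [NumberField K] [Fintype S]

lemma vpos (Pl : Places K S) (s : S) {n : ℤ} (hn : n ≠ 0) : 0 < Pl.v s (n : K) :=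
  (Pl.v s).pos (Int.cast_ne_zero.2 hn)

lemma one_le_abs {n : ℤ} (hn : n ≠ 0) : (1 : ℝ) ≤ |(n : ℝ)| := by
  rw [← Int.cast_abs]
  exact_mod_cast Int.one_le_abs hn

lemma low (Pl : Places K S) (s : S) {n : ℤ} (hn : n ≠ 0) :
    -((∑ s', Pl.κ s') / Pl.κ s * Real.log |(n : ℝ)|) ≤ Real.log (Pl.v s (n : K)) := by
  classical
  have h0 := Pl.pf n hn
  have hl : 0 ≤ Real.log |(n : ℝ)| := Real.log_nonneg (one_le_abs hn)
  rw [← add_sum_erase _ _ (mem_univ s)] at h0
  have h1 : ∑ s' ∈ univ.erase s, Pl.κ s' * Real.log (Pl.v s' (n : K)) ≤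
      (∑ s', Pl.κ s') * Real.log |(n : ℝ)| := by
    rw [sum_mul]
    refine (sum_le_sum fun s' _ => mul_le_mul_of_nonneg_left
      (Real.log_le_log (vpos Pl s' hn) (Pl.le s' n)) (Pl.pos s').le).trans ?_
    exact sum_le_sum_of_subset_of_nonneg (erase_subset _ _) fun s' _ _ =>
      mul_nonneg (Pl.pos s').le hl
  rw [div_mul_eq_mul_div, neg_le, le_div_iff₀ (Pl.pos s)]
  linarith

lemma bd2 {α β : Type} [Fintype α] [Fintype β] (f : α → β → ℝ) :
    ∃ A : ℝ, 0 < A ∧ ∀ a b, f a b ≤ A := by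
  obtain ⟨A, hA⟩ := (Set.finite_range fun p : α × β => f p.1 p.2).bddAbove
  exact ⟨max A 1, lt_max_of_lt_right one_pos, fun a b => le_max_of_le_left (hA ⟨(a, b), rfl⟩)⟩

/-- Liouville's inequality at one place. -/
lemma liou {ι : Type} [Fintype ι] (Pl : Places K S) (s : S) (α : ι → K) :
    ∃ a r : ℝ, 0 ≤ a ∧ 0 ≤ r ∧ ∀ (w : ι → ℤ) (h : ℝ), 0 ≤ h →
      (∀ i, |(w i : ℝ)| ≤ Real.exp h) → ∑ i, (w i : K) * α i ≠ 0 →
      -(a + r * h) ≤ Real.log (Pl.v s (∑ i, (w i : K) * α i)) := by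
  classical
  obtain ⟨t, ht0, ht⟩ := exists_integral_multiples ℤ ℚ (univ.image α)
  obtain ⟨y, hy⟩ : ∃ y : ι → 𝓞 K, ∀ i, (y i : K) = t * α i :=
    ⟨fun i => ⟨t • α i, ht _ (mem_image_of_mem α (mem_univ i))⟩, fun i => zsmul_eq_mul _ _⟩
  obtain ⟨r, ⟨b⟩⟩ : ∃ r : ℕ, Nonempty (Module.Basis (Fin r) ℤ (𝓞 K)) :=
    ⟨_, ⟨Module.finBasis ℤ (𝓞 K)⟩⟩
  obtain ⟨j0⟩ : Nonempty (Fin r) := b.index_nonempty
  obtain ⟨C, C0, hC⟩ := bd2 fun j k => ∑ i, |(Algebra.leftMulMatrix b (y i) j k : ℝ)|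
  obtain ⟨B, hB⟩ : ∃ B : ℝ, B = ∑ j, Pl.v s (b j : K) := ⟨_, rfl⟩
  have B0 : 0 ≤ B := by rw [hB]; exact sum_nonneg fun j _ => (Pl.v s).nonneg _
  obtain ⟨ρ, hρ⟩ : ∃ ρ : ℝ, ρ = (∑ s', Pl.κ s') / Pl.κ s := ⟨_, rfl⟩
  have ρ0 : 0 ≤ ρ := by
    rw [hρ]
    exact div_nonneg (sum_nonneg fun s' _ => (Pl.pos s').le) (Pl.pos s).le
  have b0 : 0 < Pl.v s (b j0 : K) :=
    (Pl.v s).pos (RingOfIntegers.coe_ne_zero_iff.2 (b.ne_zero j0))
  refine ⟨|Real.log (Pl.v s (b j0 : K))| + |(t : ℝ)| + B + (ρ + 1) * (r.factorial + r * C),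
    (ρ + 1) * r, by positivity, by positivity, fun w h h0 hw hne => ?_⟩
  set x := ∑ i, (w i : K) * α i with hx
  set z : 𝓞 K := ∑ i, w i • y i with hz
  have hzx : (z : K) = t * x := by
    have : (z : K) = algebraMap (𝓞 K) K z := rfl
    rw [this, hz, hx, map_sum, mul_sum]
    refine sum_congr rfl fun i _ => ?_
    rw [map_zsmul, zsmul_eq_mul]
    change (w i : K) * (y i : K) = _
    rw [hy]
    ring
  have hz0 : z ≠ 0 := by
    intro e
    rw [e] at hzx
    exact mul_ne_zero (Int.cast_ne_zero.2 ht0) hne hzx.symm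
  set N := Algebra.leftMulMatrix b z with hN
  have hn0 : N.det ≠ 0 := by
    rw [hN, ← Algebra.norm_eq_matrix_det]
    exact Algebra.norm_ne_zero_iff.2 hz0
  have hNb : ∀ j k, |(N j k : ℝ)| ≤ Real.exp (C + h) := by
    intro j k
    have e1 : (N j k : ℝ) = ∑ i, (w i : ℝ) * (Algebra.leftMulMatrix b (y i) j k : ℝ) := by
      rw [hN, hz, map_sum, Matrix.sum_apply]
      push_cast
      exact sum_congr rfl fun i _ => by rw [map_zsmul, Matrix.smul_apply, smul_eq_mul, Int.cast_mul]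
    have e2 := hC j k
    rw [e1, Real.exp_add]
    refine (abs_sum_le_sum_abs _ _).trans ((sum_le_sum fun i _ => (abs_mul _ _).trans_le
      (mul_le_mul_of_nonneg_right (hw i) (abs_nonneg _))).trans ?_)
    rw [← mul_sum, mul_comm]
    exact mul_le_mul_of_nonneg_right (by linarith [Real.add_one_le_exp C]) (Real.exp_pos h).le
  obtain ⟨D, hD⟩ : ∃ D : ℝ, D = r.factorial + r * (C + h) := ⟨_, rfl⟩
  have hfac : (r.factorial : ℝ) * Real.exp (C + h) ^ r ≤ Real.exp D := by
    rw [hD, Real.exp_add (r.factorial : ℝ), Real.exp_nat_mul]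
    exact mul_le_mul_of_nonneg_right (by linarith [Real.add_one_le_exp (r.factorial : ℝ)])
      (by positivity)
  have hdet : |(N.det : ℝ)| ≤ Real.exp D := by
    have := Matrix.det_le (A := (Int.castRingHom ℝ).mapMatrix N) (abv := AbsoluteValue.abs)
      (x := Real.exp (C + h)) hNb
    rw [← RingHom.map_det, nsmul_eq_mul, Fintype.card_fin] at this
    exact le_trans this hfac
  have hadj : ∀ j, |(N.adjugate j j0 : ℝ)| ≤ Real.exp D := by
    intro j
    have h1 := H68.adj_le ((Int.castRingHom ℝ).mapMatrix N) j j0 (fun _ => Real.exp (C + h))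
      (fun _ => (Real.exp_pos _).le) fun i l _ => hNb i l
    rw [← RingHom.map_adjugate, prod_const, Fintype.card_fin] at h1
    refine le_trans h1 (le_trans (mul_le_mul_of_nonneg_left (pow_le_pow_right₀
      (Real.one_le_exp (by positivity)) ((card_le_univ _).trans_eq (Fintype.card_fin r)))
      (Nat.cast_nonneg _)) hfac)
  have eig : ∀ k, z * b k = ∑ j, N j k • b j := fun k => by
    conv_lhs => rw [← b.sum_repr (z * b k)]
    exact sum_congr rfl fun j _ => by rw [hN, Algebra.leftMulMatrix_eq_repr_mul]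
  have key : z * ∑ k, N.adjugate k j0 • b k = N.det • b j0 := by
    have e : ∀ j, ∑ k, N j k * N.adjugate k j0 = if j = j0 then N.det else 0 := fun j => by
      have := congrFun (congrFun (mul_adjugate N) j) j0
      rwa [Matrix.mul_apply, Matrix.smul_apply, Matrix.one_apply, smul_eq_mul, mul_ite, mul_one,
        mul_zero] at this
    calc z * ∑ k, N.adjugate k j0 • b k = ∑ k, ∑ j, (N j k * N.adjugate k j0) • b j := by
          rw [mul_sum]
          refine sum_congr rfl fun k _ => ?_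
          rw [mul_smul_comm, eig, smul_sum]
          exact sum_congr rfl fun j _ => by rw [smul_smul, mul_comm]
      _ = ∑ j, (∑ k, N j k * N.adjugate k j0) • b j := by
          rw [sum_comm]
          exact sum_congr rfl fun j _ => sum_smul.symm
      _ = _ := by simp [e]
  have keyK : (t : K) * x * ∑ k, (N.adjugate k j0 : K) * (b k : K) = (N.det : K) * (b j0 : K) := by
    have := congrArg (algebraMap (𝓞 K) K) key
    rw [← hzx]
    clear_value z
    simp only [map_mul, map_sum, zsmul_eq_mul, map_intCast] at this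
    exact this
  have h1 : Pl.v s (∑ k, (N.adjugate k j0 : K) * (b k : K)) ≤ Real.exp D * B := by
    rw [hB, mul_sum]
    refine ((Pl.v s).sum_le _ _).trans (sum_le_sum fun k _ => ?_)
    rw [map_mul]
    exact mul_le_mul_of_nonneg_right ((Pl.le s _).trans (hadj k)) ((Pl.v s).nonneg _)
  have x0 : 0 < Pl.v s x := (Pl.v s).pos hne
  have h2 : Pl.v s (N.det : K) * Pl.v s (b j0 : K) ≤ Pl.v s x * Real.exp (|(t : ℝ)| + D + B) := by
    rw [← map_mul, ← keyK, map_mul, map_mul, Real.exp_add, Real.exp_add]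
    have a1 : Pl.v s (t : K) ≤ Real.exp |(t : ℝ)| :=
      (Pl.le s t).trans (by linarith [Real.add_one_le_exp |(t : ℝ)|])
    have a2 : Real.exp D * B ≤ Real.exp D * Real.exp B :=
      mul_le_mul_of_nonneg_left (by linarith [Real.add_one_le_exp B]) (Real.exp_pos D).le
    calc _ ≤ Real.exp |(t : ℝ)| * Pl.v s x * (Real.exp D * Real.exp B) :=
          mul_le_mul (mul_le_mul_of_nonneg_right a1 x0.le) (h1.trans a2) ((Pl.v s).nonneg _)
            (by positivity)
      _ = _ := by ring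
  have h3 := Real.log_le_log (mul_pos (vpos Pl s hn0) b0) h2
  rw [Real.log_mul (vpos Pl s hn0).ne' b0.ne', Real.log_mul x0.ne' (Real.exp_pos _).ne',
    Real.log_exp] at h3
  have h4 := low Pl s hn0
  rw [← hρ] at h4
  have h5 : Real.log |(N.det : ℝ)| ≤ D :=
    (Real.log_le_iff_le_exp (one_pos.trans_le (one_le_abs hn0))).2 hdet
  have h6 := mul_le_mul_of_nonneg_left h5 ρ0
  have h7 := neg_abs_le (Real.log (Pl.v s (b j0 : K)))
  have h8 : (ρ + 1) * D = (ρ + 1) * (r.factorial + r * C) + (ρ + 1) * r * h := by rw [hD]; ring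
  linarith

omit [NumberField K] in
lemma adj_le {ι : Type} [Fintype ι] [DecidableEq ι] (v : AbsoluteValue K ℝ) (Y : Matrix ι ι K)
    (i0 j : ι) (b : ι → ℝ) (hb : ∀ i, 0 ≤ b i) (h : ∀ i l, l ≠ i0 → v (Y i l) ≤ b i) :
    v (Y.adjugate i0 j) ≤ (Fintype.card ι).factorial * ∏ i ∈ univ.erase j, b i := by
  rw [adjugate_apply, det_apply]
  refine (v.sum_le _ _).trans ?_
  have : ∀ σ : Equiv.Perm ι, v (Equiv.Perm.sign σ • ∏ l, (Y.updateRow j (Pi.single i0 1)) (σ l) l)
      ≤ ∏ i ∈ univ.erase j, b i := by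
    intro σ
    have e : v (Equiv.Perm.sign σ • ∏ l, (Y.updateRow j (Pi.single i0 1)) (σ l) l)
        = v (∏ l, (Y.updateRow j (Pi.single i0 1)) (σ l) l) := by
      rcases Int.units_eq_one_or (Equiv.Perm.sign σ) with h1 | h1 <;> simp [h1]
    rw [e]
    by_cases hσ : σ i0 = j
    · rw [← H68.prod_update_perm b j σ, map_prod]
      refine prod_le_prod (fun _ _ => v.nonneg _) fun l _ => ?_
      by_cases hl : l = i0
      · subst hl; rw [hσ]; simp
      · have : σ l ≠ j := fun h' => hl (σ.injective (h'.trans hσ.symm))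
        rw [updateRow_ne this, Function.update_of_ne this]
        exact h _ _ hl
    · rw [H68.term_zero Y i0 j σ hσ, map_zero]
      exact prod_nonneg fun i _ => hb i
  refine (sum_le_sum fun σ _ => this σ).trans ?_
  simp [Fintype.card_perm]

lemma log_le {x a y : ℝ} (hx : 0 < x) (h : x ≤ a * Real.exp y) : Real.log x ≤ a + y := by
  rw [Real.log_le_iff_le_exp hx, Real.exp_add]
  exact h.trans (mul_le_mul_of_nonneg_right (by linarith [Real.add_one_le_exp a])
    (Real.exp_pos y).le)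

end Ht

theorem heightG : HeightG := by
  classical
  intro K ι S _ _ _ _ _ Pl M c hdet hδ
  obtain ⟨δ, hδdef⟩ : ∃ δ : ℝ, δ = -∑ s, Pl.κ s * ∑ i, c s i := ⟨_, rfl⟩
  have hδ0 : 0 < δ := by linarith
  choose a r ha hr hK using fun s j => Ht.liou Pl s fun i => (M s).adjugate i j
  let u : S → (ι → ℤ) → ι → K := fun s w j => ∑ i, (w i : K) * (M s).adjugate i j
  have hu : ∀ (s : S) (w : ι → ℤ) (Y : Matrix ι ι K) (l : ι),
      ∑ j, u s w j * (M s * Y) j l = (M s).det * ∑ i, (w i : K) * Y i l := by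
    intro s w Y l
    have h1 : ((fun i => (w i : K)) ᵥ* (M s).adjugate) ᵥ* (M s * Y) =
        (M s).det • ((fun i => (w i : K)) ᵥ* Y) := by
      rw [vecMul_vecMul, ← Matrix.mul_assoc, adjugate_mul, Matrix.smul_mul, Matrix.one_mul,
        vecMul_smul]
    exact congrFun h1 l
  let pat : (ι → ℤ) → S → ι → Prop := fun w s j => u s w j = 0
  let rep : (S → ι → Prop) → ι → ℤ := fun p =>
    if h : ∃ w, w ≠ 0 ∧ pat w = p then h.choose else 0
  have hrep : ∀ w, w ≠ 0 → rep (pat w) ≠ 0 ∧ pat (rep (pat w)) = pat w := by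
    intro w hw
    have h : ∃ w', w' ≠ 0 ∧ pat w' = pat w := ⟨w, hw, rfl⟩
    simp only [rep, dif_pos h]
    exact h.choose_spec
  have : Fintype (S → ι → Prop) := Fintype.ofFinite _
  have hdp : ∀ s, 0 < Pl.v s (M s).det := fun s => (Pl.v s).pos (hdet s)
  obtain ⟨KW, KW0, hKW⟩ := Ht.bd2 fun p s => (∑ j, Pl.v s (u s (rep p) j)) / Pl.v s (M s).det
  obtain ⟨A, A0, hA⟩ := Ht.bd2 a
  obtain ⟨R, R0, hR⟩ := Ht.bd2 r
  obtain ⟨κ, hκ⟩ : ∃ κ : ℝ, κ = ∑ s, Pl.κ s := ⟨_, rfl⟩
  have κ0 : 0 ≤ κ := by rw [hκ]; exact sum_nonneg fun s _ => (Pl.pos s).le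
  obtain ⟨F, hF⟩ : ∃ F : ℝ, F = (Fintype.card ι).factorial := ⟨_, rfl⟩
  have F0 : 0 ≤ F := by rw [hF]; positivity
  refine ⟨δ / (4 * ((κ + 1) * R)), by positivity, (univ.image rep).erase 0, notMem_erase _ _,
    4 * (κ * (KW + A + F) + 1) / δ, fun q hq X i0 hX hXc => ?_⟩
  have hq1 : κ * (KW + A + F) + 1 ≤ δ * q / 4 := by
    rw [div_le_iff₀ hδ0] at hq; linarith
  have hq0 : 0 ≤ q := le_trans (by positivity) hq
  obtain ⟨w, hw, hgcd⟩ := Finset.extract_gcd (fun i => X.adjugate i0 i) ⟨i0, mem_univ i0⟩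
  set t := univ.gcd (fun i => X.adjugate i0 i) with ht
  have hsum : ∀ l, t * ∑ i, w i * X i l = if i0 = l then X.det else 0 := by
    intro l
    have h1 := congrFun (congrFun (adjugate_mul X) i0) l
    rw [Matrix.mul_apply, Matrix.smul_apply, Matrix.one_apply, smul_eq_mul, mul_ite, mul_one,
      mul_zero] at h1
    rw [← h1, mul_sum]
    exact sum_congr rfl fun i _ => by rw [hw i (mem_univ i)]; ring
  have ht0 : t ≠ 0 := by
    intro h
    have := hsum i0
    rw [h, zero_mul, if_pos rfl] at this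
    exact hX this.symm
  have hw0 : w ≠ 0 := by
    intro h
    have := hsum i0
    rw [h, if_pos rfl] at this
    simp at this
    exact hX this.symm
  have hwX : ∀ l, l ≠ i0 → ∑ i, w i * X i l = 0 := by
    intro l hl
    have := hsum l
    rw [if_neg (Ne.symm hl)] at this
    exact (mul_eq_zero.1 this).resolve_left ht0
  have hne1 : ∀ s, (univ.filter fun j => u s w j ≠ 0).Nonempty := by
    intro s
    by_contra hc
    rw [not_nonempty_iff_eq_empty, filter_eq_empty_iff] at hc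
    obtain ⟨i, hi⟩ := Function.ne_iff.1 hw0
    have h1 := hu s w 1 i
    rw [sum_eq_zero (fun j _ => by rw [not_not.1 (hc (mem_univ j)), zero_mul])] at h1
    simp [Matrix.one_apply, hdet] at h1
    exact hi h1
  choose js hjs hjmax using fun s => exists_max_image _ (c s) (hne1 s)
  have hjs' : ∀ s, u s w (js s) ≠ 0 := fun s => (mem_filter.1 (hjs s)).2
  set Xr : Matrix ι ι K := X.map (Int.castRingHom K) with hXr
  have hMX : ∀ s i l, l ≠ i0 → Pl.v s ((M s * Xr) i l) ≤ Real.exp (c s i * q) :=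
    fun s i l hl => hXc s i l hl
  obtain ⟨τ, hτdef⟩ : ∃ τ : ℝ, τ = ∑ s, Pl.κ s * c s (js s) := ⟨_, rfl⟩
  have p1 : 0 ≤ κ * KW := by positivity
  have p2 : 0 ≤ κ * A := by positivity
  have p3 : 0 ≤ κ * F := by positivity
  by_cases hτ : τ ≤ -δ / 2
  · left
    obtain ⟨h1, h2⟩ := hrep w hw0
    set w' := rep (pat w) with hw'
    have hp1 : ∀ s j, u s w' j = 0 ↔ u s w j = 0 := fun s j =>
      iff_of_eq (congrFun (congrFun h2 s) j)
    refine ⟨w', mem_erase.2 ⟨h1, mem_image_of_mem _ (mem_univ _)⟩, fun l hl => ?_⟩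
    by_contra hn
    have hup : ∀ s, Real.log (Pl.v s ((∑ i, w' i * X i l : ℤ) : K)) ≤ KW + c s (js s) * q := by
      intro s
      refine Ht.log_le (Ht.vpos Pl s hn) (le_of_mul_le_mul_left ?_ (hdp s))
      have e : ((∑ i, w' i * X i l : ℤ) : K) = ∑ i, (w' i : K) * Xr i l := by simp [hXr]
      have hb := hKW (pat w) s
      rw [div_le_iff₀ (hdp s)] at hb
      rw [← map_mul, e, ← hu s w' Xr l]
      calc _ ≤ ∑ j, Pl.v s (u s w' j) * Real.exp (c s (js s) * q) := by
            refine ((Pl.v s).sum_le _ _).trans (sum_le_sum fun j _ => ?_)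
            rw [map_mul]
            by_cases hj : u s w' j = 0
            · simp [hj]
            · refine mul_le_mul_of_nonneg_left ((hMX s j l hl).trans (Real.exp_le_exp.2 ?_))
                ((Pl.v s).nonneg _)
              exact mul_le_mul_of_nonneg_right
                (hjmax s j (mem_filter.2 ⟨mem_univ _, fun h => hj ((hp1 s j).2 h)⟩)) hq0
        _ ≤ KW * Pl.v s (M s).det * Real.exp (c s (js s) * q) := by
            rw [← sum_mul]
            exact mul_le_mul_of_nonneg_right hb (Real.exp_pos _).le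
        _ = _ := by ring
    have h3 := (Pl.pf _ hn).trans (sum_le_sum fun s _ =>
      mul_le_mul_of_nonneg_left (hup s) (Pl.pos s).le)
    have h4 : ∑ s, Pl.κ s * (KW + c s (js s) * q) = κ * KW + τ * q := by
      rw [hκ, hτdef, sum_mul, sum_mul, ← sum_add_distrib]
      exact sum_congr rfl fun s _ => by ring
    have h5 := mul_le_mul_of_nonneg_right hτ hq0
    have h6 : 0 ≤ δ * q := by positivity
    rw [h4] at h3
    linarith
  · right
    push Not at hτ
    obtain ⟨i1, -, hi1⟩ := exists_max_image univ (fun i => |(w i : ℝ)|) ⟨i0, mem_univ _⟩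
    refine ⟨w, hwX, hgcd, i1, ?_⟩
    have hH1 : 1 ≤ |(w i1 : ℝ)| := by
      obtain ⟨i, hi⟩ := Function.ne_iff.1 hw0
      exact (Ht.one_le_abs hi).trans (hi1 i (mem_univ i))
    obtain ⟨h, hh⟩ : ∃ h : ℝ, h = Real.log |(w i1 : ℝ)| := ⟨_, rfl⟩
    have h0 : 0 ≤ h := by rw [hh]; exact Real.log_nonneg hH1
    have he : Real.exp h = |(w i1 : ℝ)| := by rw [hh, Real.exp_log (by linarith)]
    have hup : ∀ s, Real.log (Pl.v s (t : K)) ≤
        A + R * h + F + (∑ i, c s i - c s (js s)) * q := by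
      intro s
      have hL := hK s (js s) w h h0 (fun i => he ▸ hi1 i (mem_univ i)) (hjs' s)
      have hadj : (M s * Xr).adjugate i0 (js s) = t * u s w (js s) := by
        rw [adjugate_mul_distrib, Matrix.mul_apply, mul_sum]
        refine sum_congr rfl fun i _ => ?_
        have : Xr.adjugate i0 i = (X.adjugate i0 i : K) :=
          (congrFun (congrFun ((Int.castRingHom K).map_adjugate X) i0) i).symm
        rw [this, hw i (mem_univ i)]
        push_cast; ring
      have h1 := Ht.adj_le (Pl.v s) _ i0 (js s) _ (fun i => (Real.exp_pos _).le) (hMX s)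
      rw [← Real.exp_sum, ← sum_mul, sum_erase_eq_sub (mem_univ (js s)), ← hF, hadj,
        map_mul] at h1
      have h2 := Ht.log_le (mul_pos (Ht.vpos Pl s ht0) ((Pl.v s).pos (hjs' s))) h1
      rw [Real.log_mul (Ht.vpos Pl s ht0).ne' ((Pl.v s).pos (hjs' s)).ne'] at h2
      have h3 := mul_le_mul_of_nonneg_right (hR s (js s)) h0
      have h4 := hA s (js s)
      have h5 : -(a s (js s) + r s (js s) * h) ≤ Real.log (Pl.v s (u s w (js s))) := hL
      linarith
    have h3 := (Pl.pf _ ht0).trans (sum_le_sum fun s _ =>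
      mul_le_mul_of_nonneg_left (hup s) (Pl.pos s).le)
    have h4 : ∑ s, Pl.κ s * (A + R * h + F + (∑ i, c s i - c s (js s)) * q) =
        κ * (A + R * h + F) + (-δ - τ) * q := by
      rw [hκ, hτdef, hδdef, neg_neg, ← sum_sub_distrib, sum_mul, sum_mul, ← sum_add_distrib]
      exact sum_congr rfl fun s _ => by ring
    have h5 := mul_le_mul_of_nonneg_right hτ.le hq0
    have h6 : 0 ≤ R * h := by positivity
    rw [h4] at h3
    rw [← he, Real.exp_le_exp, div_mul_eq_mul_div, div_le_iff₀ (by positivity)]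
    linarith

theorem coreG : H18.GRothStmt → AuxG → VanG → HeightG → CoreG := by
  intro hG hA hV hH K ι S _ _ _ _ _ Pl M c hdet hlt
  have : Nonempty ι := by
    by_contra hne
    rw [not_nonempty_iff] at hne
    simp at hlt
  obtain ⟨η, hη, W, hW, qH, hH⟩ := hH K ι S Pl M c hdet hlt
  refine ⟨W, hW, ?_⟩
  by_contra hcon
  obtain ⟨ε, hε, hV⟩ := hV K ι S Pl M c hdet hlt
  obtain ⟨m, hm, C, hK, hA⟩ := hA K ι S (fun s => (M s)⁻¹) ε hε
  have hm' : (0 : ℝ) < m := by exact_mod_cast hm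
  obtain ⟨σ, hσ, B, hG⟩ := hG ι ι m (m * ε) (by positivity)
  obtain ⟨qV, hV⟩ := hV m C (Fintype.card ι * B + 1) hm hK (by
    have : (0 : ℝ) ≤ Fintype.card ι * B := by positivity
    linarith)
  have hbad : ∀ q0, ∃ q, q0 ≤ q ∧ ∃ (X : Matrix ι ι ℤ) (i0 : ι) (w : ι → ℤ), X.det ≠ 0 ∧
      (∀ s i l, l ≠ i0 → Pl.v s (∑ j, M s i j * (X j l : K)) ≤ Real.exp (c s i * q)) ∧
      (∀ l, l ≠ i0 → ∑ i, w i * X i l = 0) ∧
      Finset.univ.gcd w = 1 ∧ ∃ i, Real.exp (η * q) ≤ |(w i : ℝ)| := by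
    intro q0
    by_contra h1
    refine hcon ⟨max q0 qH, fun q hq X i0 hX h2 => ?_⟩
    rcases hH q ((le_max_right _ _).trans hq) X i0 hX h2 with h4 | ⟨w, h4, h5, h6⟩
    · exact h4
    · exact absurd ⟨q, (le_max_left _ _).trans hq, X, i0, w, hX, h2, h4, h5, h6⟩ h1
  have hlogK : 0 ≤ Real.log C := Real.log_nonneg hK
  set T : ℝ := 2 * (Real.log C + 1) * m / (σ * η) with hT
  have hT0 : 0 < T := by positivity
  obtain ⟨Q, hQ, hQr⟩ := H18.exists_seq _ hbad (max T qV) (2 / σ)
    (hT0.le.trans (le_max_left _ _)) (by positivity)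
  set q : Fin m → ℝ := fun h => Q (Fin.rev h) with hq
  have hqT : ∀ h, T ≤ q h := fun h => (le_max_left _ _).trans (hQ _).1
  have hq0 : ∀ h, 0 < q h := fun h => hT0.trans_le (hqT h)
  choose X i0 w hX hX1 hw hwg hwi using fun h : Fin m => (hQ (Fin.rev h)).2
  obtain ⟨D0, hV⟩ := hV q fun h => (le_max_right _ _).trans (hQ _).1
  set D : ℝ := max D0 (∑ h, q h) with hD
  have hqD : ∀ h, q h ≤ D := fun h =>
    (Finset.single_le_sum (fun h _ => (hq0 h).le) (Finset.mem_univ h)).trans (le_max_right _ _)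
  have hTD : T ≤ D := (hqT ⟨0, hm⟩).trans (hqD _)
  have hD0 : 0 < D := hT0.trans_le hTD
  set d : Fin m → ℕ := fun h => ⌈D / q h⌉₊ with hd
  have hd1 : ∀ h, D / q h ≤ d h := fun h => Nat.le_ceil _
  have hd2 : ∀ h, (d h : ℝ) ≤ D / q h + 1 := fun h =>
    (Nat.ceil_lt_add_one (div_nonneg hD0.le (hq0 h).le)).le
  have hd0 : ∀ h, 0 < d h := fun h => Nat.ceil_pos.2 (div_pos hD0 (hq0 h))
  have hd3 : ∀ h, D ≤ d h * q h := fun h => (div_le_iff₀ (hq0 h)).1 (hd1 h)
  obtain ⟨P, hP0, hP, hPl, hPb⟩ := hA d hd0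
  obtain ⟨z, hz, J, hJ, hc⟩ := hG d P (fun h l i => if l = i0 h then 0 else X h i l) w hd0
    (fun h h' hh => by
      have h1 : 2 / σ * q h' ≤ q h := hQr _ _ (Fin.rev_lt_rev.2 hh)
      have h2 : 1 ≤ D / q h := (one_le_div (hq0 h)).2 (hqD h)
      have h3 : 2 * (D / q h) ≤ σ * (D / q h') := by
        have h4 := hq0 h
        have h5 := hq0 h'
        rw [div_mul_eq_mul_div, div_le_iff₀ hσ] at h1
        rw [← mul_div_assoc, ← mul_div_assoc, div_le_div_iff₀ h4 h5]
        nlinarith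
      have h6 := mul_le_mul_of_nonneg_left (hd1 h') hσ.le
      linarith [hd2 h])
    hP0 hP hwg (fun h u hu => H18.span_cols (X h) (i0 h) (hX h) (w h) (hw h) (hwg h) u hu)
    (fun h => by
      obtain ⟨i, hi⟩ := hwi h
      refine ⟨i, ?_⟩
      have h1 : η * q h ≤ Real.log |(w h i : ℝ)| := by
        have := Real.log_le_log (Real.exp_pos _) hi
        rwa [Real.log_exp] at this
      have h2 : Real.log (H18.l1 P) ≤ (∑ h', (d h' : ℝ)) * Real.log C := by
        have := Real.log_le_log (lt_of_lt_of_le one_pos (H18.one_le_l1 hP0)) hPl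
        rw [Real.log_pow] at this
        simpa using this
      have h3 : ∑ h', (d h' : ℝ) ≤ m * (2 * (D / T)) * 1 := by
        have : ∀ h', (d h' : ℝ) ≤ 2 * (D / T) := fun h' => by
          have a1 : D / q h' ≤ D / T := div_le_div_of_nonneg_left hD0.le hT0 (hqT h')
          have a2 : 1 ≤ D / T := (one_le_div hT0).2 hTD
          linarith [hd2 h']
        simpa using Finset.sum_le_sum fun h' (_ : h' ∈ Finset.univ) => this h'
      have h4 : m * (2 * (D / T)) * (Real.log C + 1) = σ * η * D := by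
        rw [hT]; field_simp
      have h5 : σ * η * D ≤ σ * d h * (η * q h) := by
        have := mul_le_mul_of_nonneg_left (hd3 h) (mul_pos hσ hη).le
        linarith
      have h6 : σ * d h * (η * q h) ≤ σ * d h * Real.log |(w h i : ℝ)| :=
        mul_le_mul_of_nonneg_left h1 (by positivity)
      have h7 := mul_le_mul_of_nonneg_right h3 (add_nonneg hlogK zero_le_one)
      linarith)
  refine hc (hV D (le_max_left _ _) d (fun h => ⟨hd3 h, ?_⟩) P hP hPl hPb _ ?_ J hJ)
  · have := mul_le_mul_of_nonneg_right (hd2 h) (hq0 h).le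
    rwa [add_mul, div_mul_cancel₀ _ (hq0 h).ne', one_mul] at this
  · intro s h i
    have e1 : ∑ j, M s i j * ((∑ l, (z h l : ℤ) * (if l = i0 h then 0 else X h j l) : ℤ) : K) =
        ∑ l, ((z h l : ℤ) : K) * (if l = i0 h then 0 else ∑ j, M s i j * (X h j l : K)) := by
      push_cast
      simp only [Finset.mul_sum]
      rw [Finset.sum_comm]
      refine Finset.sum_congr rfl fun l _ => ?_
      split_ifs
      · simp
      · rw [Finset.mul_sum]; exact Finset.sum_congr rfl fun j _ => by ring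
    rw [e1]
    refine ((Pl.v s).sum_le _ _).trans ?_
    have h1 : ∀ l, Pl.v s (((z h l : ℤ) : K) *
        (if l = i0 h then 0 else ∑ j, M s i j * (X h j l : K))) ≤ B * Real.exp (c s i * q h) := by
      intro l
      rw [map_mul]
      refine mul_le_mul ((Pl.le s _).trans ?_) ?_ ((Pl.v s).nonneg _) (Nat.cast_nonneg _)
      · rw [Int.cast_natCast, Nat.abs_cast]
        exact_mod_cast hz h l
      · split_ifs with hl
        · simpa using (Real.exp_pos _).le
        · exact hX1 h s i l hl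
    refine (Finset.sum_le_sum fun l _ => h1 l).trans ?_
    simp only [Finset.sum_const, Finset.card_univ, nsmul_eq_mul]
    nlinarith [Real.exp_pos (c s i * q h)]

end Pool.Agent.MP_be2dd8_ag.H53
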