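import Pool.Agent.MP_be2dd8_ag.H53.Spec

set_option autoImplicit false

/-!
Specialisation: the unit equation theorem over Galois number fields implies it over every field
of characteristic zero.
-/

namespace Pool.Agent.MP_be2dd8_ag.H53

open Filter

namespace Sp

/-- a submodule of the same rank as a larger one has torsion quotient -/
lemma mul_mem_of_finrank_le {M : Type} [AddCommGroup M] [Module.Finite ℤ M]
    (P Q : Submodule ℤ M) (hPQ : P ≤ Q) (h : Module.finrank ℤ Q ≤ Module.finrank ℤ P)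
    (v : M) (hv : v ∈ Q) : ∃ n : ℤ, n ≠ 0 ∧ n • v ∈ P := by
  have h1 := Submodule.finrank_quotient_add_finrank (R := ℤ) (P.comap Q.subtype)
  have h2 : Module.finrank ℤ (P.comap Q.subtype) = Module.finrank ℤ P :=
    (Submodule.comapSubtypeEquivOfLe hPQ).finrank_eq
  have h3 : Module.finrank ℤ (Q ⧸ P.comap Q.subtype) = 0 := by omega
  obtain ⟨n, hn, h4⟩ := Module.finrank_eq_zero_iff.1 h3 (Submodule.Quotient.mk ⟨v, hv⟩)
  refine ⟨n, hn, ?_⟩
  rw [← Submodule.Quotient.mk_smul, Submodule.Quotient.mk_eq_zero] at h4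
  exact h4

/-- A function into a finitely generated group which is not constant along an ultrafilter has a
witness of infinite order. -/
lemma witness_add {M X : Type} [AddCommGroup M] [Module.Finite ℤ M] (U : Ultrafilter X)
    (z : X → M) (hz : ∀ t, ¬ ∀ᶠ x in (U : Filter X), z x = t) :
    ∃ lam : M, (∀ n : ℤ, n ≠ 0 → n • lam ≠ 0) ∧
      ∀ N : Submodule ℤ M, ∀ B ∈ U, (∀ x ∈ B, ∀ x' ∈ B, z x - z x' ∈ N) →
        ∃ n : ℤ, n ≠ 0 ∧ n • lam ∈ N := by
  classical
  let L : Set X → Submodule ℤ M := fun B =>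
    Submodule.span ℤ {v | ∃ x ∈ B, ∃ x' ∈ B, v = z x - z x'}
  have hex : ∃ k, ∃ B ∈ U, Module.finrank ℤ (L B) = k := ⟨_, Set.univ, univ_mem, rfl⟩
  obtain ⟨B0, hB0, hk⟩ := Nat.find_spec hex
  have hmin : ∀ B ∈ U, Module.finrank ℤ (L B0) ≤ Module.finrank ℤ (L B) := fun B hB => by
    rw [hk]; exact Nat.find_min' hex ⟨B, hB, rfl⟩
  by_cases htor : ∀ x ∈ B0, ∀ x' ∈ B0, z x - z x' ∈ Submodule.torsion ℤ M
  · exfalso
    have hfin : Finite (Submodule.torsion ℤ M) :=
      Module.finite_of_fg_torsion _ (Submodule.torsion_isTorsion)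
    obtain ⟨x0, hx0⟩ := U.nonempty_of_mem hB0
    have hT : (Submodule.torsion ℤ M : Set M).Finite := Set.toFinite _
    have h1 : ∀ᶠ x in (U : Filter X), ∃ a ∈ (Submodule.torsion ℤ M : Set M), z x = a + z x0 := by
      filter_upwards [hB0] with x hx
      exact ⟨z x - z x0, htor x hx x0 hx0, by abel⟩
    obtain ⟨a, -, ha⟩ := (Ultrafilter.eventually_exists_mem_iff hT).1 h1
    exact hz _ ha
  · push Not at htor
    obtain ⟨x1, hx1, x2, hx2, hn⟩ := htor
    refine ⟨z x1 - z x2, fun n hn0 h => hn ⟨⟨n, mem_nonZeroDivisors_of_ne_zero hn0⟩, h⟩, ?_⟩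
    intro N B hB hN
    have hle : L (B ∩ B0) ≤ L B0 := Submodule.span_mono (by
      rintro v ⟨x, hx, x', hx', rfl⟩
      exact ⟨x, hx.2, x', hx'.2, rfl⟩)
    have hN' : L (B ∩ B0) ≤ N := Submodule.span_le.2 (by
      rintro v ⟨x, hx, x', hx', rfl⟩
      exact hN x hx.1 x' hx'.1)
    obtain ⟨n, hn0, h⟩ := mul_mem_of_finrank_le _ _ hle (hmin _ (inter_mem hB hB0)) (z x1 - z x2)
      (Submodule.subset_span ⟨x1, hx1, x2, hx2, rfl⟩)
    exact ⟨n, hn0, hN' h⟩

/-- multiplicative form -/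
lemma witness {G X : Type} [CommGroup G] [Group.FG G] (U : Ultrafilter X)
    (z : X → G) (hz : ∀ t, ¬ ∀ᶠ x in (U : Filter X), z x = t) :
    ∃ lam : G, (∀ n : ℕ, n ≠ 0 → lam ^ n ≠ 1) ∧
      ∀ (H : Type) [CommGroup H] (φ : G →* H) (t : H), (∀ᶠ x in (U : Filter X), φ (z x) = t) →
        ∃ n : ℕ, n ≠ 0 ∧ φ lam ^ n = 1 := by
  have : Module.Finite ℤ (Additive G) := Module.Finite.iff_addGroup_fg.2 inferInstance
  obtain ⟨lam, h1, h2⟩ := witness_add U (fun x => Additive.ofMul (z x))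
    (fun t h => hz t.toMul (h.mono fun x hx => by rw [← hx]; rfl))
  refine ⟨lam.toMul, fun n hn h => h1 n (by exact_mod_cast hn) ?_, ?_⟩
  · rw [natCast_zsmul]
    exact congrArg Additive.ofMul h
  · intro H _ φ t ht
    obtain ⟨n, hn, h⟩ := h2 (LinearMap.ker (MonoidHom.toAdditive φ).toIntLinearMap) _ ht (by
      intro x hx x' hx'
      rw [LinearMap.mem_ker, map_sub, sub_eq_zero]
      exact congrArg Additive.ofMul ((show φ (z x) = t from hx).trans
        (show φ (z x') = t from hx').symm))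
    refine ⟨n.natAbs, Int.natAbs_ne_zero.2 hn, ?_⟩
    rw [LinearMap.mem_ker, map_smul] at h
    have h' : φ lam.toMul ^ n = 1 := congrArg Additive.toMul h
    rcases Int.natAbs_eq n with e | e
    · rw [← zpow_natCast, ← e, h']
    · rw [← zpow_natCast, ← neg_neg (n.natAbs : ℤ), ← e, zpow_neg, h', inv_one]

lemma dvd_of_totient_le {n D : ℕ} (hn : 0 < n) (h : n.totient ≤ D) :
    n ∣ (2 * D + 1).factorial := by
  rw [Nat.dvd_iff_prime_pow_dvd_dvd]
  intro p k hp hk
  rcases k with _ | k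
  · simp
  have h1 : (p ^ (k + 1)).totient ≤ D :=
    (Nat.le_of_dvd (Nat.totient_pos.2 hn) (Nat.totient_dvd_of_dvd hk)).trans h
  rw [Nat.totient_prime_pow_succ hp] at h1
  refine Nat.dvd_factorial (pow_pos hp.pos _) ?_
  have h2 : p ≤ 2 * (p - 1) := by have := hp.two_le; omega
  calc p ^ (k + 1) = p ^ k * p := pow_succ _ _
    _ ≤ p ^ k * (2 * (p - 1)) := Nat.mul_le_mul_left _ h2
    _ = 2 * (p ^ k * (p - 1)) := by ring
    _ ≤ 2 * D + 1 := by omega

/-- roots of unity in a number field of bounded degree have bounded order -/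
lemma root_bound {K : Type} [Field K] [NumberField K] {D : ℕ} (hD : Module.finrank ℚ K ≤ D)
    (u : K) (n : ℕ) (hn : n ≠ 0) (hu : u ^ n = 1) : u ^ (2 * D + 1).factorial = 1 := by
  have hfin : IsOfFinOrder u := isOfFinOrder_iff_pow_eq_one.2 ⟨n, Nat.pos_of_ne_zero hn, hu⟩
  have hpos : 0 < orderOf u := hfin.orderOf_pos
  have hmin := Polynomial.cyclotomic_eq_minpoly_rat (IsPrimitiveRoot.orderOf u) hpos
  have hdeg : (orderOf u).totient ≤ D := by
    rw [← Polynomial.natDegree_cyclotomic (orderOf u) ℚ, hmin]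
    exact (minpoly.natDegree_le u).trans hD
  exact orderOf_dvd_iff_pow_eq_one.1 (dvd_of_totient_le hpos hdeg)

/-- every number field embeds in a Galois number field containing a square root of minus one -/
lemma exists_galois (K0 : Type) [Field K0] [NumberField K0] :
    ∃ (K : Type) (_ : Field K) (_ : NumberField K) (_ : IsGalois ℚ K),
      (∃ i : K, i ^ 2 = -1) ∧ Nonempty (K0 →+* K) := by
  let Ω := AlgebraicClosure K0
  obtain ⟨i, hi⟩ := IsAlgClosed.exists_pow_nat_eq (-1 : Ω) (n := 2) (by norm_num)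
  let K1 := IntermediateField.adjoin K0 ({i} : Set Ω)
  have : FiniteDimensional K0 K1 :=
    IntermediateField.adjoin.finiteDimensional (Algebra.IsIntegral.isIntegral i)
  have : FiniteDimensional ℚ K1 := Module.Finite.trans K0 K1
  have : Algebra.IsAlgebraic ℚ Ω := Algebra.IsAlgebraic.trans ℚ K0 Ω
  have : IsAlgClosure ℚ Ω := ⟨inferInstance, inferInstance⟩
  let K := IntermediateField.normalClosure ℚ K1 Ω
  have : NumberField K := ⟨⟩
  have : Normal ℚ K := normalClosure.normal ℚ K1 Ω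
  have : IsGalois ℚ K := ⟨⟩
  refine ⟨K, inferInstance, inferInstance, this,
    ⟨algebraMap K1 K ⟨i, IntermediateField.mem_adjoin_simple_self K0 i⟩, ?_⟩,
    ⟨(algebraMap K1 K).comp (algebraMap K0 K1)⟩⟩
  rw [← map_pow, ← map_one (algebraMap K1 K), ← map_neg]
  congr 1
  exact Subtype.ext hi

/-- specialisation to a number field keeping finitely many elements of infinite order -/
lemma spec0 (R : Type) [CommRing R] [IsDomain R] [Algebra ℚ R] [Algebra.FiniteType ℚ R]
    {ι : Type} [Fintype ι] (lam : ι → R) (hl : ∀ i (n : ℕ), n ≠ 0 → lam i ^ n ≠ 1) :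
    ∃ (K : Type) (_ : Field K) (_ : NumberField K) (σ : R →+* K),
      ∀ i (n : ℕ), n ≠ 0 → σ (lam i) ^ n ≠ 1 := by
  classical
  obtain ⟨s, g, hinj, hfin⟩ := exists_finite_inj_algHom_of_fg ℚ R
  let A := MvPolynomial (Fin s) ℚ
  let _ : Algebra A R := g.toRingHom.toAlgebra
  have hF : Module.Finite A R := hfin
  obtain ⟨S, hS⟩ := hF.fg_top
  set D := S.card with hD
  set h : R := ∏ i, (lam i ^ (2 * D + 1).factorial - 1) with hh
  have h0 : h ≠ 0 := Finset.prod_ne_zero_iff.2 fun i _ =>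
    sub_ne_zero.2 (hl i _ (Nat.factorial_ne_zero _))
  have halg : IsAlgebraic A h := (Algebra.IsIntegral.isIntegral (R := A) h).isAlgebraic
  obtain ⟨r, hr, hdvd⟩ := halg.exists_nonzero_dvd (mem_nonZeroDivisors_of_ne_zero h0)
  obtain ⟨z0, hz0⟩ : ∃ z0 : Fin s → ℚ, MvPolynomial.eval z0 r ≠ 0 := by
    by_contra hc
    push Not at hc
    exact hr (MvPolynomial.funext fun x => by rw [hc x, map_zero])
  let P : Ideal A := RingHom.ker (MvPolynomial.eval z0)
  have hP : P.IsMaximal := RingHom.ker_isMaximal_of_surjective _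
    (fun q => ⟨MvPolynomial.C q, MvPolynomial.eval_C q⟩)
  have hker : RingHom.ker (algebraMap A R) ≤ P := by
    rw [(RingHom.injective_iff_ker_eq_bot _).1 (show Function.Injective (algebraMap A R) from hinj)]
    exact bot_le
  obtain ⟨Q, hQ, hQP⟩ := Ideal.exists_ideal_over_maximal_of_isIntegral (S := R) P hker
  obtain ⟨K, _, _, π, hsurj, hπ⟩ : ∃ (K : Type) (_ : Field K) (_ : CharZero K) (π : R →+* K),
      Function.Surjective π ∧ ∀ x, π x = 0 ↔ x ∈ Q := by
    let _ : Field (R ⧸ Q) := Ideal.Quotient.field Q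
    exact ⟨R ⧸ Q, inferInstance, algebraRat.charZero _, Ideal.Quotient.mk Q,
      Ideal.Quotient.mk_surjective, fun x => Ideal.Quotient.eq_zero_iff_mem⟩
  have hspan : Submodule.span ℚ ((S.image π : Finset K) : Set K) = ⊤ := by
    rw [eq_top_iff]
    rintro x -
    obtain ⟨x, rfl⟩ := hsurj x
    have hx : x ∈ Submodule.span A (S : Set R) := hS ▸ Submodule.mem_top
    induction hx using Submodule.span_induction with
    | mem y hy => exact Submodule.subset_span (by simpa using ⟨y, hy, rfl⟩)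
    | zero => simp
    | add y y' _ _ h1 h2 => rw [map_add]; exact Submodule.add_mem _ h1 h2
    | smul a y _ h1 =>
      have e : π (a • y) = MvPolynomial.eval z0 a • π y := by
        have hm : a - MvPolynomial.C (MvPolynomial.eval z0 a) ∈ P := by
          rw [RingHom.mem_ker, map_sub, sub_eq_zero]
          exact (MvPolynomial.eval_C _).symm
        rw [← hQP, Ideal.mem_comap, map_sub, ← hπ, map_sub, sub_eq_zero] at hm
        rw [Algebra.smul_def, map_mul, hm, Rat.smul_def]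
        congr 1
        exact eq_ratCast (π.comp ((algebraMap A R).comp MvPolynomial.C)) _
      rw [e]
      exact Submodule.smul_mem _ _ h1
  have hfd : FiniteDimensional ℚ K := ⟨⟨_, hspan⟩⟩
  have hrank : Module.finrank ℚ K ≤ D := by
    rw [← finrank_top, ← hspan]
    exact (finrank_span_finset_le_card _).trans Finset.card_image_le
  have hnf : NumberField K := ⟨⟩
  refine ⟨K, inferInstance, hnf, π, fun i n hn hu => hz0 ?_⟩
  have h1 := root_bound hrank _ n hn hu
  have h2 : h ∈ Q := by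
    rw [← hπ, hh, map_prod]
    exact Finset.prod_eq_zero (Finset.mem_univ i) (by rw [map_sub, map_pow, h1, map_one, sub_self])
  have h3 : r ∈ P := by
    rw [← hQP, Ideal.mem_comap]
    exact Q.mem_of_dvd hdvd h2
  exact h3

lemma spec (R : Type) [CommRing R] [IsDomain R] [Algebra ℚ R] [Algebra.FiniteType ℚ R]
    {ι : Type} [Fintype ι] (lam : ι → R) (hl : ∀ i (n : ℕ), n ≠ 0 → lam i ^ n ≠ 1) :
    ∃ (K : Type) (_ : Field K) (_ : NumberField K) (_ : IsGalois ℚ K) (σ : R →+* K),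
      (∃ i : K, i ^ 2 = -1) ∧ ∀ i (n : ℕ), n ≠ 0 → σ (lam i) ^ n ≠ 1 := by
  obtain ⟨K0, _, _, σ, hσ⟩ := spec0 R lam hl
  obtain ⟨K, _, _, _, hi, ⟨τ⟩⟩ := exists_galois K0
  refine ⟨K, inferInstance, inferInstance, inferInstance, τ.comp σ, hi, fun i n hn h => ?_⟩
  refine hσ i n hn (τ.injective ?_)
  rw [map_pow, map_one]
  exact h

end Sp

open Sp in
theorem unitAll : UnitGal → UnitAll := by
  classical
  intro hG F _ _ Γ hΓ X A _ U y hy hne c hc a0
  by_contra ha0
  have hfg : Group.FG Γ := (Group.fg_iff_subgroup_fg Γ).2 hΓ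
  obtain ⟨S, hS⟩ := hΓ
  -- the ring
  let T : Set F := ((fun u : Fˣ => (u : F)) '' S ∪ (fun u : Fˣ => ((u⁻¹ : Fˣ) : F)) '' S) ∪
    (Set.range c ∪ {(c a0)⁻¹})
  have hT : T.Finite := ((S.finite_toSet.image _).union (S.finite_toSet.image _)).union
    ((Set.finite_range c).union (Set.finite_singleton _))
  let R := Algebra.adjoin ℚ T
  have : Algebra.FiniteType ℚ R := Algebra.FiniteType.adjoin_of_finite hT
  have hmem : ∀ γ ∈ Γ, (γ : F) ∈ R ∧ ((γ⁻¹ : Fˣ) : F) ∈ R := by
    intro γ hγ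
    rw [← hS] at hγ
    induction hγ using Subgroup.closure_induction with
    | mem u hu =>
      exact ⟨Algebra.subset_adjoin (Or.inl (Or.inl ⟨u, hu, rfl⟩)),
        Algebra.subset_adjoin (Or.inl (Or.inr ⟨u, hu, rfl⟩))⟩
    | one => simp
    | mul u v _ _ h1 h2 =>
      rw [mul_inv, Units.val_mul, Units.val_mul]
      exact ⟨R.mul_mem h1.1 h2.1, R.mul_mem h1.2 h2.2⟩
    | inv u _ h1 => rw [inv_inv]; exact h1.symm
  let ρ : Γ →* R :=
    { toFun := fun γ => ⟨(γ.1 : F), (hmem γ.1 γ.2).1⟩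
      map_one' := rfl
      map_mul' := fun _ _ => rfl }
  let Y : X → A → Γ := fun x a => ⟨y x a, hy x a⟩
  have hw : ∀ p : {p : A × A // p.1 ≠ p.2}, ∃ lam : Γ, (∀ n : ℕ, n ≠ 0 → lam ^ n ≠ 1) ∧
      ∀ (H : Type) [CommGroup H] (φ : Γ →* H) (t : H),
        (∀ᶠ x in (U : Filter X), φ (Y x p.1.1 / Y x p.1.2) = t) →
        ∃ n : ℕ, n ≠ 0 ∧ φ lam ^ n = 1 := by
    intro p
    refine witness U _ fun t ht => hne _ _ p.2 (t.1 : F) (ht.mono fun x hx => ?_)
    rw [← hx]
    simp [Y]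
  choose lam hlam1 hlam2 using hw
  obtain ⟨K, _, _, _, σ, hi, hσ⟩ := spec R (fun p => ρ (lam p)) (by
    intro p n hn h
    refine hlam1 p n hn (Subtype.ext (Units.ext ?_))
    rw [← map_pow] at h
    exact congrArg Subtype.val h)
  let τ : Γ →* Kˣ := (σ.toMonoidHom.comp ρ).toHomUnits
  have hτ : ∀ γ, (τ γ : K) = σ (ρ γ) := fun γ => rfl
  let c' : A → R := fun a => ⟨c a, Algebra.subset_adjoin (Or.inr (Or.inl ⟨a, rfl⟩))⟩
  have key := hG K hi τ.range ((Group.fg_iff_subgroup_fg _).1 inferInstance) X A U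
    (fun x a => τ (Y x a)) (fun x a => ⟨_, rfl⟩) (by
      intro a b hab t ht
      obtain ⟨x0, hx0⟩ := ht.exists
      have ht0 : t ≠ 0 := by
        rintro rfl
        exact Units.ne_zero _ (hx0.trans (zero_mul _))
      obtain ⟨n, hn, h⟩ := hlam2 ⟨(a, b), hab⟩ Kˣ τ (Units.mk0 t ht0) (ht.mono fun x hx => by
        rw [map_div, div_eq_iff_eq_mul]
        exact Units.ext hx)
      refine hσ ⟨(a, b), hab⟩ n hn ?_
      rw [← hτ, ← Units.val_pow_eq_pow_val, h, Units.val_one])
    (fun a => σ (c' a)) (hc.mono fun x hx => by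
      have e : ∑ a, c' a * ρ (Y x a) = 0 := by
        apply Subtype.ext
        rw [AddSubmonoidClass.coe_finsetSum]
        exact hx
      have := congrArg σ e
      rw [map_sum, map_zero] at this
      simpa only [map_mul, hτ] using this) a0
  have e : c' a0 * ⟨(c a0)⁻¹, Algebra.subset_adjoin (Or.inr (Or.inr rfl))⟩ = 1 :=
    Subtype.ext (mul_inv_cancel₀ ha0)
  have := congrArg σ e
  rw [map_mul, key, zero_mul, map_one] at this
  exact zero_ne_one this

end Pool.Agent.MP_be2dd8_ag.H53
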