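import Pool.Agent.MP_be2dd8_ag.H53.Spec
import Pool.Agent.MP_077ac3_nt.H73.Subspace

set_option autoImplicit false

/-!
Row SUB: the parametric Subspace Theorem with arbitrary places from the core statement and the
geometry of numbers.
-/

namespace Pool.Agent.MP_be2dd8_ag.H53

open Matrix Filter Topology Pool.Agent.MP_077ac3_nt.H18 Pool.Agent.MP_077ac3_nt.H73

namespace SubA

variable {n : ℕ}

/-- The matrix of the parallelepiped at parameter `q`. -/
noncomputable def Ab (L : Matrix (Fin n) (Fin n) ℝ) (c : Fin n → ℝ)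
    (B : Matrix (Fin n) (Fin n) ℤ) (q : ℝ) : Matrix (Fin n) (Fin n) ℝ :=
  diagonal (fun i => Real.exp (-(c i * q))) * (L * B.map (Int.castRingHom ℝ))

theorem Ab_sum (L : Matrix (Fin n) (Fin n) ℝ) (c : Fin n → ℝ) (B : Matrix (Fin n) (Fin n) ℤ)
    (q : ℝ) (i : Fin n) (x : Fin n → ℤ) :
    ∑ j, L i j * ((B *ᵥ x) j : ℝ) = Real.exp (c i * q) * ∑ j, Ab L c B q i j * (x j : ℝ) := by
  simp only [Ab, Matrix.diagonal_mul, mul_assoc, ← Finset.mul_sum]
  rw [← mul_assoc, ← Real.exp_add, add_neg_cancel, Real.exp_zero, one_mul]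
  simp only [Matrix.mul_apply, Matrix.mulVec, dotProduct, Matrix.map_apply, eq_intCast,
    Finset.sum_mul, Int.cast_sum, Int.cast_mul, Finset.mul_sum, mul_assoc]
  exact Finset.sum_comm

theorem det_cast {R : Type} [CommRing R] (B : Matrix (Fin n) (Fin n) ℤ) :
    (B.map (Int.castRingHom R)).det = (B.det : R) := by
  rw [← RingHom.mapMatrix_apply, ← RingHom.map_det, eq_intCast]

theorem det_Ab (L : Matrix (Fin n) (Fin n) ℝ) (c : Fin n → ℝ) (B : Matrix (Fin n) (Fin n) ℤ)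
    (q : ℝ) : (Ab L c B q).det = Real.exp (-(∑ i, c i) * q) * (L.det * B.det) := by
  rw [Ab, Matrix.det_mul, Matrix.det_mul, Matrix.det_diagonal, det_cast, ← Real.exp_sum,
    Finset.sum_neg_distrib, ← Finset.sum_mul, neg_mul]

theorem det_Ab_ne {L : Matrix (Fin n) (Fin n) ℝ} (c : Fin n → ℝ) {B : Matrix (Fin n) (Fin n) ℤ}
    (q : ℝ) (hL : L.det ≠ 0) (hB : B.det ≠ 0) : (Ab L c B q).det ≠ 0 := by
  rw [det_Ab]
  exact mul_ne_zero (Real.exp_pos _).ne' (mul_ne_zero hL (by exact_mod_cast hB))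

theorem log_det_Ab {L : Matrix (Fin n) (Fin n) ℝ} (c : Fin n → ℝ) {B : Matrix (Fin n) (Fin n) ℤ}
    (q : ℝ) (hL : L.det ≠ 0) (hB : B.det ≠ 0) : Real.log |(Ab L c B q).det| =
      -(∑ i, c i) * q + Real.log |L.det| + Real.log |(B.det : ℝ)| := by
  have hB' : (B.det : ℝ) ≠ 0 := by exact_mod_cast hB
  rw [Real.log_abs, Real.log_abs, Real.log_abs, det_Ab,
    Real.log_mul (Real.exp_pos _).ne' (mul_ne_zero hL hB'), Real.log_mul hL hB', Real.log_exp,
    add_assoc]

/-- Lower bound for every minimum. -/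
theorem one_le (L : Matrix (Fin n) (Fin n) ℝ) (c : Fin n → ℝ) (B : Matrix (Fin n) (Fin n) ℤ)
    (q : ℝ) (hq : 0 ≤ q) (hL : L.det ≠ 0) (hB : B.det ≠ 0) (V : Matrix (Fin n) (Fin n) ℤ)
    (π : Equiv.Perm (Fin n)) (μ : Fin n → ℝ) (K : ℝ) (hK : 0 ≤ K) (hV : V.det ≠ 0)
    (h : ∀ i j, |∑ k, Ab L c B q (π i) k * (V k j : ℝ)| ≤ K * min (μ i) (μ j)) (j : Fin n)
    (hμ : 0 ≤ μ j) :
    1 ≤ (∑ i, ∑ k, |L⁻¹ i k|) * (Real.exp ((∑ k, |c k|) * q) * (K * μ j)) := by
  have hex : ∃ i, (B * V) i j ≠ 0 := by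
    by_contra hc
    push Not at hc
    exact mul_ne_zero hB hV (by
      rw [← Matrix.det_mul]; exact Matrix.det_eq_zero_of_column_eq_zero j hc)
  obtain ⟨i, hi⟩ := hex
  set y : Fin n → ℝ := fun k => (((B * V) k j : ℤ) : ℝ) with hy
  have h1 : (1 : ℝ) ≤ |y i| := by
    simp only [hy]
    exact_mod_cast Int.one_le_abs hi
  have h2 : y i = ∑ k, L⁻¹ i k * (L *ᵥ y) k := by
    have : L⁻¹ *ᵥ (L *ᵥ y) = y := by
      rw [Matrix.mulVec_mulVec, Matrix.nonsing_inv_mul _ (isUnit_iff_ne_zero.2 hL),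
        Matrix.one_mulVec]
    exact (congrFun this i).symm
  have h3 : ∀ k, |(L *ᵥ y) k| ≤ Real.exp ((∑ k, |c k|) * q) * (K * μ j) := by
    intro k
    have e1 : (L *ᵥ y) k = Real.exp (c k * q) * ∑ l, Ab L c B q k l * (V l j : ℝ) :=
      Ab_sum L c B q k (fun l => V l j)
    have e2 := h (π.symm k) j
    rw [Equiv.apply_symm_apply] at e2
    rw [e1, abs_mul, abs_of_pos (Real.exp_pos _)]
    refine mul_le_mul (Real.exp_le_exp.2 (mul_le_mul_of_nonneg_right ?_ hq))
      (e2.trans (mul_le_mul_of_nonneg_left (min_le_right _ _) hK)) (abs_nonneg _)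
      (Real.exp_pos _).le
    exact (le_abs_self _).trans
      (Finset.single_le_sum (f := fun k => |c k|) (fun _ _ => abs_nonneg _) (Finset.mem_univ k))
  have h0 : 0 ≤ Real.exp ((∑ k, |c k|) * q) * (K * μ j) := by positivity
  calc (1 : ℝ) ≤ |y i| := h1
    _ ≤ ∑ k, |L⁻¹ i k| * (Real.exp ((∑ k, |c k|) * q) * (K * μ j)) := by
        rw [h2]
        refine (Finset.abs_sum_le_sum_abs _ _).trans (Finset.sum_le_sum fun k _ => ?_)
        rw [abs_mul]
        exact mul_le_mul_of_nonneg_left (h3 k) (abs_nonneg _)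
    _ ≤ _ := by
        rw [← Finset.sum_mul]
        refine mul_le_mul_of_nonneg_right ?_ h0
        exact Finset.single_le_sum (f := fun i => ∑ k, |L⁻¹ i k|)
          (fun _ _ => Finset.sum_nonneg fun _ _ => abs_nonneg _) (Finset.mem_univ i)

theorem setupG (hG : GeomStmt) (L : Matrix (Fin n) (Fin n) ℝ) (c : Fin n → ℝ) (hL : L.det ≠ 0)
    (U : Ultrafilter ℝ) (hU : (U : Filter ℝ) ≤ atTop) (B : ℝ → Matrix (Fin n) (Fin n) ℤ) (E C : ℝ)
    (hB : ∀ᶠ q in (U : Filter ℝ), (B q).det ≠ 0 ∧ |Real.log |((B q).det : ℝ)| - E * q| ≤ C) :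
    ∃ (K : ℝ) (V : ℝ → Matrix (Fin n) (Fin n) ℤ) (π : Equiv.Perm (Fin n)) (ℓ : ℝ → Fin n → ℝ)
      (γ : Fin n → ℝ), 1 ≤ K ∧ ∑ i, γ i = E - ∑ i, c i ∧
      (∀ i, Tendsto (fun q => ℓ q i) (U : Filter ℝ) (𝓝 (γ i))) ∧
      ∀ᶠ q in (U : Filter ℝ), 0 < q ∧ (V q).det ≠ 0 ∧ Monotone (ℓ q) ∧
        (∀ i j, |∑ k, L (π i) k * (((B q * V q) k j : ℤ) : ℝ)|
          ≤ K * Real.exp ((c (π i) + min (ℓ q i) (ℓ q j)) * q)) ∧
        ∀ (x : Fin n → ℤ) (k : Fin n), 0 < ℓ q k →
          (∀ i, |∑ j, L i j * ((B q *ᵥ x) j : ℝ)| ≤ Real.exp (c i * q)) →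
          ∃ t : Fin n → ℚ, (∀ j, k ≤ j → t j = 0) ∧
            ∀ i, (x i : ℚ) = ∑ j, (V q i j : ℚ) * t j := by
  obtain ⟨K, hK, hA⟩ := hG n
  have hA' : ∀ q : ℝ, ∃ (V : Matrix (Fin n) (Fin n) ℤ) (π : Equiv.Perm (Fin n)) (μ : Fin n → ℝ),
      (B q).det ≠ 0 → V.det ≠ 0 ∧ (∀ i, 0 < μ i) ∧ Monotone μ ∧
      (∀ i j, |∑ k, Ab L c (B q) q (π i) k * (V k j : ℝ)| ≤ K * min (μ i) (μ j)) ∧
      ∏ i, μ i ≤ K * |(Ab L c (B q) q).det| ∧
      ∀ (x : Fin n → ℤ) (k : Fin n), (∀ i, |∑ j, Ab L c (B q) q i j * (x j : ℝ)| < μ k) →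
        ∃ t : Fin n → ℚ, (∀ j, k ≤ j → t j = 0) ∧ ∀ i, (x i : ℚ) = ∑ j, (V i j : ℚ) * t j := by
    intro q
    by_cases h : (B q).det = 0
    · exact ⟨0, 1, 0, fun h' => absurd h h'⟩
    · obtain ⟨V, π, μ, H⟩ := hA _ (det_Ab_ne c q hL h)
      exact ⟨V, π, μ, fun _ => H⟩
  choose V π μ hV hμ hmono hent hprod hspan using hA'
  have hK0 : 0 < K := by linarith
  obtain ⟨π0, hπ0⟩ : ∃ π0, ∀ᶠ q in (U : Filter ℝ), π q = π0 :=
    (Ultrafilter.eventually_exists_iff (f := U) (P := fun p q => π q = p)).1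
      (Eventually.of_forall fun q => ⟨π q, rfl⟩)
  set δ : ℝ := E - ∑ i, c i with hδ
  obtain ⟨C0, hC0⟩ : ∃ C0 : ℝ, ∀ᶠ q in (U : Filter ℝ),
      δ * q - C0 ≤ ∑ i, Real.log (μ q i) ∧ ∑ i, Real.log (μ q i) ≤ δ * q + C0 := by
    refine ⟨|Real.log K + Real.log |L.det| + C|
      + |Real.log (n.factorial : ℝ) + ∑ _i : Fin n, Real.log K - Real.log (|L.det|) + C|,
      hB.mono fun q ⟨hq, hq'⟩ => ⟨?_, ?_⟩⟩
    · have h1 := det_le_prod _ _ _ _ K hK0.le (hV q hq) (hent q hq)
      have h2 := Real.log_le_log (abs_pos.2 (det_Ab_ne c q hL hq)) h1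
      rw [log_det_Ab c q hL hq, Real.log_mul (by positivity)
        (Finset.prod_ne_zero_iff.2 fun i _ => (mul_pos hK0 (hμ q hq i)).ne'),
        Real.log_prod (fun i _ => (mul_pos hK0 (hμ q hq i)).ne')] at h2
      have h3 : ∑ i, Real.log (K * μ q i) = ∑ _i : Fin n, Real.log K + ∑ i, Real.log (μ q i) := by
        rw [← Finset.sum_add_distrib]
        exact Finset.sum_congr rfl fun i _ => Real.log_mul hK0.ne' (hμ q hq i).ne'
      have h4 := (abs_le.1 hq').1
      have h5 := le_abs_self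
        (Real.log (n.factorial : ℝ) + ∑ _i : Fin n, Real.log K - Real.log (|L.det|) + C)
      have h6 := abs_nonneg (Real.log K + Real.log |L.det| + C)
      rw [hδ]
      linarith
    · have h2 := Real.log_le_log (Finset.prod_pos fun i _ => hμ q hq i) (hprod q hq)
      rw [Real.log_mul hK0.ne' (abs_pos.2 (det_Ab_ne c q hL hq)).ne',
        log_det_Ab c q hL hq, Real.log_prod (fun i _ => (hμ q hq i).ne')] at h2
      have h4 := (abs_le.1 hq').2
      have h5 := le_abs_self (Real.log K + Real.log |L.det| + C)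
      have h6 := abs_nonneg
        (Real.log (n.factorial : ℝ) + ∑ _i : Fin n, Real.log K - Real.log (|L.det|) + C)
      rw [hδ]
      linarith
  obtain ⟨C1, hC1, hlow⟩ : ∃ C1 : ℝ, 0 ≤ C1 ∧ ∀ q : ℝ, 1 ≤ q → (B q).det ≠ 0 → ∀ j,
      -(C1 * q) ≤ Real.log (μ q j) := by
    refine ⟨(∑ k, |c k|) + |Real.log ((∑ i, ∑ k, |L⁻¹ i k|) * K)|, by positivity,
      fun q hq hb j => ?_⟩
    have h1 := one_le L c (B q) q (by linarith) hL hb (V q) (π q) (μ q) K hK0.le (hV q hb)
      (hent q hb) j (hμ q hb j).le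
    have h2 : (∑ i, ∑ k, |L⁻¹ i k|) ≠ 0 := by
      intro h0
      rw [h0, zero_mul] at h1
      linarith
    have h3 := Real.log_nonneg h1
    rw [Real.log_mul h2 (mul_pos (Real.exp_pos _) (mul_pos hK0 (hμ q hb j))).ne',
      Real.log_mul (Real.exp_pos _).ne' (mul_pos hK0 (hμ q hb j)).ne', Real.log_exp,
      Real.log_mul hK0.ne' (hμ q hb j).ne'] at h3
    have h4 := le_abs_self (Real.log ((∑ i, ∑ k, |L⁻¹ i k|) * K))
    have h5 := mul_le_mul_of_nonneg_left hq (abs_nonneg (Real.log ((∑ i, ∑ k, |L⁻¹ i k|) * K)))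
    rw [Real.log_mul h2 hK0.ne'] at h4 h5 ⊢
    linarith
  have hq1 : ∀ᶠ q in (U : Filter ℝ), 1 ≤ q := hU (eventually_ge_atTop 1)
  set ℓ : ℝ → Fin n → ℝ := fun q i => Real.log (μ q i) / q with hℓ
  have hlim : ∀ j, ∃ γ, Tendsto (fun q => ℓ q j) (U : Filter ℝ) (𝓝 γ) := by
    intro j
    refine exists_lim U _ (-C1) (δ + |C0| + n * C1) ?_
    filter_upwards [hq1, hB, hC0] with q hq ⟨hb, _⟩ hc
    have hq0 : 0 < q := by linarith
    constructor
    · simp only [hℓ]
      rw [le_div_iff₀ hq0]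
      have := hlow q hq hb j
      linarith
    · simp only [hℓ]
      rw [div_le_iff₀ hq0]
      have h1 := Finset.single_le_sum (f := fun i => Real.log (μ q i) + C1 * q)
        (fun i _ => by have := hlow q hq hb i; linarith) (Finset.mem_univ j)
      rw [Finset.sum_add_distrib, Finset.sum_const, Finset.card_univ, Fintype.card_fin,
        nsmul_eq_mul] at h1
      have h2 := hc.2
      have h3 := le_abs_self C0
      have h4 := mul_le_mul_of_nonneg_left hq (abs_nonneg C0)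
      have h5 := mul_nonneg hC1 hq0.le
      linarith
  choose γ hγ using hlim
  refine ⟨K, V, π0, ℓ, γ, hK, ?_, hγ, ?_⟩
  · have t1 : Tendsto (fun q => ∑ i, ℓ q i) (U : Filter ℝ) (𝓝 (∑ i, γ i)) :=
      tendsto_finsetSum _ fun i _ => hγ i
    have t0 : Tendsto (fun q : ℝ => C0 / q) (U : Filter ℝ) (𝓝 0) :=
      (tendsto_const_nhds.div_atTop tendsto_id).mono_left hU
    have t2 : Tendsto (fun q : ℝ => δ - C0 / q) (U : Filter ℝ) (𝓝 δ) := by
      simpa using tendsto_const_nhds.sub t0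
    have t3 : Tendsto (fun q : ℝ => δ + C0 / q) (U : Filter ℝ) (𝓝 δ) := by
      simpa using tendsto_const_nhds.add t0
    refine tendsto_nhds_unique t1 (tendsto_of_tendsto_of_tendsto_of_le_of_le' t2 t3
      ((hq1.and hC0).mono fun q ⟨hq, hc⟩ => ?_) ((hq1.and hC0).mono fun q ⟨hq, hc⟩ => ?_))
    · have hq0 : 0 < q := by linarith
      simp only [hℓ]
      rw [← Finset.sum_div, le_div_iff₀ hq0, sub_mul, div_mul_cancel₀ _ hq0.ne']
      exact hc.1
    · have hq0 : 0 < q := by linarith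
      simp only [hℓ]
      rw [← Finset.sum_div, div_le_iff₀ hq0, add_mul, div_mul_cancel₀ _ hq0.ne']
      exact hc.2
  · filter_upwards [hq1, hπ0, hB] with q hq hπ ⟨hb, _⟩
    have hq0 : 0 < q := by linarith
    have hℓmono : Monotone (ℓ q) := fun i j hij =>
      div_le_div_of_nonneg_right (Real.log_le_log (hμ q hb i) (hmono q hb hij)) hq0.le
    have hexp : ∀ i, Real.exp (ℓ q i * q) = μ q i := fun i => by
      simp only [hℓ]
      rw [div_mul_cancel₀ _ hq0.ne', Real.exp_log (hμ q hb i)]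
    refine ⟨hq0, hV q hb, hℓmono, fun i j => ?_, fun x k hk hx => hspan q hb x k fun i => ?_⟩
    · have e0 : ∑ k, L (π0 i) k * (((B q * V q) k j : ℤ) : ℝ) = _ :=
        Ab_sum L c (B q) q (π0 i) (fun k => V q k j)
      rw [e0, abs_mul, abs_of_pos (Real.exp_pos _), add_mul, Real.exp_add, mul_left_comm]
      refine mul_le_mul_of_nonneg_left ?_ (Real.exp_pos _).le
      have h1 := hent q hb i j
      rw [hπ] at h1
      refine h1.trans (le_of_eq ?_)
      congr 1
      rcases le_total i j with hij | hij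
      · rw [min_eq_left (hmono q hb hij), min_eq_left (hℓmono hij), hexp]
      · rw [min_eq_right (hmono q hb hij), min_eq_right (hℓmono hij), hexp]
    · have h1 := hx i
      rw [Ab_sum L c (B q) q i x, abs_mul, abs_of_pos (Real.exp_pos _)] at h1
      have h2 : |∑ j, Ab L c (B q) q i j * (x j : ℝ)| ≤ 1 := by
        by_contra hc
        have := mul_lt_mul_of_pos_left (not_le.1 hc) (Real.exp_pos (c i * q))
        linarith
      rw [← hexp]
      exact h2.trans_lt (Real.one_lt_exp_iff.2 (mul_pos hk hq0))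

/-- Leibniz bound for an absolute value. -/
theorem av_det_le {K : Type} [Field K] (v : AbsoluteValue K ℝ) {r : ℕ}
    (A : Matrix (Fin r) (Fin r) K) (a : Fin r → ℝ) (q : ℝ)
    (h : ∀ i j, v (A i j) ≤ Real.exp (a i * q)) :
    v A.det ≤ (r.factorial : ℝ) * Real.exp ((∑ i, a i) * q) := by
  rw [← Matrix.det_transpose, Matrix.det_apply']
  refine (v.sum_le _ _).trans ?_
  have : ∀ σ : Equiv.Perm (Fin r),
      v (((Equiv.Perm.sign σ : ℤ) : K) * ∏ i, Aᵀ (σ i) i) ≤ Real.exp ((∑ i, a i) * q) := by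
    intro σ
    have hs : v ((Equiv.Perm.sign σ : ℤ) : K) = 1 := by
      rcases Int.units_eq_one_or (Equiv.Perm.sign σ) with h | h <;> simp [h]
    rw [map_mul, hs, one_mul, map_prod, Finset.sum_mul, Real.exp_sum]
    exact Finset.prod_le_prod (fun _ _ => v.nonneg _) fun i _ => h i (σ i)
  refine (Finset.sum_le_sum fun σ _ => this σ).trans ?_
  rw [Finset.sum_const, Finset.card_univ, Fintype.card_perm, Fintype.card_fin, nsmul_eq_mul]

theorem det_perm_ne {R : Type} [Field R] (L : Matrix (Fin n) (Fin n) R) (π : Equiv.Perm (Fin n))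
    (hL : L.det ≠ 0) : (L.submatrix π id).det ≠ 0 := by
  rw [Matrix.det_permute]
  refine mul_ne_zero ?_ hL
  rcases Int.units_eq_one_or (Equiv.Perm.sign π) with h | h <;> simp [h]

theorem comp_sum {R : Type} [CommRing R] {r : ℕ} (A : Matrix (Fin n) (Fin n) R)
    (X : Matrix (Fin n) (Fin n) ℤ) (s l : Sub n r) :
    ∑ j, comp r A s j * ((comp r X j l : ℤ) : R) =
      comp r (A * X.map (Int.castRingHom R)) s l := by
  rw [comp_mul r A, comp_map, Matrix.mul_apply]
  rfl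

/-- The two sided bound for the determinant of the lattice. -/
theorem det_bound {K S : Type} [Field K] [NumberField K] [Fintype S] (Pl : Places K (Option S))
    (M : Option S → Matrix (Fin n) (Fin n) K) (c : Option S → Fin n → ℝ) (φ : K →+* ℂ)
    (hφ : ∀ x, Pl.v none x = ‖φ x‖) (hM : ∀ s, (M s).det ≠ 0) (C : ℝ) : ∃ C' : ℝ,
    ∀ (B : Matrix (Fin n) (Fin n) ℤ) (q : ℝ), B.det ≠ 0 →
      (∀ (s : S) (z : Fin n → ℤ) (i : Fin n), Pl.v (some s) (∑ j, M (some s) i j *
        (B.mulVec z j : K)) ≤ Real.exp (c (some s) i * q)) →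
      Pl.κ none * Real.log |(B.det : ℝ)| ≤ C - (∑ s : S, Pl.κ (some s) * ∑ i, c (some s) i) * q →
      |Real.log |(B.det : ℝ)| -
        -(∑ s : S, Pl.κ (some s) * ∑ i, c (some s) i) / Pl.κ none * q| ≤ C' := by
  set D := ∑ s : S, Pl.κ (some s) *
    (Real.log (n.factorial : ℝ) - Real.log (Pl.v (some s) (M (some s)).det)) with hD
  refine ⟨(|C| + |D|) / Pl.κ none, fun B q hB h1 h2 => ?_⟩
  have k0 := Pl.pos none
  have hB' : (B.det : K) ≠ 0 := by exact_mod_cast hB
  have h3 := Pl.pf _ hB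
  rw [Fintype.sum_option, hφ, map_intCast, Complex.norm_intCast] at h3
  have h4 : ∑ s : S, Pl.κ (some s) * Real.log (Pl.v (some s) (B.det : K)) ≤
      D + (∑ s : S, Pl.κ (some s) * ∑ i, c (some s) i) * q := by
    rw [hD, Finset.sum_mul, ← Finset.sum_add_distrib]
    refine Finset.sum_le_sum fun s _ => ?_
    rw [mul_assoc, ← mul_add]
    refine mul_le_mul_of_nonneg_left ?_ (Pl.pos _).le
    have a1 := av_det_le (Pl.v (some s)) (M (some s) * B.map (Int.castRingHom K)) (c (some s)) q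
      fun i j => by
        have := h1 s (Pi.single j 1) i
        simpa [Matrix.mul_apply] using this
    have a2 := (Pl.v (some s)).pos (hM (some s))
    have a3 := (Pl.v (some s)).pos hB'
    rw [Matrix.det_mul, det_cast, map_mul] at a1
    have a4 := Real.log_le_log (mul_pos a2 a3) a1
    rw [Real.log_mul a2.ne' a3.ne', Real.log_mul (by positivity) (Real.exp_pos _).ne',
      Real.log_exp] at a4
    linarith
  have e : Real.log |(B.det : ℝ)| -
      -(∑ s : S, Pl.κ (some s) * ∑ i, c (some s) i) / Pl.κ none * q =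
      (Pl.κ none * Real.log |(B.det : ℝ)| +
        (∑ s : S, Pl.κ (some s) * ∑ i, c (some s) i) * q) / Pl.κ none := by
    field_simp
    ring
  rw [e, abs_div, abs_of_pos k0]
  refine div_le_div_of_nonneg_right (abs_le.2 ⟨?_, ?_⟩) k0.le
  · linarith [le_abs_self D, abs_nonneg C]
  · linarith [le_abs_self C, abs_nonneg D]

theorem subFin (hC : CoreG) (hG : GeomStmt) {K S : Type} [Field K] [NumberField K] [Fintype S]
    (Pl : Places K (Option S)) (M : Option S → Matrix (Fin n) (Fin n) K)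
    (c : Option S → Fin n → ℝ) (φ : K →+* ℂ) (L : Matrix (Fin n) (Fin n) ℝ)
    (hφ : ∀ x, Pl.v none x = ‖φ x‖) (hLM : ∀ i j, φ (M none i j) = (L i j : ℂ))
    (hM : ∀ s, (M s).det ≠ 0) (hsum : ∑ s, Pl.κ s * ∑ i, c s i < 0)
    (U : Ultrafilter ℝ) (hU : (U : Filter ℝ) ≤ atTop) (B : ℝ → Matrix (Fin n) (Fin n) ℤ) (C : ℝ)
    (hB : ∀ᶠ q in (U : Filter ℝ), (B q).det ≠ 0 ∧
      (∀ (s : S) (z : Fin n → ℤ) (i : Fin n), Pl.v (some s) (∑ j, M (some s) i j *
        ((B q).mulVec z j : K)) ≤ Real.exp (c (some s) i * q)) ∧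
      Pl.κ none * Real.log |((B q).det : ℝ)| ≤
        C - (∑ s : S, Pl.κ (some s) * ∑ i, c (some s) i) * q) :
    ∃ w : Fin n → ℤ, w ≠ 0 ∧ ∀ᶠ q in (U : Filter ℝ), ∀ z : Fin n → ℤ,
      (∀ i, |∑ j, L i j * ((B q).mulVec z j : ℝ)| ≤ Real.exp (c none i * q)) →
      ∑ i, w i * (B q).mulVec z i = 0 := by
  classical
  have hML : (M none).map φ = L.map Complex.ofRealHom := by
    ext i j
    exact hLM i j
  have hL : L.det ≠ 0 := fun h => by
    have h1 := congrArg Matrix.det hML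
    rw [← RingHom.mapMatrix_apply, ← RingHom.map_det, ← RingHom.mapMatrix_apply,
      ← RingHom.map_det, h, map_zero] at h1
    exact hM none ((map_eq_zero φ).1 h1)
  obtain ⟨C', hC'⟩ := det_bound Pl M c φ hφ hM C
  obtain ⟨K0, V, π, ℓ, γ, hK, hγs, hγ, hev⟩ := setupG hG L (c none) hL U hU B _ C'
    (hB.mono fun q hq => ⟨hq.1, hC' _ q hq.1 hq.2.1 hq.2.2⟩)
  have k0 := Pl.pos none
  have hγs' : Pl.κ none * ∑ i, γ i = -∑ s, Pl.κ s * ∑ i, c s i := by
    rw [hγs, Fintype.sum_option]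
    field_simp
    ring
  have hex : ∃ i, 0 < γ i := by
    by_contra hc
    push Not at hc
    have := mul_nonpos_of_nonneg_of_nonpos k0.le
      (Finset.sum_nonpos (s := Finset.univ) fun i _ => hc i)
    linarith
  obtain ⟨k, hk, hmin⟩ : ∃ k, 0 < γ k ∧ ∀ j, j < k → γ j ≤ 0 := by
    obtain ⟨k, hk, hmin⟩ := wellFounded_lt.has_min {i | 0 < γ i} hex
    exact ⟨k, hk, fun j hj => not_lt.1 fun h => hmin j h hj⟩
  have hkev : ∀ᶠ q in (U : Filter ℝ), 0 < ℓ q k := (hγ k).eventually_const_lt hk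
  have hsol : ∀ᶠ q in (U : Filter ℝ), ∀ z : Fin n → ℤ,
      (∀ i, |∑ j, L i j * ((B q).mulVec z j : ℝ)| ≤ Real.exp (c none i * q)) →
      ∃ t : Fin n → ℚ, (∀ j, k ≤ j → t j = 0) ∧
        ∀ i, (((B q).mulVec z i : ℤ) : ℚ) = ∑ j, ((B q * V q) i j : ℚ) * t j := by
    filter_upwards [hev, hkev] with q hq hkq z hz
    obtain ⟨t, ht, hxt⟩ := hq.2.2.2.2 z k hkq hz
    refine ⟨t, ht, fun i => ?_⟩
    simp only [Matrix.mulVec, dotProduct, Matrix.mul_apply, Int.cast_sum, Int.cast_mul, hxt,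
      Finset.mul_sum, Finset.sum_mul, mul_assoc]
    exact Finset.sum_comm
  rcases Nat.eq_zero_or_pos k.1 with hk0 | hk0
  · refine ⟨fun _ => 1, fun h => one_ne_zero (congrFun h k), hsol.mono fun q hq x hx => ?_⟩
    obtain ⟨t, ht, hxt⟩ := hq x hx
    refine Finset.sum_eq_zero fun i _ => ?_
    have h1 : (((B q).mulVec x i : ℤ) : ℚ) = 0 := by
      rw [hxt i]
      refine Finset.sum_eq_zero fun j _ => ?_
      rw [ht j (by rw [Fin.le_def]; omega), mul_zero]
    have h2 : (B q).mulVec x i = 0 := by exact_mod_cast h1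
    rw [h2, mul_zero]
  have hkn := k.2
  set km : Fin n := ⟨k.1 - 1, by omega⟩ with hkmdef
  have hkm : ∀ j, j < k → j ≤ km := fun j hj => by
    rw [Fin.lt_def] at hj
    rw [Fin.le_def]
    simp only [hkmdef]
    omega
  have hkmk : km < k := by
    rw [Fin.lt_def]
    simp only [hkmdef]
    omega
  have hgap : 0 < γ k - γ km := by
    have := hmin km hkmk
    linarith
  obtain ⟨r, hr⟩ : ∃ r, r = n - k.1 := ⟨_, rfl⟩
  have hr1 : 1 ≤ r := by omega
  set s0 : Sub n r := ⟨Finset.Ici k, by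
    rw [Set.powersetCard.mem_iff, Fin.card_Ici, hr]⟩ with hs0def
  have hs0 : s0.1 = Finset.Ici k := rfl
  have κ0 : 0 ≤ ∑ s, Pl.κ s := Finset.sum_nonneg fun s _ => (Pl.pos s).le
  set η : ℝ := Pl.κ none * (γ k - γ km) / ((∑ s, Pl.κ s) * (Fintype.card (Sub n r) : ℝ) + 1)
    with hη
  have hη0 : 0 < η := by positivity
  have hηN : (∑ s, Pl.κ s) * (Fintype.card (Sub n r) : ℝ) * η < Pl.κ none * (γ k - γ km) := by
    rw [hη, ← mul_div_assoc, div_lt_iff₀ (by positivity)]
    have := mul_pos k0 hgap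
    nlinarith
  set c' : Option S → Sub n r → ℝ := fun o s => (o.elim
    (∑ i ∈ s.1, (c none (π i) + γ i) + if s = s0 then γ km - γ k else 0)
    fun σ => ∑ i ∈ s.1, c (some σ) i) + η with hc'
  set M' : Option S → Matrix (Sub n r) (Sub n r) K := fun o =>
    comp r (o.elim ((M none).submatrix π id) fun σ => M (some σ)) with hM'
  have hsum' : ∑ o, Pl.κ o * ∑ s, c' o s < 0 := by
    have e1 : ∀ σ : S, ∑ s, c' (some σ) s = ((n - 1).choose (r - 1) : ℝ) * ∑ i, c (some σ) i +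
        (Fintype.card (Sub n r) : ℝ) * η := fun σ => by
      simp only [hc', Option.elim_some]
      rw [Finset.sum_add_distrib, sum_sub hr1, Finset.sum_const, Finset.card_univ, nsmul_eq_mul]
    have e2 : ∑ s, c' none s = ((n - 1).choose (r - 1) : ℝ) * (∑ i, c none i + ∑ i, γ i) +
        (γ km - γ k) + (Fintype.card (Sub n r) : ℝ) * η := by
      simp only [hc', Option.elim_none]
      rw [Finset.sum_add_distrib, Finset.sum_add_distrib, sum_sub hr1, Finset.sum_ite_eq',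
        if_pos (Finset.mem_univ _), Finset.sum_const, Finset.card_univ, nsmul_eq_mul,
        Finset.sum_add_distrib, Equiv.sum_comp π (c none)]
    have e3 : ∑ σ : S, Pl.κ (some σ) * ∑ s, c' (some σ) s =
        ((n - 1).choose (r - 1) : ℝ) * ∑ σ : S, Pl.κ (some σ) * ∑ i, c (some σ) i +
        (∑ σ : S, Pl.κ (some σ)) * (Fintype.card (Sub n r) : ℝ) * η := by
      rw [Finset.mul_sum, Finset.sum_mul, Finset.sum_mul, ← Finset.sum_add_distrib]
      refine Finset.sum_congr rfl fun σ _ => ?_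
      rw [e1]
      ring
    rw [Fintype.sum_option] at hγs' hηN ⊢
    rw [e2, e3]
    have e4 := congrArg (((n - 1).choose (r - 1) : ℝ) * ·) hγs'
    nlinarith
  obtain ⟨W, hW0, q0, hW⟩ := hC K (Sub n r) (Option S) Pl M' c' (by
    rintro (_ | σ)
    exacts [det_comp_ne_zero r _ (det_perm_ne _ π (hM none)), det_comp_ne_zero r _ (hM _)]) hsum'
  have hF : ∀ᶠ q in (U : Filter ℝ), ∀ s : Sub n r, Real.log ((r.factorial : ℝ) * K0 ^ r) / q +
      (∑ i ∈ s.1, (c none (π i) + ℓ q i) + if s = s0 then ℓ q km - ℓ q k else 0) ≤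
        c' none s := by
    rw [eventually_all]
    intro s
    have t0 : Tendsto (fun q : ℝ => Real.log ((r.factorial : ℝ) * K0 ^ r) / q) (U : Filter ℝ)
        (𝓝 0) := (tendsto_const_nhds.div_atTop tendsto_id).mono_left hU
    have t1 : Tendsto (fun q => ∑ i ∈ s.1, (c none (π i) + ℓ q i)) (U : Filter ℝ)
        (𝓝 (∑ i ∈ s.1, (c none (π i) + γ i))) :=
      tendsto_finsetSum _ fun i _ => tendsto_const_nhds.add (hγ i)
    have t2 : Tendsto (fun q => if s = s0 then ℓ q km - ℓ q k else 0) (U : Filter ℝ)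
        (𝓝 (if s = s0 then γ km - γ k else 0)) := by
      by_cases hs : s = s0
      · simp only [if_pos hs]
        exact (hγ km).sub (hγ k)
      · simp only [if_neg hs]
        exact tendsto_const_nhds
    refine (t0.add (t1.add t2)).eventually_le_const ?_
    simp only [hc', Option.elim_none]
    linarith
  have hdet : ∀ᶠ q in (U : Filter ℝ), (B q * V q).det ≠ 0 := by
    filter_upwards [hev, hB] with q hq hb
    rw [Matrix.det_mul]
    exact mul_ne_zero hb.1 hq.2.1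
  have hWev : ∀ᶠ q in (U : Filter ℝ), ∃ w ∈ (W : Set (Sub n r → ℤ)), ∀ l, l ≠ s0 →
      ∑ s, w s * comp r (B q * V q) s l = 0 := by
    filter_upwards [hev, hF, hdet, hU (eventually_ge_atTop q0), hB,
      hU (eventually_ge_atTop (Real.log (r.factorial : ℝ) / η))] with q hq hFq hdq hq0 hb hqη
    refine hW q hq0 _ s0 (det_comp_ne_zero_int r _ hdq) ?_
    rintro (_ | σ) s l hl
    · have e0 : ((M none).submatrix π id * (B q * V q).map (Int.castRingHom K)).map φ =
          (L.submatrix π id * (B q * V q).map (Int.castRingHom ℝ)).map Complex.ofRealHom := by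
        ext i j
        simp [Matrix.mul_apply, hLM]
      have e1 : Pl.v none (∑ j, M' none s j * ((comp r (B q * V q) j l : ℤ) : K)) =
          |comp r (L.submatrix π id * (B q * V q).map (Int.castRingHom ℝ)) s l| := by
        have e2 := congrFun (congrFun (congrArg (comp r) e0) s) l
        rw [comp_map, comp_map, Matrix.map_apply, Matrix.map_apply] at e2
        simp only [hM', Option.elim_none]
        rw [comp_sum, hφ, e2]
        exact Complex.norm_real _
      rw [e1]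
      have hK0 : 0 < K0 := by linarith
      refine (comp_bound _ K0 q hK0.le hq.1.le (fun i => c none (π i)) (ℓ q) hq.2.2.1 k km hkm s0
        hs0 (fun i j => hq.2.2.2.1 i j) s l hl).trans ?_
      have e2 : (r.factorial : ℝ) * K0 ^ r
          = Real.exp (Real.log ((r.factorial : ℝ) * K0 ^ r) / q * q) := by
        rw [div_mul_cancel₀ _ hq.1.ne', Real.exp_log (by positivity)]
      rw [← mul_assoc, e2, ← Real.exp_add, ← add_mul]
      exact Real.exp_le_exp.2 (mul_le_mul_of_nonneg_right (hFq s) hq.1.le)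
    · simp only [hM', hc', Option.elim_some]
      rw [comp_sum, Pool.Agent.MP_077ac3_nt.H73.comp_apply]
      refine (av_det_le _ _ (fun a => c (some σ) (emb s a)) q fun a b =>
        hb.2.1 σ (fun m => V q m (emb l b)) (emb s a)).trans ?_
      rw [sum_emb s (c (some σ)), add_mul, Real.exp_add, mul_comm]
      refine mul_le_mul_of_nonneg_left ?_ (Real.exp_pos _).le
      rw [← Real.log_le_iff_le_exp (by positivity), mul_comm, ← div_le_iff₀ hη0]
      exact hqη
  obtain ⟨w0, hw0W, hw0⟩ := (Ultrafilter.eventually_exists_mem_iff (f := U) W.finite_toSet).1 hWev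
  have hw0ne : w0 ≠ 0 := fun h => hW0 (h ▸ hw0W)
  obtain ⟨q1, hq1, hq1'⟩ := (hw0.and hdet).exists
  refine ⟨fun i => (B q1 * V q1).adjugate k i, adjugate_row_ne _ hq1' k, ?_⟩
  filter_upwards [hsol, hw0, hdet] with q hs hw hd x hx
  obtain ⟨t, ht, hxt⟩ := hs x hx
  exact span_step_int s0 k (Finset.mem_Ici.2 le_rfl) _ _ hd hq1' w0 hw0ne hw hq1 t
    (fun j hj => ht j (Finset.mem_Ici.1 hj)) _ hxt

end SubA

open SubA in
theorem subG : CoreG → GeomStmt → SubG := by
  intro hC hG K ι S _ _ _ _ _ Pl M c φ L hφ hLM hM hsum U hU B C hB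
  let e := (Fintype.equivFin ι).symm
  have hv : ∀ (X : Matrix ι ι ℤ) (z : ι → ℤ) (j), (X.submatrix e e).mulVec (z ∘ e) j =
      X.mulVec z (e j) := fun X z j => by
    simp only [Matrix.mulVec, dotProduct, Matrix.submatrix_apply, Function.comp_apply]
    exact Equiv.sum_comp e fun m => X (e j) m * z m
  have hc : ∀ s, ∑ i, c s (e i) = ∑ i, c s i := fun s => Equiv.sum_comp e (c s)
  obtain ⟨w, hw, h⟩ := subFin hC hG Pl (fun s => (M s).submatrix e e) (fun s i => c s (e i)) φ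
    (L.submatrix e e) hφ (fun i j => hLM _ _)
    (fun s => by rw [Matrix.det_submatrix_equiv_self]; exact hM s) (by simpa only [hc] using hsum)
    U hU (fun q => (B q).submatrix e e) C (hB.mono fun q hq => by
      rw [Matrix.det_submatrix_equiv_self]
      refine ⟨hq.1, fun s z i => ?_, by simpa only [hc] using hq.2.2⟩
      have e1 : z = (z ∘ e.symm) ∘ e := by ext; simp
      refine le_trans (le_of_eq ?_) (hq.2.1 s (z ∘ e.symm) (e i))
      rw [← Equiv.sum_comp e]
      congr 1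
      refine Finset.sum_congr rfl fun j _ => ?_
      rw [← hv, ← e1, Matrix.submatrix_apply])
  refine ⟨w ∘ e.symm, fun h0 => hw (funext fun i => by simpa using congrFun h0 (e i)),
    h.mono fun q hq z hz => ?_⟩
  have := hq (z ∘ e) fun i => by
    refine le_trans (le_of_eq ?_) (hz (e i))
    rw [← Equiv.sum_comp e]
    simp only [hv, Matrix.submatrix_apply]
  rw [← Equiv.sum_comp e]
  simpa only [hv, Function.comp_apply, Equiv.symm_apply_apply] using this

end Pool.Agent.MP_be2dd8_ag.H53
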