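import Pool.Agent.MP_be2dd8_ag.H53.Spec
import Pool.Agent.MP_077ac3_nt.H93.Vanish

set_option autoImplicit false
set_option linter.unusedSectionVars false

/-! Vanishing of the low order Taylor coefficients of the auxiliary polynomial, all places. -/

namespace Pool.Agent.MP_be2dd8_ag.H53

open MvPolynomial Finset Pool.Agent.MP_077ac3_nt.H18

namespace Van

section Norm

variable {K : Type} [Field K] (v : AbsoluteValue K ℝ)
variable {σ τ : Type} [Fintype σ] [DecidableEq σ] [Fintype τ] [DecidableEq τ]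

/-- weighted `ℓ¹` norm for the absolute value `v`. -/
noncomputable def nu (ρ : σ → ℝ) (P : MvPolynomial σ K) : ℝ :=
  ∑ J ∈ P.support, v (coeff J P) * ∏ s, ρ s ^ J s

theorem nu_eq_of_subset (ρ : σ → ℝ) (P : MvPolynomial σ K) {T : Finset (σ →₀ ℕ)}
    (hT : P.support ⊆ T) : nu v ρ P = ∑ J ∈ T, v (coeff J P) * ∏ s, ρ s ^ J s := by
  refine Finset.sum_subset hT fun J _ hJ => ?_
  rw [notMem_support_iff.1 hJ]; simp

variable {ρ : σ → ℝ}

theorem nu_nonneg (hρ : ∀ s, 0 ≤ ρ s) (P : MvPolynomial σ K) : 0 ≤ nu v ρ P :=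
  sum_nonneg fun _ _ => mul_nonneg (v.nonneg _) (prod_nonneg fun s _ => pow_nonneg (hρ s) _)

theorem coeff_le_nu (hρ : ∀ s, 0 ≤ ρ s) (P : MvPolynomial σ K) (J : σ →₀ ℕ) :
    v (coeff J P) * ∏ s, ρ s ^ J s ≤ nu v ρ P := by
  by_cases h : J ∈ P.support
  · exact single_le_sum (f := fun J => v (coeff J P) * ∏ s, ρ s ^ J s)
      (fun _ _ => mul_nonneg (v.nonneg _) (prod_nonneg fun s _ => pow_nonneg (hρ s) _)) h
  · rw [notMem_support_iff.1 h]; simpa using nu_nonneg v hρ P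

theorem nu_add (hρ : ∀ s, 0 ≤ ρ s) (P Q : MvPolynomial σ K) :
    nu v ρ (P + Q) ≤ nu v ρ P + nu v ρ Q := by
  rw [nu_eq_of_subset v ρ (P + Q) support_add, nu_eq_of_subset v ρ P (T := P.support ∪ Q.support)
    subset_union_left, nu_eq_of_subset v ρ Q (T := P.support ∪ Q.support) subset_union_right,
    ← sum_add_distrib]
  refine sum_le_sum fun J _ => ?_
  rw [← add_mul, coeff_add]
  exact mul_le_mul_of_nonneg_right (v.add_le _ _) (prod_nonneg fun s _ => pow_nonneg (hρ s) _)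

theorem nu_sum (hρ : ∀ s, 0 ≤ ρ s) {α : Type} (T : Finset α) (f : α → MvPolynomial σ K) :
    nu v ρ (∑ a ∈ T, f a) ≤ ∑ a ∈ T, nu v ρ (f a) := by
  classical
  induction T using Finset.induction_on with
  | empty => simp [nu]
  | insert a T ha ih =>
    rw [sum_insert ha, sum_insert ha]
    exact (nu_add v hρ _ _).trans (by linarith)

theorem nu_monomial (J : σ →₀ ℕ) (a : K) : nu v ρ (monomial J a) = v a * ∏ s, ρ s ^ J s := by
  rw [nu_eq_of_subset v ρ _ support_monomial_subset]; simp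

theorem nu_C (a : K) : nu v ρ (C a) = v a := by
  rw [C_apply, nu_monomial]; simp

theorem nu_X (s : σ) : nu v ρ (X s) = ρ s := by
  rw [X, nu_monomial, Finset.prod_eq_single s] <;> simp +contextual [eq_comm]

theorem nu_mul (hρ : ∀ s, 0 ≤ ρ s) (P Q : MvPolynomial σ K) :
    nu v ρ (P * Q) ≤ nu v ρ P * nu v ρ Q := by
  conv_lhs => rw [P.as_sum, Q.as_sum, sum_mul_sum]
  refine (nu_sum v hρ _ _).trans ?_
  rw [nu, nu, sum_mul_sum]
  refine sum_le_sum fun I _ => (nu_sum v hρ _ _).trans (le_of_eq (sum_congr rfl fun J _ => ?_))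
  rw [monomial_mul, nu_monomial, map_mul]
  simp only [Finsupp.add_apply, pow_add, prod_mul_distrib]
  ring

theorem nu_pow (hρ : ∀ s, 0 ≤ ρ s) (P : MvPolynomial σ K) (k : ℕ) :
    nu v ρ (P ^ k) ≤ nu v ρ P ^ k := by
  induction k with
  | zero => rw [pow_zero, pow_zero, ← C_1, nu_C, map_one]
  | succ k ih =>
    rw [pow_succ, pow_succ]
    exact (nu_mul v hρ _ _).trans (mul_le_mul_of_nonneg_right ih (nu_nonneg v hρ _))

theorem nu_prod (hρ : ∀ s, 0 ≤ ρ s) {α : Type} (T : Finset α) (f : α → MvPolynomial σ K) :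
    nu v ρ (∏ a ∈ T, f a) ≤ ∏ a ∈ T, nu v ρ (f a) := by
  classical
  induction T using Finset.induction_on with
  | empty => rw [prod_empty, prod_empty, ← C_1, nu_C, map_one]
  | insert a T ha ih =>
    rw [prod_insert ha, prod_insert ha]
    exact (nu_mul v hρ _ _).trans (mul_le_mul_of_nonneg_left ih (nu_nonneg v hρ _))

theorem nu_aeval (hρ : ∀ s, 0 ≤ ρ s) (φ : τ → MvPolynomial σ K) (β : τ → ℝ)
    (hβ : ∀ t, nu v ρ (φ t) ≤ β t) (P : MvPolynomial τ K) : nu v ρ (aeval φ P) ≤ nu v β P := by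
  rw [aeval_def, eval₂_eq']
  refine (nu_sum v hρ _ _).trans (sum_le_sum fun I _ => (nu_mul v hρ _ _).trans ?_)
  rw [algebraMap_eq, nu_C]
  refine mul_le_mul_of_nonneg_left ((nu_prod v hρ _ _).trans (prod_le_prod
    (fun t _ => nu_nonneg v hρ _) fun t _ => (nu_pow v hρ _ _).trans ?_)) (v.nonneg _)
  exact pow_le_pow_left₀ (nu_nonneg v hρ _) (hβ t) _

theorem nu_lin (hρ : ∀ s, 0 ≤ ρ s) {α : Type} [Fintype α] (a : α → K) (f : α → σ) :
    nu v ρ (∑ j, C (a j) * X (f j)) ≤ ∑ j, v (a j) * ρ (f j) :=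
  (nu_sum v hρ _ _).trans (sum_le_sum fun j _ => (nu_mul v hρ _ _).trans (by rw [nu_C, nu_X]))

end Norm

variable {K : Type} [Field K] {ι : Type} [Fintype ι] [DecidableEq ι] {m : ℕ}

theorem linK_eq (M : Matrix ι ι K) (P : MvPolynomial (Fin m × ι) ℤ) :
    linK M P = aeval (fun s : Fin m × ι => ∑ j, C (M s.2 j) * X (s.1, j))
      (map (Int.castRingHom K) P) := by
  induction P using MvPolynomial.induction_on with
  | C a => simp [linK]
  | add P Q hP hQ => simp only [map_add, hP, hQ]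
  | mul_X P s hP => simp only [map_mul, hP]; simp [linK]

theorem shift_eq (M : Matrix ι ι K) (hM : M.det ≠ 0) (y : Fin m × ι → ℤ)
    (P : MvPolynomial (Fin m × ι) ℤ) :
    map (Int.castRingHom K) (shift y P) =
      aeval (fun s : Fin m × ι => C (∑ k, M s.2 k * (y (s.1, k) : K)) + ∑ k, C (M s.2 k) * X (s.1, k))
        (linK M⁻¹ P) := by
  induction P using MvPolynomial.induction_on with
  | C a => simp [linK, shift]
  | add P Q hP hQ => simp only [map_add, hP, hQ]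
  | mul_X P s hP =>
    simp only [map_mul, hP]
    congr 1
    obtain ⟨h, i⟩ := s
    have hinv : ∀ k, ∑ j, M⁻¹ i j * M j k = if i = k then 1 else 0 := by
      intro k
      have := congrFun (congrFun (Matrix.nonsing_inv_mul M (Ne.isUnit hM)) i) k
      rwa [Matrix.mul_apply, Matrix.one_apply] at this
    have e : ∀ j, (C (∑ k, M j k * (y (h, k) : K)) + ∑ k, C (M j k) * X (h, k) :
        MvPolynomial (Fin m × ι) K) = ∑ k, C (M j k) * (C (y (h, k) : K) + X (h, k)) := by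
      intro j; simp [mul_add, sum_add_distrib]
    simp only [linK, shift, aeval_X, map_sum, map_mul, aeval_C, algebraMap_eq, map_add, map_C,
      map_X]
    simp only [← map_mul, ← map_sum, e]
    simp only [mul_sum, ← mul_assoc, ← map_mul]
    rw [sum_comm]
    simp only [← sum_mul, ← map_sum, hinv]
    rw [Finset.sum_eq_single i] <;> simp +contextual [eq_comm]

theorem nu_map_hom (v : AbsoluteValue K ℝ) (hv : ∀ n : ℤ, v (n : K) ≤ |(n : ℝ)|)
    (d : Fin m → ℕ) (P : MvPolynomial (Fin m × ι) ℤ) (hP : Hom d P)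
    (r : Fin m → ℝ) (hr : ∀ h, 0 ≤ r h) :
    nu v (fun s : Fin m × ι => r s.1) (map (Int.castRingHom K) P) ≤ l1 P * ∏ h, r h ^ d h := by
  rw [nu_eq_of_subset v _ _ (support_map_subset _ _), l1, sum_mul]
  refine sum_le_sum fun J hJ => ?_
  rw [coeff_map, Fintype.prod_prod_type]
  simp only [prod_pow_eq_pow_sum, hP J hJ]
  exact mul_le_mul_of_nonneg_right (hv _) (prod_nonneg fun h _ => pow_nonneg (hr h) _)

theorem upper (v : AbsoluteValue K ℝ) (hv : ∀ n : ℤ, v (n : K) ≤ |(n : ℝ)|)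
    (M : Matrix ι ι K) (hM : M.det ≠ 0) (c : ι → ℝ) (A B D Q T W : ℝ)
    (hA : ∀ i, |c i| ≤ A) (hA0 : 0 ≤ A) (hB : 0 ≤ B) (q : Fin m → ℝ) (hq0 : ∀ h, 0 ≤ q h)
    (d : Fin m → ℕ) (hd : ∀ h, 0 < d h) (hD : 0 ≤ D) (hQ : 0 ≤ Q) (hq1 : ∀ h, D ≤ d h * q h)
    (hq2 : ∀ h, d h * q h ≤ D + Q) (P : MvPolynomial (Fin m × ι) ℤ) (hP : Hom d P)
    (hbal : ∀ I ∈ (linK M⁻¹ P).support, ∀ i, T ≤ ∑ h, (I (h, i) : ℝ) / d h)
    (y : Fin m × ι → ℤ) (hy : ∀ h i, v (∑ j, M i j * (y (h, j) : K)) ≤ B * Real.exp (c i * q h))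
    (J : Fin m × ι →₀ ℕ) (hJ : wt (fun s => 1 / (d s.1 : ℝ)) J ≤ W) :
    v ((coeff J (shift y P) : ℤ) : K) ≤
      l1 P * ((∑ i, ∑ j, v (M⁻¹ i j)) * (B + ∑ i, ∑ j, v (M i j))) ^ (∑ h, d h) *
        Real.exp (A * ∑ h, d h * q h + D * T * ∑ i, (c i - A) + A * ((D + Q) * W)) := by
  set K1 := ∑ i, ∑ j, v (M i j) with hK1
  set K2 := ∑ i, ∑ j, v (M⁻¹ i j) with hK2
  have row : ∀ (N : Matrix ι ι K) i, ∑ j, v (N i j) ≤ ∑ i, ∑ j, v (N i j) := fun N i =>
    single_le_sum (f := fun i => ∑ j, v (N i j))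
      (fun _ _ => sum_nonneg fun _ _ => v.nonneg _) (mem_univ i)
  have hK10 : 0 ≤ K1 := sum_nonneg fun _ _ => sum_nonneg fun _ _ => v.nonneg _
  have hK20 : 0 ≤ K2 := sum_nonneg fun _ _ => sum_nonneg fun _ _ => v.nonneg _
  let ρ : Fin m × ι → ℝ := fun s => Real.exp (-A * q s.1)
  let ρ' : Fin m × ι → ℝ := fun s => (B + K1) * Real.exp (A * q s.1)
  let β : Fin m × ι → ℝ := fun s => (B + K1) * Real.exp (c s.2 * q s.1)
  have hρ : ∀ s, 0 ≤ ρ s := fun s => by positivity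
  have hρ' : ∀ s, 0 ≤ ρ' s := fun s => by positivity
  have h1 := coeff_le_nu v hρ (map (Int.castRingHom K) (shift y P)) J
  rw [coeff_map, shift_eq M hM] at h1
  have h2 := nu_aeval v hρ (fun s : Fin m × ι => C (∑ k, M s.2 k * (y (s.1, k) : K)) +
      ∑ k, C (M s.2 k) * X (s.1, k)) β (fun s => by
    refine (nu_add v hρ _ _).trans ?_
    rw [nu_C]
    have a1 := hy s.1 s.2
    have a2 := nu_lin v hρ (fun k => M s.2 k) (fun k => (s.1, k))
    have a3 : ∑ k, v (M s.2 k) * ρ (s.1, k) ≤ K1 * Real.exp (c s.2 * q s.1) := by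
      simp only [ρ, ← sum_mul]
      have : -A ≤ c s.2 := (abs_le.1 (hA s.2)).1
      have := hq0 s.1
      gcongr
      exact row M s.2
    simp only [β]; linarith) (linK M⁻¹ P)
  have h3 : nu v β (linK M⁻¹ P) ≤
      nu v ρ' (linK M⁻¹ P) * Real.exp (D * T * ∑ i, (c i - A)) := by
    rw [nu, nu, sum_mul]
    refine sum_le_sum fun I hI => ?_
    rw [mul_assoc]
    refine mul_le_mul_of_nonneg_left ?_ (v.nonneg _)
    have e : ∏ s, β s ^ I s = (∏ s, ρ' s ^ I s) *
        Real.exp (∑ s : Fin m × ι, (c s.2 - A) * (q s.1 * I s)) := by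
      rw [Real.exp_sum, ← prod_mul_distrib]
      refine prod_congr rfl fun s _ => ?_
      simp only [β, ρ', mul_pow, ← Real.exp_nat_mul, mul_assoc, ← Real.exp_add]
      congr 2; ring
    rw [e]
    refine mul_le_mul_of_nonneg_left (Real.exp_le_exp.2 ?_) (prod_nonneg fun s _ => by positivity)
    rw [Fintype.sum_prod_type_right, mul_sum]
    refine sum_le_sum fun i _ => ?_
    simp only [← mul_sum]
    have b1 := MP_077ac3_nt.H93.bal_le hd hD hq1 I i (hbal I hI i)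
    have b2 : c i - A ≤ 0 := by linarith [(abs_le.1 (hA i)).2]
    nlinarith
  have h4 : nu v ρ' (linK M⁻¹ P) ≤
      l1 P * (K2 * (B + K1)) ^ (∑ h, d h) * Real.exp (A * ∑ h, d h * q h) := by
    rw [linK_eq]
    refine (nu_aeval v hρ' _ (fun s : Fin m × ι => K2 * ((B + K1) * Real.exp (A * q s.1)))
      (fun s => (nu_lin v hρ' (fun k => M⁻¹ s.2 k) (fun k => (s.1, k))).trans ?_) _).trans ?_
    · simp only [ρ', ← sum_mul]
      gcongr
      exact row M⁻¹ s.2
    · refine (nu_map_hom v hv d P hP (fun h => K2 * ((B + K1) * Real.exp (A * q h)))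
        (fun h => by positivity)).trans ?_
      rw [mul_assoc, ← prod_pow_eq_pow_sum, mul_sum, Real.exp_sum, ← prod_mul_distrib]
      refine le_of_eq (congrArg _ (prod_congr rfl fun h _ => ?_))
      rw [← mul_assoc, mul_pow, ← Real.exp_nat_mul]
      congr 2; ring
  have h5 : 1 ≤ (∏ s, ρ s ^ J s) * Real.exp (A * ((D + Q) * W)) := by
    have e : ∏ s, ρ s ^ J s = Real.exp (-A * ∑ s : Fin m × ι, q s.1 * J s) := by
      rw [mul_sum, Real.exp_sum]
      refine prod_congr rfl fun s _ => ?_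
      simp only [ρ, ← Real.exp_nat_mul]
      congr 1; ring
    rw [e, ← Real.exp_add]
    refine Real.one_le_exp ?_
    have b1 := MP_077ac3_nt.H93.sum_wt_le hd hq2 J
    have b2 : (D + Q) * wt (fun s : Fin m × ι => 1 / (d s.1 : ℝ)) J ≤ (D + Q) * W := by gcongr
    nlinarith
  have h6 : v ((coeff J (shift y P) : ℤ) : K) * ∏ s, ρ s ^ J s ≤
      l1 P * (K2 * (B + K1)) ^ (∑ h, d h) * Real.exp (A * ∑ h, d h * q h) *
        Real.exp (D * T * ∑ i, (c i - A)) :=
    h1.trans (h2.trans (h3.trans (by gcongr)))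
  calc _ ≤ v ((coeff J (shift y P) : ℤ) : K) *
        ((∏ s, ρ s ^ J s) * Real.exp (A * ((D + Q) * W))) :=
        le_mul_of_one_le_right (v.nonneg _) h5
    _ ≤ l1 P * (K2 * (B + K1)) ^ (∑ h, d h) * Real.exp (A * ∑ h, d h * q h) *
        Real.exp (D * T * ∑ i, (c i - A)) * Real.exp (A * ((D + Q) * W)) := by
        rw [← mul_assoc]; gcongr
    _ = _ := by rw [Real.exp_add, Real.exp_add]; ring

theorem sum_aux {S : Type} [Fintype S] (k g u : S → ℝ) (a b t n w : ℝ) :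
    ∑ s, k s * (a * g s + (b + t * (u s - n) + w)) = a * ∑ s, k s * g s +
      ((∑ s, k s) * (b - t * n + w) + t * ∑ s, k s * u s) := by
  rw [mul_sum, sum_mul, mul_sum, ← sum_add_distrib, ← sum_add_distrib]
  exact sum_congr rfl fun s _ => by ring

end Van

open Van in
theorem vanG : VanG := by
  intro K ι S _ _ _ _ _ _ Pl M c hM hδ
  set δ := -∑ s, Pl.κ s * ∑ i, c s i with hδdef
  have hδ0 : 0 < δ := by linarith
  set κ := ∑ s, Pl.κ s with hκ
  have hκ0 : 0 ≤ κ := sum_nonneg fun s _ => (Pl.pos s).le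
  set A := ∑ s, ∑ i, |c s i| with hA
  have hA0 : 0 ≤ A := by positivity
  have hA1 : ∀ s i, |c s i| ≤ A := fun s i =>
    (single_le_sum (f := fun i => |c s i|) (fun _ _ => abs_nonneg _) (mem_univ i)).trans
      (single_le_sum (f := fun s => ∑ i, |c s i|) (fun _ _ => by positivity) (mem_univ s))
  set N : ℝ := (Fintype.card ι : ℝ) with hN
  have hN0 : 0 < N := by rw [hN]; exact_mod_cast Fintype.card_pos
  set η := δ / N with hη
  have hη0 : 0 < η := by positivity
  set ε := η / 2 / (δ + N * (κ * A) + κ * A) with hε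
  have hε0 : 0 < ε := by positivity
  have hε1 : ε * (δ + N * (κ * A) + κ * A) = η / 2 := by rw [hε]; field_simp
  refine ⟨ε, hε0, fun m C B hm hK hB => ?_⟩
  set G : S → ℝ := fun s =>
    (∑ i, ∑ j, Pl.v s ((M s)⁻¹ i j)) * (B + ∑ i, ∑ j, Pl.v s (M s i j)) with hG
  have hG0 : ∀ s, 0 ≤ G s := fun s =>
    mul_nonneg (sum_nonneg fun _ _ => sum_nonneg fun _ _ => (Pl.v s).nonneg _)
      (add_nonneg (by linarith) (sum_nonneg fun _ _ => sum_nonneg fun _ _ => (Pl.v s).nonneg _))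
  set F := ∑ s, Pl.κ s * (C * G s) with hF
  have hF0 : 0 ≤ F := sum_nonneg fun s _ =>
    mul_nonneg (Pl.pos s).le (mul_nonneg (by linarith) (hG0 s))
  refine ⟨1 + 4 * F / η, fun q hq => ?_⟩
  have hq0 : 0 ≤ 4 * F / η := by positivity
  have hq1 : ∀ h, 1 ≤ q h := fun h => by linarith [hq h]
  set Q := ∑ h, q h with hQ
  have hQ1 : ∀ h, q h ≤ Q := fun h =>
    single_le_sum (f := q) (fun h _ => by linarith [hq1 h]) (mem_univ h)
  have hQ0 : 0 ≤ Q := sum_nonneg fun h _ => by linarith [hq1 h]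
  set R := m * F + κ * A * Q + κ * A * (Q * (m * ε)) with hR
  have hR0 : 0 ≤ R := by positivity
  refine ⟨(R + 1) * 4 / η, fun D hD d hd P hP hl hb y hy J hJ => ?_⟩
  by_contra ha
  have hD0 : 0 < D := lt_of_lt_of_le (by positivity) hD
  have hd0 : ∀ h, 0 < d h := fun h => by
    by_contra h0
    have : d h = 0 := by omega
    have h1 := (hd h).1
    rw [this] at h1; simp at h1; linarith
  have hq2 : ∀ h, d h * q h ≤ D + Q := fun h => by linarith [(hd h).2, hQ1 h]
  have hlog : ∀ s, Real.log (Pl.v s ((coeff J (shift y P) : ℤ) : K)) ≤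
      (∑ h, d h : ℕ) * (C * G s) + (A * ∑ h, d h * q h +
        D * (m * (1 / N - ε)) * (∑ i, c s i - N * A) + A * ((D + Q) * (m * ε))) := by
    intro s
    have hu := upper (Pl.v s) (Pl.le s) (M s) (hM s) (c s) A B D Q (m * (1 / N - ε)) (m * ε)
      (hA1 s) hA0 (by linarith) q (fun h => by linarith [hq1 h]) d hd0 hD0.le hQ0
      (fun h => (hd h).1) hq2 P hP (hb s) y (hy s) J hJ
    have h1 : l1 P * G s ^ (∑ h, d h) ≤ Real.exp ((∑ h, d h : ℕ) * (C * G s)) := by
      have := hG0 s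
      calc _ ≤ C ^ (∑ h, d h) * G s ^ (∑ h, d h) := by gcongr
        _ = (C * G s) ^ (∑ h, d h) := by rw [mul_pow C]
        _ ≤ Real.exp (C * G s) ^ (∑ h, d h) := by
            have : 0 ≤ C * G s := mul_nonneg (by linarith) this
            gcongr; linarith [Real.add_one_le_exp (C * G s)]
        _ = _ := by rw [Real.exp_nat_mul]
    have h2 := hu.trans (mul_le_mul_of_nonneg_right h1 (Real.exp_pos _).le)
    rw [← Real.exp_add, sum_sub_distrib, sum_const, card_univ, nsmul_eq_mul, ← hN] at h2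
    have h3 : 0 < Pl.v s ((coeff J (shift y P) : ℤ) : K) :=
      (Pl.v s).pos (by exact_mod_cast ha)
    exact (Real.log_le_iff_le_exp h3).2 h2
  have h2 : 0 ≤ (∑ h, d h : ℕ) * F + (κ * A * ∑ h, d h * q h +
      D * (m * (1 / N - ε)) * (-δ - N * (κ * A)) + κ * A * ((D + Q) * (m * ε))) := by
    refine (Pl.pf _ ha).trans ((sum_le_sum fun s _ =>
      mul_le_mul_of_nonneg_left (hlog s) (Pl.pos s).le).trans (le_of_eq ?_))
    rw [sum_aux, hδdef, neg_neg, ← hF, ← hκ]
    ring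
  have h3 : ∑ h, (d h : ℝ) * q h ≤ m * D + Q := by
    calc _ ≤ ∑ h, (D + q h) := sum_le_sum fun h _ => (hd h).2
      _ = _ := by rw [sum_add_distrib, sum_const, card_univ, Fintype.card_fin, nsmul_eq_mul]
  have h4 : ((∑ h, d h : ℕ) : ℝ) * F ≤ m * (D * η / 4 + F) := by
    push_cast
    rw [sum_mul]
    calc _ ≤ ∑ _h : Fin m, (D * η / 4 + F) := sum_le_sum fun h _ => ?_
      _ = _ := by rw [sum_const, card_univ, Fintype.card_fin, nsmul_eq_mul]
    have a1 := (hd h).2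
    have a2 := hq1 h
    have a3 : 4 * F ≤ η * q h := by
      have : 4 * F / η ≤ q h := by linarith [hq h]
      rwa [div_le_iff₀ hη0, mul_comm (q h)] at this
    have a4 : ((d h : ℝ) - 1) * q h ≤ D := by linarith
    have a5 : (0 : ℝ) ≤ (d h : ℝ) - 1 := by
      have : (1 : ℝ) ≤ d h := by exact_mod_cast hd0 h
      linarith
    have a6 : ((d h : ℝ) - 1) * (4 * F) ≤ ((d h : ℝ) - 1) * (η * q h) := by gcongr
    have a7 : η * (((d h : ℝ) - 1) * q h) ≤ η * D := by gcongr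
    nlinarith
  have h5 : R + 1 ≤ D * η / 4 := by
    rw [div_le_iff₀ hη0] at hD; linarith
  have hm1 : (1 : ℝ) ≤ m := by exact_mod_cast hm
  have h6 : D * η / 4 ≤ m * (D * η / 4) := le_mul_of_one_le_left (by positivity) hm1
  have h7 : κ * A * ∑ h, (d h : ℝ) * q h ≤ κ * A * (m * D + Q) := by gcongr
  have e1 : (1 / N) * δ = η := by rw [hη]; field_simp
  have e2 : (1 / N) * (N * (κ * A)) = κ * A := by field_simp
  have e4 : D * (m * (1 / N - ε)) * (-δ - N * (κ * A)) =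
      -(D * m * (η + κ * A - ε * (δ + N * (κ * A)))) := by
    rw [← e1]; nth_rewrite 2 [← e2]; ring
  have e5 : D * m * (η + κ * A - ε * (δ + N * (κ * A))) =
      D * m * (η / 2 + κ * A + ε * (κ * A)) := by
    congr 1; linarith
  rw [e4, e5] at h2
  nlinarith

end Pool.Agent.MP_be2dd8_ag.H53
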