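import Pool.Agent.MP_be2dd8_ag.H53.Ug
import Pool.Agent.MP_be2dd8_ag.H53.Sub
import Pool.Agent.MP_be2dd8_ag.H53.Ht
import Pool.Agent.MP_be2dd8_ag.H53.Van
import Pool.Agent.MP_be2dd8_ag.H53.AuxG
import Pool.Agent.MP_be2dd8_ag.H53.Sp
import Pool.Agent.MP_077ac3_nt.H18.GRoth
import Pool.Agent.MP_077ac3_nt.H15.Roth
import Pool.Agent.MP_077ac3_nt.H38.Geom

/-! The Subspace Theorem at arbitrary places and the unit equation theorem, unconditionally. -/

set_option autoImplicit false

namespace Pool.Agent.MP_be2dd8_ag.H53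

open Pool.Agent.MP_077ac3_nt

theorem subspace : SubG :=
  subG (coreG (H18.groth_of H15.roth) auxG vanG heightG) H38.geom

theorem unitEq (F : Type) [Field F] [CharZero F] : UnitEq F := unitAll (unitGal subspace) F

end Pool.Agent.MP_be2dd8_ag.H53
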