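import Pool.Agent.MP_be2dd8_ag.H53.Core
import Pool.Agent.MP_be2dd8_ag.H53.Kit
import Pool.Agent.MP_be2dd8_ag.H53.Bo
import Pool.Agent.MP_be2dd8_ag.H53.Gl

/-! Return sets of orbits that escape at a place of residue characteristic zero. -/

set_option autoImplicit false

namespace Pool.Agent.MP_be2dd8_ag.H53

open Filter Topology

section

variable {F : Type} [NormedField F]

lemma an_pow {N : ℕ} (Z : Fin N → Prop) (c : F) (i : Fin N) (k : ℕ) :
    An Z 1 fun v => c * v i ^ k := by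
  simpa only [mon_single] using An.monomial (Z := Z) 1 c (Pi.single i k)

lemma par_per (d : ℕ) (x : ℕ → F) {M p : ℕ} (hp : 0 < p) (h : ∀ n, M ≤ n → x (n + p) = x n) :
    Par d x :=
  ⟨fun _ => 1, 1, fun n v => x n * v ^ 1, M, p, True, hp,
    fun n hn => ⟨by simp, by simp, by simp, by simp only [h n hn]⟩, fun h => absurd trivial h,
    fun n _ i Z _ => an_pow Z _ i 1⟩

lemma par_exc0 {d : ℕ} (hd : 2 ≤ d) (x u : ℕ → F) (a b c β : F)
    (h : ∀ n, u n ≠ 0 ∧ u (n + 1) = β * u n ^ d ∧ x n = a * u n + b + c / u n)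
    (h0 : ‖β‖ * ‖u 0‖ ^ (d - 1) ≤ 1) : Par d x := by
  obtain ⟨e, rfl⟩ : ∃ e, d = e + 1 := ⟨d - 1, by omega⟩
  rw [Nat.add_sub_cancel] at h0
  have hβ : β ≠ 0 := fun h1 => (h 1).1 (by rw [(h 0).2.1, h1, zero_mul])
  have hu0 := (h 0).1
  have h1 : ∀ n, ‖u n‖ ≤ ‖u 0‖ := by
    intro n
    induction n with
    | zero => rfl
    | succ n ih =>
      rw [(h n).2.1, norm_mul, norm_pow, pow_succ, ← mul_assoc]
      calc ‖β‖ * ‖u n‖ ^ e * ‖u n‖ ≤ ‖β‖ * ‖u 0‖ ^ e * ‖u 0‖ := by gcongr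
        _ ≤ 1 * ‖u 0‖ := by gcongr
        _ = _ := one_mul _
  refine ⟨fun n => Units.mk0 (u n / u 0) (div_ne_zero (h n).1 hu0),
    Units.mk0 (β * u 0 ^ e) (mul_ne_zero hβ (pow_ne_zero _ hu0)),
    fun _ v => a * u 0 * v ^ 2 + b * v ^ 1 + c / u 0 * v ^ 0, 0, 1, True, one_pos,
    fun n _ => ⟨Units.ext ?_, ?_, ?_, rfl⟩, fun h => absurd trivial h,
    fun n _ i Z _ => ((an_pow Z _ i 2).add (an_pow Z _ i 1)).add (an_pow Z _ i 0)⟩
  · simp only [Units.val_mul, Units.val_pow_eq_pow_val, Units.val_mk0, (h n).2.1, div_pow]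
    field_simp
    ring
  · rw [Units.val_mk0, norm_div]
    exact div_le_one_of_le₀ (h1 n) (norm_nonneg _)
  · have := (h n).1
    simp only [Units.val_mk0, (h n).2.2]
    field_simp

lemma par_exc {d : ℕ} (hd : 2 ≤ d) (x u : ℕ → F) (a b c β : F)
    (h : ∀ n, u n ≠ 0 ∧ u (n + 1) = β * u n ^ d ∧ x n = a * u n + b + c / u n) : Par d x := by
  rcases le_total (‖β‖ * ‖u 0‖ ^ (d - 1)) 1 with h0 | h0
  · exact par_exc0 hd x u a b c β h h0
  · refine par_exc0 hd x (fun n => (u n)⁻¹) c b a β⁻¹ (fun n => ⟨inv_ne_zero (h n).1, ?_, ?_⟩) ?_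
    · rw [(h n).2.1, mul_inv, inv_pow]
    · rw [(h n).2.2, div_inv_eq_mul, div_eq_mul_inv]
      ring
    · rw [norm_inv, norm_inv, inv_pow, ← mul_inv]
      exact inv_le_one_of_one_le₀ h0

lemma par_small [CompleteSpace F] {d : ℕ} (hd : 2 ≤ d) (x c u : ℕ → F) (β : F) (R : ℝ) (M : ℕ)
    (hc : ∀ k, ‖c k‖ ≤ R) (hu : Tendsto u atTop (𝓝 0))
    (h : ∀ n, M ≤ n → u n ≠ 0 ∧ ‖u n‖ < 1 ∧ u (n + 1) = β * u n ^ d ∧
      HasSum (fun k => c k * u n ^ k) (x n * u n)) : Par d x := by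
  classical
  obtain ⟨e, rfl⟩ : ∃ e, d = e + 1 := ⟨d - 1, by omega⟩
  obtain ⟨hu0, hu1, h2, -⟩ := h M le_rfl
  have hβ : β ≠ 0 := fun h1 => (h (M + 1) (by omega)).1 (by rw [h2, h1, zero_mul])
  obtain ⟨M', hM'⟩ := eventually_atTop.1 ((eventually_ge_atTop M).and
    ((tendsto_zero_iff_norm_tendsto_zero.1 hu).eventually (ge_mem_nhds (norm_pos_iff.2 hu0))))
  have hs : Summable fun k => ‖c k * u M ^ k / u M‖ * (1 : ℝ) ^ k := by
    refine (((summable_geometric_of_lt_one (norm_nonneg _) hu1).mul_left R).div_const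
      ‖u M‖).of_nonneg_of_le (fun k => by positivity) fun k => ?_
    rw [one_pow, mul_one, norm_div, norm_mul, norm_pow]
    gcongr
    exact hc k
  have hw : ∀ n, M ≤ n → ((if h : u n = 0 then 1 else Units.mk0 (u n / u M) (div_ne_zero h hu0) :
      Fˣ) : F) = u n / u M := fun n hn => by rw [dif_neg (h n hn).1, Units.val_mk0]
  refine ⟨fun n => if h : u n = 0 then 1 else Units.mk0 (u n / u M) (div_ne_zero h hu0),
    Units.mk0 (β * u M ^ e) (mul_ne_zero hβ (pow_ne_zero _ hu0)),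
    fun _ v => ∑' k, c k * u M ^ k / u M * v ^ k, M', 1, False, one_pos,
    fun n hn => ⟨Units.ext ?_, ?_, ?_, rfl⟩, fun _ => ?_,
    fun n _ i Z hZ => An.one_var i (hZ not_false) _ (fun v => ∑' k, c k * u M ^ k / u M * v ^ k)
      hs fun v hv => ?_⟩
  · have h1 := (hM' n hn).1
    rw [Units.val_mul, Units.val_pow_eq_pow_val, hw n h1, hw _ (by omega), Units.val_mk0,
      (h n h1).2.2.1, div_pow]
    field_simp
    ring
  · rw [hw n (hM' n hn).1, norm_div]
    exact div_le_one_of_le₀ (hM' n hn).2 (norm_nonneg _)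
  · have h1 := (hM' n hn).1
    rw [hw n h1, ← mul_div_assoc]
    refine (HasSum.tsum_eq (((h n h1).2.2.2.div_const (u M)).congr_fun fun k => ?_)).symm
    rw [div_pow]
    field_simp
  · have := hu.div_const (u M)
    rw [zero_div] at this
    exact this.congr' ((eventually_ge_atTop M).mono fun n hn => (hw n hn).symm)
  · refine (Summable.of_norm_bounded hs fun k => ?_).hasSum
    rw [norm_mul, norm_pow]
    gcongr

end

/-- descent of the equations to the field of definition of the point -/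
lemma descend {K F : Type} [Field K] [Field F] (e : K →+* ℂ) (φ : K →+* F) {N : ℕ}
    (T : Set (MvPolynomial (Fin N) ℂ)) : ∃ T' : Set (MvPolynomial (Fin N) F), ∀ y : Fin N → K,
      (∀ p ∈ T, MvPolynomial.eval (fun i => e (y i)) p = 0) ↔
        ∀ q ∈ T', MvPolynomial.eval (fun i => φ (y i)) q = 0 := by
  let := e.toAlgebra
  refine ⟨{q | ∃ p ∈ T, ∃ l : Module.Dual K ℂ,
    q = ∑ m ∈ p.support, MvPolynomial.monomial m (φ (l (p.coeff m)))}, fun y => ?_⟩
  have key : ∀ (p : MvPolynomial (Fin N) ℂ) (l : Module.Dual K ℂ),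
      MvPolynomial.eval (fun i => φ (y i))
        (∑ m ∈ p.support, MvPolynomial.monomial m (φ (l (p.coeff m)))) =
      φ (l (MvPolynomial.eval (fun i => e (y i)) p)) := by
    intro p l
    rw [map_sum, MvPolynomial.eval_eq' _ p, map_sum, map_sum]
    refine Finset.sum_congr rfl fun m _ => ?_
    have : p.coeff m * ∏ i, e (y i) ^ m i = (∏ i, y i ^ m i) • p.coeff m := by
      rw [Algebra.smul_def, mul_comm, RingHom.algebraMap_toAlgebra]
      simp
    rw [this, map_smul, MvPolynomial.eval_monomial, Finsupp.prod_fintype _ _ (by simp),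
      smul_eq_mul, map_mul, mul_comm]
    simp
  constructor
  · rintro h _ ⟨p, hp, l, rfl⟩
    rw [key, h p hp, map_zero, map_zero]
  · intro h p hp
    refine (Module.forall_dual_apply_eq_zero_iff K _).1 fun l => φ.injective ?_
    rw [← key, h _ ⟨p, hp, l, rfl⟩, map_zero]

theorem main {N : ℕ} {K k : Type} [Field K] [Field k] [CharZero k] (e : K →+* ℂ)
    (ι : K →+* LaurentSeries k) (f : Fin N → Polynomial K) (x : Fin N → ℕ → K)
    (hx : ∀ i n, x i (n + 1) = (f i).eval (x i n)) (hf : ∀ i, 1 < (f i).natDegree)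
    (h : ∀ i, (Set.range (x i)).Finite ∨ (∀ B : ℤ, ∃ n, (ι (x i n)).order < B) ∨
      ∃ (a b c β : K) (u : ℕ → K), ∀ n, u n ≠ 0 ∧ u (n + 1) = β * u n ^ (f i).natDegree ∧
        x i n = a * u n + b + c / u n)
    (T : Set (MvPolynomial (Fin N) ℂ)) :
    ∃ (m : ℕ) (γ : Fin m → Fin N → ℕ) (H : Fin m → AddSubgroup (Fin N → ℤ)),
      {n : Fin N → ℕ | ∀ q ∈ T, MvPolynomial.eval (fun i => e (x i (n i))) q = 0}
        = {n : Fin N → ℕ | ∃ j : Fin m, ∃ h ∈ H j,
            (∀ i, 0 ≤ h i) ∧ ∀ i, (n i : ℤ) = (γ j i : ℤ) + h i} := by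
  obtain ⟨F, _, _, _, j, δ, C, h1, h2, h3⟩ := laur k
  set φ : K →+* F := j.comp ι with hφ
  have : CharZero K := e.charZero
  have : CharZero F := (RingHom.charZero_iff φ.injective).1 inferInstance
  have hn : ∀ n : ℕ, n ≠ 0 → ‖(n : F)‖ = 1 := by
    intro n hn
    have h4 : δ (n : F) = 0 := δ.map_natCast n
    have h5 := h2 (n : F)⁻¹ (by rw [δ.leibniz_inv, h4, smul_zero])
    rw [norm_inv] at h5
    exact le_antisymm (h2 _ h4)
      ((inv_le_one₀ (norm_pos_iff.2 (Nat.cast_ne_zero.2 hn))).1 h5)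
  obtain ⟨T', hT'⟩ := descend e φ T
  have := core (unitEq F) (unitEq ℚ) (gap F δ C h1 h2) (fun i => (f i).natDegree) hf
    (fun i n => φ (x i n)) (fun i => ?_) T'
  · simpa only [hT'] using this
  rcases h i with hi | hi | ⟨a, b, c, β, u, hi⟩
  · obtain ⟨M, p, hp, hper⟩ := H15.periodic_of_finite (x i) (fun z => (f i).eval z) 0
      (fun n _ => hx i n) hi fun n _ => ⟨n, rfl⟩
    exact par_per _ _ hp fun n hn => by rw [hper n hn]
  · obtain ⟨c, u, β, R, M, h4, h5, h6⟩ := boett F hn ((f i).map φ)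
      (by rw [Polynomial.natDegree_map]; exact hf i) (fun n => φ (x i n))
      (fun n => by rw [hx, Polynomial.eval_map, Polynomial.eval₂_at_apply]) (fun R => by
        obtain ⟨m, hm⟩ := pow_unbounded_of_one_lt R (one_lt_two (α := ℝ))
        obtain ⟨n, h7⟩ := hi (-m)
        refine ⟨n, hm.trans ?_⟩
        have h8 : ι (x i n) ≠ 0 := by
          intro h9
          rw [h9, HahnSeries.order_zero] at h7
          omega
        rw [hφ, RingHom.comp_apply, h3 _ h8, ← zpow_natCast]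
        exact zpow_lt_zpow_right₀ one_lt_two (by omega))
    rw [Polynomial.natDegree_map] at h6
    exact par_small (hf i) _ c u β R M h4 h5 h6
  · exact par_exc (hf i) _ (fun n => φ (u n)) (φ a) (φ b) (φ c) (φ β) fun n =>
      ⟨(map_ne_zero φ).2 (hi n).1, by rw [(hi n).2.1, map_mul, map_pow],
        by rw [(hi n).2.2, map_add, map_add, map_mul, map_div₀]⟩

end Pool.Agent.MP_be2dd8_ag.H53
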