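import Pool.Agent.MP_be2dd8_ag.H15.Main

/-! Absolutely convergent power series over a complete field and a leading term principle. -/

set_option autoImplicit false

namespace Pool.Agent.MP_be2dd8_ag.H53

open Filter Topology

variable {N : ℕ} {F : Type} [NormedField F]

/-- the monomial with exponent `a` -/
noncomputable def mon (a : Fin N → ℕ) (u : Fin N → F) : F := ∏ i, u i ^ a i

lemma mon_add (a b : Fin N → ℕ) (u : Fin N → F) : mon (a + b) u = mon a u * mon b u := by
  simp [mon, pow_add, Finset.prod_mul_distrib]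

lemma mon_ne {a : Fin N → ℕ} {u : Fin N → F} (h : ∀ i, u i ≠ 0) : mon a u ≠ 0 :=
  Finset.prod_ne_zero_iff.2 fun i _ => pow_ne_zero _ (h i)

lemma norm_mon_le {r : ℝ} (a : Fin N → ℕ) {u : Fin N → F} (h : ∀ i, ‖u i‖ ≤ r) :
    ‖mon a u‖ ≤ r ^ (∑ i, a i) := by
  rw [mon, norm_prod, ← Finset.prod_pow_eq_pow_sum]
  exact Finset.prod_le_prod (fun i _ => norm_nonneg _) fun i _ => by
    rw [norm_pow]; exact pow_le_pow_left₀ (norm_nonneg _) (h i) _

lemma mon_single (i : Fin N) (k : ℕ) (u : Fin N → F) : mon (Pi.single i k) u = u i ^ k := by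
  rw [mon, Finset.prod_eq_single i (fun j _ hj => by simp [Pi.single_eq_of_ne hj]) (by simp)]
  simp

/-- sums of absolutely convergent series of monomials on the closed polydisc of radius `r`,
polynomial in the variables of `Z` -/
def An (Z : Fin N → Prop) (r : ℝ) (G : (Fin N → F) → F) : Prop :=
  ∃ (I : Type) (c : I → F) (a : I → Fin N → ℕ) (D : ℕ), (∀ s i, Z i → a s i ≤ D) ∧
    Summable (fun s => ‖c s‖ * r ^ (∑ i, a s i)) ∧
    ∀ u : Fin N → F, (∀ i, ‖u i‖ ≤ r) → HasSum (fun s => c s * mon (a s) u) (G u)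

lemma summable_term {r : ℝ} {I : Type} {c : I → F} {a : I → Fin N → ℕ}
    (h : Summable (fun s => ‖c s‖ * r ^ (∑ i, a s i))) {u : Fin N → F} (hu : ∀ i, ‖u i‖ ≤ r) :
    Summable fun s => ‖c s * mon (a s) u‖ :=
  h.of_nonneg_of_le (fun _ => norm_nonneg _) fun s => by
    rw [norm_mul]; exact mul_le_mul_of_nonneg_left (norm_mon_le _ hu) (norm_nonneg _)

variable {Z : Fin N → Prop}

lemma An.monomial (r : ℝ) (c : F) (a : Fin N → ℕ) : An Z r fun u => c * mon a u :=
  ⟨Unit, fun _ => c, fun _ => a, ∑ i, a i, fun _ i _ =>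
    Finset.single_le_sum (f := a) (fun _ _ => Nat.zero_le _) (Finset.mem_univ i),
    (hasSum_fintype _).summable, fun u _ => by simp⟩

lemma An.add {r : ℝ} {G H : (Fin N → F) → F} (hG : An Z r G) (hH : An Z r H) :
    An Z r fun u => G u + H u := by
  obtain ⟨I, c, a, D, h0, h1, h2⟩ := hG
  obtain ⟨J, d, b, E, h5, h3, h4⟩ := hH
  refine ⟨I ⊕ J, Sum.elim c d, Sum.elim a b, D + E, ?_, Summable.sum _ h1 h3,
    fun u hu => HasSum.sum (h2 u hu) (h4 u hu)⟩
  rintro (s | s) i hi
  · exact (h0 s i hi).trans (Nat.le_add_right _ _)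
  · exact (h5 s i hi).trans (Nat.le_add_left _ _)

lemma An.one_var {r : ℝ} (i : Fin N) (hi : ¬ Z i) (c : ℕ → F) (g : F → F)
    (h1 : Summable fun j => ‖c j‖ * r ^ j)
    (h2 : ∀ z, ‖z‖ ≤ r → HasSum (fun j => c j * z ^ j) (g z)) :
    An Z r fun u : Fin N → F => g (u i) :=
  ⟨ℕ, c, fun j => Pi.single i j, 0, fun s j hj => by
    simp [Pi.single_eq_of_ne (fun e : j = i => hi (e ▸ hj))], by simpa using h1, fun u hu => by
    simpa only [mon_single] using h2 (u i) (hu i)⟩

variable [CompleteSpace F]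

lemma An.mul {r : ℝ} (hr : 0 ≤ r) {G H : (Fin N → F) → F} (hG : An Z r G) (hH : An Z r H) :
    An Z r fun u => G u * H u := by
  obtain ⟨I, c, a, D, h0, h1, h2⟩ := hG
  obtain ⟨J, d, b, E, h7, h3, h4⟩ := hH
  refine ⟨I × J, fun s => c s.1 * d s.2, fun s => a s.1 + b s.2, D + E,
    fun s i hi => Nat.add_le_add (h0 _ i hi) (h7 _ i hi), ?_, fun u hu => ?_⟩
  · refine (h1.mul_of_nonneg h3 (fun s => by positivity) (fun s => by positivity)).congr
      fun s => ?_
    simp only [Pi.add_apply, Finset.sum_add_distrib, pow_add, norm_mul]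
    ring
  · have h5 : Summable fun x : I × J => (c x.1 * mon (a x.1) u) * (d x.2 * mon (b x.2) u) :=
      summable_mul_of_summable_norm (f := fun s => c s * mon (a s) u)
        (g := fun s => d s * mon (b s) u) (summable_term h1 hu) (summable_term h3 hu)
    have h6 := HasSum.mul (f := fun s => c s * mon (a s) u) (g := fun s => d s * mon (b s) u)
      (h2 u hu) (h4 u hu) h5
    have e : (fun s : I × J => c s.1 * d s.2 * mon (a s.1 + b s.2) u) =
        fun x : I × J => (c x.1 * mon (a x.1) u) * (d x.2 * mon (b x.2) u) := by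
      funext s; rw [mon_add]; ring
    rw [e]; exact h6

/-- clearing denominators in a polynomial of meromorphic functions -/
lemma An.poly {r : ℝ} (hr : 0 ≤ r) (g : Fin N → (Fin N → F) → F) (hg : ∀ i, An Z r (g i))
    (p : MvPolynomial (Fin N) F) :
    ∃ (D : Fin N → ℕ) (G : (Fin N → F) → F), An Z r G ∧ ∀ u x : Fin N → F,
      (∀ i, x i * u i = g i u) → G u = MvPolynomial.eval x p * mon D u := by
  induction p using MvPolynomial.induction_on with
  | C c => exact ⟨0, _, An.monomial r c 0, fun u x _ => by simp⟩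
  | add p q hp hq =>
    obtain ⟨D, G, hG, h1⟩ := hp
    obtain ⟨E, H, hH, h2⟩ := hq
    refine ⟨D + E, _, (hG.mul hr (An.monomial r 1 E)).add (hH.mul hr (An.monomial r 1 D)),
      fun u x hx => ?_⟩
    rw [h1 u x hx, h2 u x hx, mon_add, map_add]
    ring
  | mul_X p i hp =>
    obtain ⟨D, G, hG, h1⟩ := hp
    refine ⟨D + Pi.single i 1, _, hG.mul hr (hg i), fun u x hx => ?_⟩
    rw [h1 u x hx, mon_add, mon_single, map_mul, MvPolynomial.eval_X, ← hx i]
    ring

/-- collecting the terms with the same exponent -/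
lemma An.collapse {r : ℝ} (hr : 0 < r) {G : (Fin N → F) → F} (hG : An Z r G) :
    ∃ (c : (Fin N → ℕ) → F) (D : ℕ), (∀ a, c a ≠ 0 → ∀ i, Z i → a i ≤ D) ∧
      Summable (fun a => ‖c a‖ * r ^ (∑ i, a i)) ∧
      ∀ u : Fin N → F, (∀ i, ‖u i‖ ≤ r) → HasSum (fun a => c a * mon a u) (G u) := by
  obtain ⟨I, c, a, D, h0, h1, h2⟩ := hG
  have h3 := (Equiv.sigmaFiberEquiv a).summable_iff.2 h1
  have h4 := (summable_sigma_of_nonneg (fun s => by
    simp only [Function.comp]; positivity)).1 h3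
  have h5 : ∀ b : Fin N → ℕ, Summable fun s : {s // a s = b} => ‖c s‖ := by
    intro b
    refine ((h4.1 b).div_const (r ^ (∑ i, b i))).congr fun s => ?_
    have : a s = b := s.2
    simp only [Function.comp, Equiv.sigmaFiberEquiv, Equiv.coe_fn_mk, this]
    field_simp
  refine ⟨fun b => ∑' s : {s // a s = b}, c s, D, fun b hb i hi => ?_, ?_, fun u hu => ?_⟩
  · by_contra hlt
    apply hb
    have : IsEmpty {s // a s = b} := ⟨fun s => hlt (s.2 ▸ h0 s i hi)⟩
    exact tsum_empty
  · refine h4.2.of_nonneg_of_le (fun b => by positivity) fun b => ?_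
    refine (mul_le_mul_of_nonneg_right (norm_tsum_le_tsum_norm (h5 b)) (by positivity)).trans ?_
    rw [← tsum_mul_right]
    refine le_of_eq (tsum_congr fun s => ?_)
    have : a s = b := s.2
    simp only [Function.comp, Equiv.sigmaFiberEquiv, Equiv.coe_fn_mk, this]
  · refine HasSum.sigma ((Equiv.sigmaFiberEquiv a).hasSum_iff.2 (h2 u hu)) fun b => ?_
    have := ((h5 b).of_norm.hasSum).mul_right (mon b u)
    refine HasSum.congr_fun this fun s => ?_
    have : a s = b := s.2
    simp only [Function.comp, Equiv.sigmaFiberEquiv, Equiv.coe_fn_mk, this]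

omit [CompleteSpace F] in
/-- comparable exponents form a finite set -/
lemma finite_class {X : Type*} {r : ℝ} (hr1 : r ≤ 1) (U : Ultrafilter X) (u : X → Fin N → F)
    (h0 : ∀ᶠ x in (U : Filter X), ∀ i, u x i ≠ 0 ∧ ‖u x i‖ ≤ r)
    (hsm : ∀ i, ¬ Z i → Tendsto (fun x => u x i) U (𝓝 0)) (D : ℕ) (E : Set (Fin N → ℕ))
    (hD : ∀ a ∈ E, ∀ i, Z i → a i ≤ D)
    (hE : ∀ a ∈ E, ∀ b ∈ E, ∃ K : ℝ, ∀ᶠ x in (U : Filter X),
      ‖mon a (u x)‖ ≤ K * ‖mon b (u x)‖) : E.Finite := by
  classical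
  have key : ∀ z : Fin N → ℕ, {a ∈ E | ∀ i, Z i → a i = z i}.Finite := by
    intro z
    refine IsAntichain.finite_of_partiallyWellOrderedOn (r := (· ≤ ·)) ?_
      (Set.isPWO_of_wellQuasiOrderedLE _)
    rintro a ⟨ha, ha'⟩ b ⟨hb, hb'⟩ hne hle
    obtain ⟨j, hj⟩ := Function.ne_iff.1 hne
    have hZ : ¬ Z j := fun h => hj ((ha' j h).trans (hb' j h).symm)
    have hlt : a + Pi.single j 1 ≤ b := by
      intro i
      by_cases hi : i = j
      · subst hi
        have h1 : a i ≤ b i := hle i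
        have h2 : a i ≠ b i := hj
        simp only [Pi.add_apply, Pi.single_eq_same]
        omega
      · simpa [Pi.single_eq_of_ne hi] using hle i
    obtain ⟨e, he⟩ := exists_add_of_le hlt
    obtain ⟨K, hK⟩ := hE a ha b hb
    have h1 := (tendsto_zero_iff_norm_tendsto_zero.1 (hsm j hZ)).const_mul |K|
    rw [mul_zero] at h1
    obtain ⟨x, hx, h2, h3⟩ := (h0.and (hK.and (h1.eventually (gt_mem_nhds zero_lt_one)))).exists
    have h4 : 0 < ‖mon a (u x)‖ := norm_pos_iff.2 (mon_ne fun i => (hx i).1)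
    have h5 : ‖mon e (u x)‖ ≤ 1 := by
      simpa using norm_mon_le e (r := 1) fun i => (hx i).2.trans hr1
    rw [he, mon_add, mon_add, mon_single, pow_one, norm_mul, norm_mul] at h2
    have h6 : K * (‖mon a (u x)‖ * ‖u x j‖ * ‖mon e (u x)‖) ≤
        ‖mon a (u x)‖ * (|K| * ‖u x j‖) * 1 := by
      calc _ ≤ |K| * (‖mon a (u x)‖ * ‖u x j‖ * ‖mon e (u x)‖) :=
            mul_le_mul_of_nonneg_right (le_abs_self K) (by positivity)
        _ = ‖mon a (u x)‖ * (|K| * ‖u x j‖) * ‖mon e (u x)‖ := by ring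
        _ ≤ _ := by gcongr
    nlinarith
  refine ((Set.finite_Iic (fun _ : Fin N => D)).biUnion fun z _ => key z).subset fun a ha => ?_
  refine Set.mem_biUnion (x := fun i => if Z i then a i else 0) (fun i => ?_) ⟨ha, fun i hi => ?_⟩
  · by_cases hi : Z i
    · simpa [hi] using hD a ha i hi
    · simp [hi]
  · simp [hi]

/-- the leading term principle -/
theorem An.vanish {X : Type*} {r : ℝ} (hr : 0 < r) (hr1 : r ≤ 1) {G : (Fin N → F) → F}
    (hG : An Z r G) (U : Ultrafilter X) (C : Set X) (hC : C ∈ U) (u : X → Fin N → F)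
    (h0 : ∀ x ∈ C, ∀ i, u x i ≠ 0) (hur : ∀ x ∈ C, ∀ i, ‖u x i‖ ≤ r)
    (hsm : ∀ i, ¬ Z i → Tendsto (fun x => u x i) U (𝓝 0))
    (hkey : ∀ (E : Finset (Fin N → ℕ)) (c : (Fin N → ℕ) → F),
      (∀ x ∈ C, ∑ a ∈ E, c a * mon a (u x) = 0) ∨ ∃ ε : ℝ, 0 < ε ∧ ∀ᶠ x in (U : Filter X),
        ∃ a ∈ E, ε * ‖mon a (u x)‖ ≤ ‖∑ a ∈ E, c a * mon a (u x)‖)
    (hz : ∀ᶠ x in (U : Filter X), G (u x) = 0) : ∀ x ∈ C, G (u x) = 0 := by
  classical
  obtain ⟨c, D, hD, hs, hsum⟩ := hG.collapse hr
  have hm : ∀ (b : Fin N → ℕ), ∀ x ∈ C, mon b (u x) ≠ 0 := fun b x hx => mon_ne (h0 x hx)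
  set R : (Fin N → ℕ) → (Fin N → ℕ) → Prop := fun a b =>
    ∃ K : ℝ, 0 ≤ K ∧ ∀ᶠ x in (U : Filter X), ‖mon a (u x)‖ ≤ K * ‖mon b (u x)‖ with hR
  have htot : ∀ a b, R a b ∨ R b a := fun a b => by
    rcases Ultrafilter.eventually_or.1 (Eventually.of_forall (f := (U : Filter X)) fun x =>
      le_total ‖mon a (u x)‖ ‖mon b (u x)‖) with h | h
    · exact Or.inl ⟨1, zero_le_one, by simpa using h⟩
    · exact Or.inr ⟨1, zero_le_one, by simpa using h⟩
  have htr : ∀ a b e, R a b → R b e → R a e := fun a b e ⟨K, hK, h1⟩ ⟨K', hK', h2⟩ =>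
    ⟨K * K', mul_nonneg hK hK', by
      filter_upwards [h1, h2] with x h1 h2
      rw [mul_assoc]
      exact h1.trans (mul_le_mul_of_nonneg_left h2 hK)⟩
  have hrf : ∀ a, R a a := fun a => (htot a a).elim id id
  have hfin : ∀ a, {b | c b ≠ 0 ∧ R a b ∧ R b a}.Finite := fun a =>
    finite_class hr1 U u (by filter_upwards [hC] with x hx i using ⟨h0 x hx i, hur x hx i⟩) hsm D _
      (fun b hb => hD b hb.1) fun b hb e he => by
        obtain ⟨K, -, hK⟩ := htr _ _ _ hb.2.2 he.2.1
        exact ⟨K, hK⟩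
  set E : (Fin N → ℕ) → Finset (Fin N → ℕ) := fun a => (hfin a).toFinset with hE
  have hmemE : ∀ a b, b ∈ E a ↔ c b ≠ 0 ∧ R a b ∧ R b a := fun a b => (hfin a).mem_toFinset
  have hEE : ∀ a b, b ∈ E a → E b = E a := by
    intro a b hb
    obtain ⟨-, h1, h2⟩ := (hmemE a b).1 hb
    ext e
    rw [hmemE, hmemE]
    exact ⟨fun h => ⟨h.1, htr _ _ _ h1 h.2.1, htr _ _ _ h.2.2 h2⟩,
      fun h => ⟨h.1, htr _ _ _ h2 h.2.1, htr _ _ _ h.2.2 h1⟩⟩
  set B : Set (Fin N → ℕ) := {a | c a ≠ 0 ∧ ¬ ∀ x ∈ C, ∑ b ∈ E a, c b * mon b (u x) = 0} with hB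
  have hB0 : ∀ x ∈ C, HasSum (fun a => if a ∈ B then c a * mon a (u x) else 0) (G (u x)) := by
    intro x hx
    have h1 := hsum _ (hur x hx)
    have h2 : Summable fun a => if a ∈ B then 0 else c a * mon a (u x) := by
      refine Summable.of_norm_bounded (summable_term (a := id) hs (hur x hx)) fun s => ?_
      split_ifs
      · rw [norm_zero]; exact norm_nonneg _
      · exact le_rfl
    have h3 := (Equiv.sigmaFiberEquiv E).hasSum_iff.2 h2.hasSum
    have h4 : HasSum (fun _ : Finset (Fin N → ℕ) => (0 : F))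
        (∑' a, if a ∈ B then 0 else c a * mon a (u x)) := by
      refine HasSum.sigma h3 fun g => ?_
      change HasSum ((fun a => if a ∈ B then 0 else c a * mon a (u x)) ∘
        (Subtype.val : {a | E a = g} → _)) 0
      rw [hasSum_subtype_iff_indicator]
      by_cases hg : ∃ a, E a = g ∧ c a ≠ 0 ∧ a ∉ B
      · obtain ⟨a, rfl, ha, haB⟩ := hg
        have h5 : ∀ x ∈ C, ∑ b ∈ E a, c b * mon b (u x) = 0 := by
          by_contra h6
          exact haB ⟨ha, h6⟩
        have h7 : ∑ b ∈ E a, c b * mon b (u x) = ∑ b ∈ E a, Set.indicator {b | E b = E a}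
            (fun a => if a ∈ B then 0 else c a * mon a (u x)) b := by
          refine Finset.sum_congr rfl fun b hb => ?_
          rw [Set.indicator_of_mem (show b ∈ {b | E b = E a} from hEE a b hb), if_neg]
          exact fun hbB => hbB.2 (by rw [hEE a b hb]; exact h5)
        refine Eq.subst (motive := fun z => HasSum (Set.indicator {b | E b = E a}
          (fun a => if a ∈ B then 0 else c a * mon a (u x))) z) (h7.symm.trans (h5 x hx))
          (hasSum_sum_of_ne_finset_zero fun b hb => ?_)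
        by_cases hb' : b ∈ {b | E b = E a}
        · have : c b = 0 := by
            by_contra hcb
            exact hb ((show E b = E a from hb') ▸ (hmemE b b).2 ⟨hcb, hrf b, hrf b⟩)
          simp [Set.indicator_of_mem hb', this]
        · exact Set.indicator_of_notMem hb' _
      · refine HasSum.congr_fun hasSum_zero fun b => ?_
        by_cases hb' : b ∈ {b | E b = g}
        · rw [Set.indicator_of_mem hb']
          split_ifs with hbB
          · rfl
          · have : c b = 0 := by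
              by_contra hcb
              exact hg ⟨b, hb', hcb, hbB⟩
            rw [this, zero_mul]
        · exact Set.indicator_of_notMem hb' _
    have h5 := h2.hasSum
    rw [← hasSum_zero.unique h4] at h5
    have h6 := h1.sub h5
    rw [sub_zero] at h6
    refine HasSum.congr_fun h6 fun a => ?_
    split_ifs <;> simp
  rcases B.eq_empty_or_nonempty with hBe | ⟨s1, hs1⟩
  · intro x hx
    have := hB0 x hx
    simp only [hBe, Set.mem_empty_iff_false, if_false] at this
    exact this.unique hasSum_zero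
  exfalso
  obtain ⟨B₀, hB1, hB2⟩ := H15.dickson (id : (Fin N → ℕ) → Fin N → ℕ) B
  have hne : B₀.Nonempty := by
    obtain ⟨b, hb, -⟩ := hB2 s1 hs1
    exact ⟨b, hb⟩
  obtain ⟨t, ht, htop⟩ := H15.exists_top R htot htr B₀ hne
  choose! K hK0 hK using htop
  have hKall : ∀ᶠ x in (U : Filter X), ∀ b ∈ B₀, ‖mon b (u x)‖ ≤ K b * ‖mon t (u x)‖ :=
    (eventually_all_finset B₀).2 hK
  set K' : ℝ := ∑ b ∈ B₀, K b / r ^ (∑ i, b i) with hK'
  have hbd : ∀ᶠ x in (U : Filter X), ∀ s ∈ B,
      ‖mon s (u x) / mon t (u x)‖ ≤ r ^ (∑ i, s i) * K' := by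
    filter_upwards [hC, hKall] with x hx h s hsB
    obtain ⟨b, hb, hle⟩ := hB2 s hsB
    obtain ⟨e, he⟩ := exists_add_of_le hle
    simp only [id] at he
    have h1 : K b / r ^ (∑ i, b i) ≤ K' :=
      Finset.single_le_sum (f := fun b => K b / r ^ (∑ i, b i))
        (fun b hb => div_nonneg (hK0 b hb) (by positivity)) hb
    have h2 := norm_mon_le e (hur x hx)
    have h3 : 0 < ‖mon t (u x)‖ := norm_pos_iff.2 (hm _ x hx)
    rw [norm_div, div_le_iff₀ h3, he, mon_add, norm_mul]
    simp only [Pi.add_apply, Finset.sum_add_distrib, pow_add]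
    calc ‖mon b (u x)‖ * ‖mon e (u x)‖
        ≤ (K b * ‖mon t (u x)‖) * r ^ (∑ i, e i) :=
          mul_le_mul (h b hb) h2 (norm_nonneg _) (mul_nonneg (hK0 b hb) h3.le)
      _ = r ^ (∑ i, b i) * r ^ (∑ i, e i) * (K b / r ^ (∑ i, b i)) * ‖mon t (u x)‖ := by
          field_simp
      _ ≤ _ := by gcongr
  have hK'0 : 0 ≤ K' := Finset.sum_nonneg fun b hb => div_nonneg (hK0 b hb) (by positivity)
  have htB := hB1 t ht
  have hEB : ∀ b ∈ E t, b ∈ B := fun b hb =>
    ⟨((hmemE t b).1 hb).1, by rw [hEE t b hb]; exact htB.2⟩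
  have hlim := tendsto_tsum_of_dominated_convergence (𝓕 := (U : Filter X))
    (f := fun x s => (if s ∈ B ∧ s ∉ E t then c s * mon s (u x) else 0) / mon t (u x))
    (g := fun _ => 0)
    (bound := fun s => ‖c s‖ * r ^ (∑ i, s i) * K') (hs.mul_right K') (fun s => ?_) ?_
  · rw [tsum_zero] at hlim
    obtain ⟨ε, hε, hlow⟩ := (hkey (E t) c).resolve_left htB.2
    choose! L hL0 hL using fun b (hb : b ∈ E t) => ((hmemE t b).1 hb).2.1
    set L' : ℝ := 1 + ∑ b ∈ E t, L b with hL'
    have hL1 : 0 < L' := by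
      have := Finset.sum_nonneg hL0
      linarith
    obtain ⟨x, hx, hGx, ⟨b, hb, h1⟩, h2, h3⟩ := (Eventually.and hC (hz.and (hlow.and
      (((eventually_all_finset (E t)).2 hL).and
      ((tendsto_zero_iff_norm_tendsto_zero.1 hlim).eventually
        (gt_mem_nhds (div_pos hε hL1))))))).exists
    have h4 : HasSum (fun a => if a ∈ E t then c a * mon a (u x) else 0)
        (∑ a ∈ E t, c a * mon a (u x)) := by
      have := hasSum_sum_of_ne_finset_zero (L := SummationFilter.unconditional _)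
        (f := fun a => if a ∈ E t then c a * mon a (u x) else 0) (s := E t)
        fun a ha => if_neg ha
      rwa [Finset.sum_congr rfl fun a ha => if_pos ha] at this
    have h5 := ((hB0 x hx).sub h4).div_const (mon t (u x))
    have h6 : (fun s => (if s ∈ B ∧ s ∉ E t then c s * mon s (u x) else 0) / mon t (u x)) =
        fun s => ((if s ∈ B then c s * mon s (u x) else 0) -
          if s ∈ E t then c s * mon s (u x) else 0) / mon t (u x) := by
      funext s
      by_cases h7 : s ∈ E t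
      · simp [h7, hEB s h7]
      · simp [h7]
    have h8 : 0 < ‖mon t (u x)‖ := norm_pos_iff.2 (hm _ x hx)
    rw [h6, h5.tsum_eq, hGx, zero_sub, norm_div, norm_neg, div_lt_div_iff₀ h8 hL1] at h3
    have h9 : L b ≤ L' := by
      have := Finset.single_le_sum hL0 hb
      linarith
    have h10 := (h2 b hb).trans (mul_le_mul_of_nonneg_right h9 (norm_nonneg _))
    nlinarith [mul_le_mul_of_nonneg_left h10 hε.le, mul_le_mul_of_nonneg_right h1 hL1.le]
  · by_cases hst : s ∈ B ∧ s ∉ E t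
    · simp only [if_pos hst]
      have hRs : R s t := ⟨r ^ (∑ i, s i) * K', by positivity, by
        filter_upwards [hC, hbd] with x hx h
        have := h s hst.1
        rwa [norm_div, div_le_iff₀ (norm_pos_iff.2 (hm _ x hx))] at this⟩
      have hnR : ¬ R t s := fun h => hst.2 ((hmemE t s).2 ⟨hst.1.1, h, hRs⟩)
      have : Tendsto (fun x => mon s (u x) / mon t (u x)) U (𝓝 0) := by
        rw [NormedAddGroup.tendsto_nhds_zero]
        intro η hη
        have h1 : ∀ᶠ x in (U : Filter X), ¬ ‖mon t (u x)‖ ≤ η⁻¹ * ‖mon s (u x)‖ :=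
          Ultrafilter.eventually_not.2 fun h => hnR ⟨η⁻¹, by positivity, h⟩
        filter_upwards [hC, h1] with x hx h1
        rw [norm_div, div_lt_iff₀ (norm_pos_iff.2 (hm _ x hx))]
        rwa [not_le, inv_mul_lt_iff₀ hη] at h1
      simpa [mul_div_assoc] using this.const_mul (c s)
    · simp [hst]
  · filter_upwards [hbd] with x h s
    by_cases hsB : s ∈ B ∧ s ∉ E t
    · rw [if_pos hsB, mul_div_assoc, norm_mul, mul_assoc]
      exact mul_le_mul_of_nonneg_left (h s hsB.1) (norm_nonneg _)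
    · rw [if_neg hsB, zero_div, norm_zero]
      positivity

end Pool.Agent.MP_be2dd8_ag.H53
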