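import Pool.Agent.MP_be2dd8_ag.H53.Spec
import Pool.Agent.MP_be2dd8_ag.H53.Ser

/-! Unit equations on a coset and the rigidity of proportional monomials. -/

set_option autoImplicit false

namespace Pool.Agent.MP_be2dd8_ag.H53

open Filter Topology

/-- a relation that holds along the ultrafilter holds on every set where proportionality persists -/
lemma uec {F : Type} [Field F] (hU : UnitEq F) {Γ : Subgroup Fˣ} (hΓ : Γ.FG) {X A : Type}
    [Fintype A] (U : Ultrafilter X) {C : Set X} (hC : C ∈ U) (y : X → A → Fˣ)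
    (hy : ∀ x ∈ C, ∀ a, y x a ∈ Γ)
    (hT : ∀ a b (t : F), (∀ᶠ x in (U : Filter X), (y x a : F) = t * y x b) →
      ∀ x ∈ C, (y x a : F) = t * y x b)
    (c : A → F) (h : ∀ᶠ x in (U : Filter X), ∑ a, c a * (y x a : F) = 0) :
    ∀ x ∈ C, ∑ a, c a * (y x a : F) = 0 := by
  classical
  let s : Setoid A := ⟨fun a b => ∃ t : F, ∀ᶠ x in (U : Filter X), (y x a : F) = t * y x b,
    ⟨fun a => ⟨1, by simp⟩, fun {a b} ⟨t, ht⟩ => ⟨t⁻¹, by
      filter_upwards [ht] with x hx
      have : t ≠ 0 := by rintro rfl; simp at hx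
      rw [hx, inv_mul_cancel_left₀ this]⟩, fun {a b e} ⟨t, ht⟩ ⟨t', ht'⟩ => ⟨t * t', by
      filter_upwards [ht, ht'] with x hx hx'
      rw [hx, hx', mul_assoc]⟩⟩⟩
  have h1 : ∀ a, ∃ t : F, ∀ᶠ x in (U : Filter X), (y x a : F) = t * y x (Quotient.mk s a).out :=
    fun a => s.symm (Quotient.mk_out (s := s) a)
  choose t ht using h1
  have hsum : ∀ x ∈ C, ∑ a, c a * (y x a : F) = ∑ q : Quotient s,
      (∑ a ∈ Finset.univ.filter (fun a => Quotient.mk s a = q), c a * t a) * (y x q.out : F) := by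
    intro x hx
    rw [← Finset.sum_fiberwise (s := Finset.univ) (g := fun a => Quotient.mk s a)]
    refine Finset.sum_congr rfl fun q _ => ?_
    rw [Finset.sum_mul]
    refine Finset.sum_congr rfl fun a ha => ?_
    rw [hT _ _ _ (ht a) x hx, (Finset.mem_filter.1 ha).2, mul_assoc]
  have h2 := hU Γ hΓ X (Quotient s) U (fun x q => if x ∈ C then y x q.out else 1)
    (fun x q => by
      split_ifs with hx
      · exact hy x hx _
      · exact Γ.one_mem)
    (fun q q' hq w hw => hq (Quotient.out_equiv_out.1 ⟨w, by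
      filter_upwards [hw, hC] with x hx hxC
      simpa only [if_pos hxC] using hx⟩))
    (fun q => ∑ a ∈ Finset.univ.filter (fun a => Quotient.mk s a = q), c a * t a) (by
      filter_upwards [h, hC] with x hx hxC
      simp only [if_pos hxC]
      rw [← hsum x hxC, hx])
  intro x hx
  rw [hsum x hx]
  exact Finset.sum_eq_zero fun q _ => by rw [h2 q, zero_mul]

lemma exists_theta {G : Type} [CommGroup G] {g : G} (hg : ¬ IsOfFinOrder g) :
    ∃ θ : Additive G →+ ℚ, θ (Additive.ofMul g) ≠ 0 := by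
  have hinj : Function.Injective (zmultiplesHom (Additive G) (Additive.ofMul g)) := by
    intro a b hab
    exact injective_zpow_iff_not_isOfFinOrder.2 hg hab
  obtain ⟨θ, hθ⟩ := (Module.Baer.of_divisible ℚ).extension_property_addMonoidHom _ hinj
    (Int.castAddHom ℚ)
  refine ⟨θ, ?_⟩
  have := DFunLike.congr_fun hθ 1
  simp only [AddMonoidHom.comp_apply, zmultiplesHom_apply, one_smul, Int.coe_castAddHom,
    Int.cast_one] at this
  rw [this]
  exact one_ne_zero

lemma exists_tau (G : Type) [CommGroup G] [Group.FG G] :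
    ∃ τ : ℕ, 0 < τ ∧ ∀ g : G, IsOfFinOrder g → g ^ τ = 1 := by
  have h0 : Module.Finite ℤ (Additive G) := Module.Finite.iff_addGroup_fg.mpr inferInstance
  have h2 : Finite (Submodule.torsion ℤ (Additive G)) :=
    Module.finite_of_fg_torsion _ Submodule.torsion_isTorsion
  refine ⟨Nat.card (Submodule.torsion ℤ (Additive G)), Nat.card_pos, fun g hg => ?_⟩
  obtain ⟨n, hn, h3⟩ := isOfFinOrder_iff_pow_eq_one.1 hg
  have h4 : Additive.ofMul g ∈ Submodule.torsion ℤ (Additive G) :=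
    ⟨⟨n, mem_nonZeroDivisors_of_ne_zero (by exact_mod_cast hn.ne')⟩, by
      change (n : ℤ) • Additive.ofMul g = 0
      rw [natCast_zsmul, ← ofMul_pow, h3, ofMul_one]⟩
  have h5 := card_nsmul_eq_zero' (G := Submodule.torsion ℤ (Additive G)) (x := ⟨_, h4⟩)
  exact congrArg (fun z : Submodule.torsion ℤ (Additive G) => Additive.toMul (z : Additive G)) h5

/-- rational characters and one finite quotient separate the points -/
lemma exists_sep {G : Type} [CommGroup G] {Γ : Subgroup G} (hΓ : Γ.FG) :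
    ∃ (Q : Type) (_ : CommGroup Q) (π : G →* Q), (π '' Γ).Finite ∧
      ∀ w, π w = 1 → (∀ θ : Additive G →+ ℚ, θ (Additive.ofMul w) = 0) → w = 1 := by
  have : Group.FG Γ := (Group.fg_iff_subgroup_fg Γ).2 hΓ
  obtain ⟨τ, hτ0, hτ⟩ := exists_tau Γ
  refine ⟨G ⧸ Γ.map (powMonoidHom τ), inferInstance, QuotientGroup.mk' _, ?_, fun w hw hθ => ?_⟩
  · have h3 : Finite ((QuotientGroup.mk' (Γ.map (powMonoidHom τ))).comp Γ.subtype).range := by
      refine CommGroup.finite_of_fg_isMulTorsion _ ?_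
      rintro ⟨_, g, rfl⟩
      refine isOfFinOrder_iff_pow_eq_one.2 ⟨τ, hτ0, Subtype.ext ?_⟩
      change ((QuotientGroup.mk' (Γ.map (powMonoidHom τ))).comp Γ.subtype g) ^ τ = 1
      rw [← map_pow]
      exact (QuotientGroup.eq_one_iff _).2 ⟨g, g.2, rfl⟩
    refine (Set.toFinite (((QuotientGroup.mk' (Γ.map (powMonoidHom τ))).comp Γ.subtype).range :
      Set _)).subset ?_
    rintro _ ⟨g, hg, rfl⟩
    exact ⟨⟨g, hg⟩, rfl⟩
  · obtain ⟨g, hg, rfl⟩ := (QuotientGroup.eq_one_iff w).1 hw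
    have h3 : IsOfFinOrder g := by
      by_contra h
      obtain ⟨θ, h4⟩ := exists_theta h
      have := hθ θ
      rw [powMonoidHom_apply, ofMul_pow, map_nsmul] at this
      exact h4 ((smul_eq_zero.1 this).resolve_left hτ0.ne')
    exact congrArg Subtype.val (hτ ⟨g, hg⟩
      ((Function.Injective.isOfFinOrder_iff (f := Γ.subtype) Γ.subtype_injective).1 h3))

lemma theta_form {G : Type} [CommGroup G] (θ : Additive G →+ ℚ) (u : ℕ → G) (β : G) {d M : ℕ}
    (hd : 2 ≤ d) (hu : ∀ n, M ≤ n → u (n + 1) = β * u n ^ d) :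
    ∃ r s : ℚ, ∀ n, M ≤ n → θ (Additive.ofMul (u n)) = r * (d : ℚ) ^ n + s := by
  have h1 : (2 : ℚ) ≤ d := by exact_mod_cast hd
  have h2 : (d : ℚ) - 1 ≠ 0 := by linarith
  have h3 : (d : ℚ) ≠ 0 := by linarith
  refine ⟨(θ (Additive.ofMul (u M)) + θ (Additive.ofMul β) / (d - 1)) / (d : ℚ) ^ M,
    -θ (Additive.ofMul β) / (d - 1), fun n hn => ?_⟩
  induction n, hn using Nat.le_induction with
  | base => field_simp; ring
  | succ n hn ih =>
    rw [hu n hn, ofMul_mul, map_add, ofMul_pow, map_nsmul, ih, nsmul_eq_mul]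
    field_simp; ring

/-- proportional monomials stay proportional -/
lemma rigid {G Q X : Type} [CommGroup G] [CommGroup Q] {N : ℕ} (π : G →* Q)
    (hπ : ∀ w, π w = 1 → (∀ θ : Additive G →+ ℚ, θ (Additive.ofMul w) = 0) → w = 1)
    (U : Ultrafilter X) {C : Set X} (hC : C ∈ U) (y : X → Fin N → G) (s : X → Fin N → ℚ)
    (h1 : ∀ x ∈ C, ∀ x' ∈ C, ∀ i, π (y x i) = π (y x' i))
    (h2 : ∀ θ : Additive G →+ ℚ, ∃ r t : Fin N → ℚ, ∀ x ∈ C, ∀ i,
      θ (Additive.ofMul (y x i)) = r i * s x i + t i)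
    (h3 : ∀ (r : Fin N → ℚ) (t : ℚ), (∀ᶠ x in (U : Filter X), ∑ i, r i * s x i = t) →
      ∀ x ∈ C, ∑ i, r i * s x i = t)
    (e : Fin N → ℤ) (t : G) (h : ∀ᶠ x in (U : Filter X), ∏ i, y x i ^ e i = t) :
    ∀ x ∈ C, ∏ i, y x i ^ e i = t := by
  intro x hx
  obtain ⟨x0, h4, hx0⟩ := (h.and hC).exists
  rw [← div_eq_one]
  refine hπ _ ?_ fun θ => ?_
  · rw [← h4, map_div, div_eq_one, map_prod, map_prod]
    exact Finset.prod_congr rfl fun i _ => by rw [map_zpow, map_zpow, h1 x hx x0 hx0]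
  · obtain ⟨r, b, h5⟩ := h2 θ
    have h6 : ∀ x ∈ C, θ (Additive.ofMul (∏ i, y x i ^ e i)) =
        ∑ i, e i * r i * s x i + ∑ i, e i * b i := by
      intro x hx
      rw [ofMul_prod, map_sum, ← Finset.sum_add_distrib]
      refine Finset.sum_congr rfl fun i _ => ?_
      rw [ofMul_zpow, map_zsmul, h5 x hx, zsmul_eq_mul]
      ring
    have h7 := h3 (fun i => e i * r i) (θ (Additive.ofMul t) - ∑ i, e i * b i) (by
      filter_upwards [h, hC] with x h hx
      rw [← h, h6 x hx, add_sub_cancel_right]) x hx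
    rw [ofMul_div, map_sub, h6 x hx, h7]
    ring

/-- sums of powers of the degrees -/
lemma scaleG (hQ : UnitEq ℚ) {X : Type} {N : ℕ} (U : Ultrafilter X) {C : Set X} (hC : C ∈ U)
    (d : Fin N → ℕ) (hd : ∀ i, 2 ≤ d i) (n : X → Fin N → ℕ)
    (h1 : ∀ i (b : ℕ), (∀ᶠ x in (U : Filter X), n x i = b) → ∀ x ∈ C, n x i = b)
    (h2 : ∀ i j (t : ℚ), (∀ᶠ x in (U : Filter X), (d i : ℚ) ^ n x i = t * (d j : ℚ) ^ n x j) →
      ∀ x ∈ C, (d i : ℚ) ^ n x i = t * (d j : ℚ) ^ n x j)
    (r : Fin N → ℚ) (t : ℚ) (h : ∀ᶠ x in (U : Filter X), ∑ i, r i * (d i : ℚ) ^ n x i = t) :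
    ∀ x ∈ C, ∑ i, r i * (d i : ℚ) ^ n x i = t := by
  have hd1 : ∀ i, (1 : ℚ) < d i := fun i => by exact_mod_cast hd i
  have hd0 : ∀ i, (d i : ℚ) ≠ 0 := fun i => (zero_lt_one.trans (hd1 i)).ne'
  set D : Fin N → ℚˣ := fun i => Units.mk0 _ (hd0 i) with hD
  have h3 : ∀ i (t : ℚ), (∀ᶠ x in (U : Filter X), (d i : ℚ) ^ n x i = t) →
      ∀ x ∈ C, (d i : ℚ) ^ n x i = t := by
    intro i t ht x hx
    obtain ⟨x0, h0⟩ := ht.exists
    rw [h1 i (n x0 i) ?_ x hx, h0]
    filter_upwards [ht] with x hx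
    exact pow_right_injective₀ (zero_lt_one.trans (hd1 i)) (hd1 i).ne' (hx.trans h0.symm)
  have key := uec hQ (Γ := Subgroup.closure (Set.range D))
    ((Subgroup.fg_iff _).2 ⟨_, rfl, Set.finite_range D⟩) U hC
    (fun x (a : Option (Fin N)) => a.elim 1 fun i => D i ^ n x i) ?_ ?_
    (fun a => a.elim (-t) r) ?_
  · intro x hx
    have := key x hx
    simp only [Fintype.sum_option, Option.elim, hD, Units.val_pow_eq_pow_val, Units.val_mk0,
      Units.val_one] at this
    linarith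
  · rintro x - (_ | i)
    · exact Subgroup.one_mem _
    · exact Subgroup.pow_mem _ (Subgroup.subset_closure (Set.mem_range_self i)) _
  · rintro (_ | i) (_ | j) t ht x hx <;>
      simp only [Option.elim, hD, Units.val_pow_eq_pow_val, Units.val_mk0, Units.val_one]
        at ht ⊢
    · exact ht.exists.choose_spec
    · have h4 : t ≠ 0 := by
        rintro rfl
        simpa using ht.exists
      rw [h3 j t⁻¹ ?_ x hx, mul_inv_cancel₀ h4]
      filter_upwards [ht] with x hx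
      exact eq_inv_of_mul_eq_one_right hx.symm
    · rw [mul_one] at ht ⊢
      exact h3 i t ht x hx
    · exact h2 i j t ht x hx
  · filter_upwards [h] with x hx
    simp only [Fintype.sum_option, Option.elim, hD, Units.val_pow_eq_pow_val, Units.val_mk0,
      Units.val_one]
    linarith

end Pool.Agent.MP_be2dd8_ag.H53
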