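import Pool.Agent.MP_077ac3_nt.H18.Defs

set_option autoImplicit false

/-!
Interface: the Subspace Theorem with algebraic forms at arbitrary places, unit equations over
fields of characteristic zero, and analysis over a complete non archimedean differential field.
-/

namespace Pool.Agent.MP_be2dd8_ag.H53

open MvPolynomial Filter Topology Pool.Agent.MP_077ac3_nt.H18

/-- Finitely many weighted absolute values that satisfy the product inequality on integers. -/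
structure Places (K S : Type) [Field K] [Fintype S] where
  v : S → AbsoluteValue K ℝ
  κ : S → ℝ
  pos : ∀ s, 0 < κ s
  le : ∀ s (n : ℤ), v s (n : K) ≤ |(n : ℝ)|
  pf : ∀ n : ℤ, n ≠ 0 → 0 ≤ ∑ s, κ s * Real.log (v s (n : K))

/-- The linear change of variables `X_h ↦ M X_h` in every block. -/
noncomputable def linK {K : Type} [Field K] {m : ℕ} {ι : Type} [Fintype ι] (M : Matrix ι ι K) :
    MvPolynomial (Fin m × ι) ℤ →ₐ[ℤ] MvPolynomial (Fin m × ι) K :=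
  aeval (fun s => ∑ j, C (M s.2 j) * X (s.1, j))

/-- The auxiliary polynomial. -/
def AuxG : Prop :=
  ∀ (K ι S : Type) [Field K] [NumberField K] [Fintype ι] [DecidableEq ι] [Nonempty ι] [Fintype S]
    (M : S → Matrix ι ι K) (ε : ℝ), 0 < ε →
    ∃ m : ℕ, 0 < m ∧ ∃ C : ℝ, 1 ≤ C ∧ ∀ d : Fin m → ℕ, (∀ h, 0 < d h) →
      ∃ P : MvPolynomial (Fin m × ι) ℤ, P ≠ 0 ∧ Hom d P ∧ l1 P ≤ C ^ (∑ h, d h) ∧
        ∀ s, Bal d ε (linK (M s) P)

/-- Vanishing of the low order Taylor coefficients of the auxiliary polynomial. -/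
def VanG : Prop :=
  ∀ (K ι S : Type) [Field K] [NumberField K] [Fintype ι] [DecidableEq ι] [Nonempty ι] [Fintype S]
    (Pl : Places K S) (M : S → Matrix ι ι K) (c : S → ι → ℝ), (∀ s, (M s).det ≠ 0) →
    ∑ s, Pl.κ s * ∑ i, c s i < 0 →
    ∃ ε : ℝ, 0 < ε ∧ ∀ (m : ℕ) (C B : ℝ), 0 < m → 1 ≤ C → 1 ≤ B →
      ∃ q0 : ℝ, ∀ q : Fin m → ℝ, (∀ h, q0 ≤ q h) → ∃ D0 : ℝ, ∀ D : ℝ, D0 ≤ D →
        ∀ d : Fin m → ℕ, (∀ h, D ≤ d h * q h ∧ d h * q h ≤ D + q h) →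
        ∀ P : MvPolynomial (Fin m × ι) ℤ, Hom d P → l1 P ≤ C ^ (∑ h, d h) →
          (∀ s, Bal d ε (linK (M s)⁻¹ P)) →
        ∀ y : Fin m × ι → ℤ,
          (∀ s h i, Pl.v s (∑ j, M s i j * (y (h, j) : K)) ≤ B * Real.exp (c s i * q h)) →
        ∀ J : Fin m × ι →₀ ℕ, wt (fun s => 1 / (d s.1 : ℝ)) J ≤ m * ε →
          coeff J (shift y P) = 0

/-- Either the hyperplane lies in a finite set or its height is large. -/
def HeightG : Prop :=
  ∀ (K ι S : Type) [Field K] [NumberField K] [Fintype ι] [DecidableEq ι] [Fintype S]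
    (Pl : Places K S) (M : S → Matrix ι ι K) (c : S → ι → ℝ), (∀ s, (M s).det ≠ 0) →
    ∑ s, Pl.κ s * ∑ i, c s i < 0 →
    ∃ η : ℝ, 0 < η ∧ ∃ W : Finset (ι → ℤ), 0 ∉ W ∧ ∃ q0 : ℝ, ∀ q : ℝ, q0 ≤ q →
      ∀ (X : Matrix ι ι ℤ) (i0 : ι), X.det ≠ 0 →
        (∀ s i l, l ≠ i0 → Pl.v s (∑ j, M s i j * (X j l : K)) ≤ Real.exp (c s i * q)) →
        (∃ w ∈ W, ∀ l, l ≠ i0 → ∑ i, w i * X i l = 0) ∨
        (∃ w : ι → ℤ, (∀ l, l ≠ i0 → ∑ i, w i * X i l = 0) ∧ Finset.univ.gcd w = 1 ∧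
          ∃ i, Real.exp (η * q) ≤ |(w i : ℝ)|)

/-- The hyperplanes spanned by the points of a small adelic parallelepiped lie in a finite set. -/
def CoreG : Prop :=
  ∀ (K ι S : Type) [Field K] [NumberField K] [Fintype ι] [DecidableEq ι] [Fintype S]
    (Pl : Places K S) (M : S → Matrix ι ι K) (c : S → ι → ℝ), (∀ s, (M s).det ≠ 0) →
    ∑ s, Pl.κ s * ∑ i, c s i < 0 →
    ∃ W : Finset (ι → ℤ), 0 ∉ W ∧ ∃ q0 : ℝ, ∀ q : ℝ, q0 ≤ q →
      ∀ (X : Matrix ι ι ℤ) (i0 : ι), X.det ≠ 0 →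
        (∀ s i l, l ≠ i0 → Pl.v s (∑ j, M s i j * (X j l : K)) ≤ Real.exp (c s i * q)) →
        ∃ w ∈ W, ∀ l, l ≠ i0 → ∑ i, w i * X i l = 0

/-- The parametric Subspace Theorem: real forms at the place `none`, arbitrary forms at the other
places, whose conditions hold on the lattice spanned by the columns of `B q`. -/
def SubG : Prop :=
  ∀ (K ι S : Type) [Field K] [NumberField K] [Fintype ι] [DecidableEq ι] [Fintype S]
    (Pl : Places K (Option S)) (M : Option S → Matrix ι ι K) (c : Option S → ι → ℝ)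
    (φ : K →+* ℂ) (L : Matrix ι ι ℝ),
    (∀ x, Pl.v none x = ‖φ x‖) → (∀ i j, φ (M none i j) = (L i j : ℂ)) →
    (∀ s, (M s).det ≠ 0) → ∑ s, Pl.κ s * ∑ i, c s i < 0 →
    ∀ U : Ultrafilter ℝ, (U : Filter ℝ) ≤ atTop → ∀ (B : ℝ → Matrix ι ι ℤ) (C : ℝ),
      (∀ᶠ q in (U : Filter ℝ), (B q).det ≠ 0 ∧
        (∀ (s : S) (z : ι → ℤ) (i : ι),
          Pl.v (some s) (∑ j, M (some s) i j * ((B q).mulVec z j : K)) ≤
            Real.exp (c (some s) i * q)) ∧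
        Pl.κ none * Real.log |((B q).det : ℝ)| ≤
          C - (∑ s : S, Pl.κ (some s) * ∑ i, c (some s) i) * q) →
      ∃ w : ι → ℤ, w ≠ 0 ∧ ∀ᶠ q in (U : Filter ℝ), ∀ z : ι → ℤ,
        (∀ i, |∑ j, L i j * ((B q).mulVec z j : ℝ)| ≤ Real.exp (c none i * q)) →
        ∑ i, w i * (B q).mulVec z i = 0

/-- The unit equation theorem over the field `F`, along an ultrafilter: functions with values in a
finitely generated group, no two of which are proportional, are linearly independent. -/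
def UnitEq (F : Type) [Field F] : Prop :=
  ∀ Γ : Subgroup Fˣ, Γ.FG → ∀ (X A : Type) [Fintype A] (U : Ultrafilter X) (y : X → A → Fˣ),
    (∀ x a, y x a ∈ Γ) →
    (∀ a b, a ≠ b → ∀ t : F, ¬ ∀ᶠ x in (U : Filter X), (y x a : F) = t * y x b) →
    ∀ c : A → F, (∀ᶠ x in (U : Filter X), ∑ a, c a * (y x a : F) = 0) → ∀ a, c a = 0

/-- number fields that are Galois over the rationals and contain a square root of `-1` -/
def UnitGal : Prop :=
  ∀ (K : Type) [Field K] [NumberField K] [IsGalois ℚ K], (∃ i : K, i ^ 2 = -1) → UnitEq K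

def UnitAll : Prop := ∀ (F : Type) [Field F] [CharZero F], UnitEq F

/-- no excessive cancellation in a non archimedean differential field -/
def GapStmt : Prop :=
  ∀ (F : Type) [NormedField F] [IsUltrametricDist F] (δ : Derivation ℤ F F) (C : ℝ),
    (∀ x, ‖δ x‖ ≤ C * ‖x‖) → (∀ x, δ x = 0 → ‖x‖ ≤ 1) →
    ∀ Γ : Subgroup Fˣ, Γ.FG → ∀ (A : Type) [Fintype A] (c : A → F),
      ∃ ε : ℝ, 0 < ε ∧ ∀ y : A → Fˣ, (∀ a, y a ∈ Γ) → ∑ a, c a * (y a : F) ≠ 0 →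
        ∃ a, ε * ‖(y a : F)‖ ≤ ‖∑ a, c a * (y a : F)‖

/-- the Boettcher coordinate at infinity in residue characteristic zero -/
def BoettStmt : Prop :=
  ∀ (F : Type) [NormedField F] [IsUltrametricDist F] [CompleteSpace F],
    (∀ n : ℕ, n ≠ 0 → ‖(n : F)‖ = 1) → ∀ f : Polynomial F, 1 < f.natDegree →
    ∀ x : ℕ → F, (∀ n, x (n + 1) = f.eval (x n)) → (∀ R : ℝ, ∃ n, R < ‖x n‖) →
      ∃ (c u : ℕ → F) (β : F) (R : ℝ) (M : ℕ), (∀ k, ‖c k‖ ≤ R) ∧ Tendsto u atTop (𝓝 0) ∧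
        ∀ n, M ≤ n → u n ≠ 0 ∧ ‖u n‖ < 1 ∧ u (n + 1) = β * u n ^ f.natDegree ∧
          HasSum (fun k => c k * u n ^ k) (x n * u n)

/-- Laurent series form a complete non archimedean differential field -/
def LaurStmt : Prop :=
  ∀ (k : Type) [Field k] [CharZero k], ∃ (F : Type) (_ : NontriviallyNormedField F)
    (_ : IsUltrametricDist F) (_ : CompleteSpace F) (j : LaurentSeries k →+* F)
    (δ : Derivation ℤ F F) (C : ℝ), (∀ x, ‖δ x‖ ≤ C * ‖x‖) ∧ (∀ x, δ x = 0 → ‖x‖ ≤ 1) ∧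
      ∀ x : LaurentSeries k, x ≠ 0 → ‖j x‖ = (2 : ℝ) ^ (-x.order)

end Pool.Agent.MP_be2dd8_ag.H53
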