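import Pool.Agent.MP_be2dd8_ag.H53.UgB

set_option autoImplicit false

namespace Pool.Agent.MP_be2dd8_ag.H53

namespace UG

open NumberField IsDedekindDomain Module Filter Topology

section analysis
variable {X : Type} (U : Ultrafilter X)

lemma exists_max {A : Type} [Finite A] [Nonempty A] (F : X → A → ℝ) :
    ∃ a, ∀ᶠ x in (U : Filter X), ∀ a', F x a' ≤ F x a :=
  Ultrafilter.eventually_exists_iff.1 (Eventually.of_forall fun x => Finite.exists_max (F x))

lemma exists_lim {f : X → ℝ} {R : ℝ} (h : ∀ᶠ x in (U : Filter X), |f x| ≤ R) :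
    ∃ l, Tendsto f U (𝓝 l) := by
  obtain ⟨l, -, hl⟩ := (isCompact_Icc (a := -R) (b := R)).ultrafilter_le_nhds (U.map f)
    (le_principal_iff.2 (h.mono fun x hx => abs_le.1 hx))
  exact ⟨l, hl⟩

variable {V I : Type} [Fintype V]

lemma height {f : V → Option I → ℝ} (h0 : ∀ v, f v none = 0) (h1 : ∀ a, ∑ v, f v a = 0)
    {o : V → Option I} (ho : ∀ v a, f v a ≤ f v (o v)) (v : V) (a : Option I) :
    |f v a| ≤ ∑ v, f v (o v) := by
  classical
  have p : ∀ v, 0 ≤ f v (o v) := fun v => h0 v ▸ ho v none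
  refine abs_le.2 ⟨?_, (ho v a).trans (Finset.single_le_sum (fun v _ => p v) (Finset.mem_univ v))⟩
  have e1 := h1 a
  rw [← Finset.add_sum_erase _ _ (Finset.mem_univ v)] at e1 ⊢
  have := Finset.sum_le_sum fun u (_ : u ∈ Finset.univ.erase v) => ho u a
  linarith [p v]

lemma limits {A : Type} {f : X → V → A → ℝ} (h1 : ∀ x a, ∑ v, f x v a = 0) {o : V → A}
    {q : X → ℝ} (hq : ∀ x, q x = ∑ v, f x v (o v)) (hU : Tendsto q U atTop)
    (hb : ∀ᶠ x in (U : Filter X), ∀ v a, |f x v a| ≤ q x) {h : V → ℝ} (hh : ∑ v, h v = 0) :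
    ∃ g : V → A → ℝ, (∀ v a, Tendsto (fun x => (⌈q x / Real.log 2⌉₊ * h v + f x v a) / q x) U
      (𝓝 (g v a))) ∧ (∀ a, ∑ v, g v a = 0) ∧ ∑ v, g v (o v) = 1 := by
  have l2 := Real.log_pos one_lt_two
  have key : ∀ v a, ∃ l, Tendsto (fun x => (⌈q x / Real.log 2⌉₊ * h v + f x v a) / q x) U
      (𝓝 l) := by
    intro v a
    refine exists_lim U (R := (1 / Real.log 2 + 1) * |h v| + 1) ?_
    filter_upwards [hb, hU.eventually_ge_atTop 1] with x x1 x2
    have q0 : 0 < q x := by linarith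
    have c1 : (⌈q x / Real.log 2⌉₊ : ℝ) ≤ (1 / Real.log 2 + 1) * q x := by
      have := (Nat.ceil_lt_add_one (div_pos q0 l2).le).le
      rw [add_mul, one_div_mul_eq_div]
      linarith
    rw [abs_div, abs_of_pos q0, div_le_iff₀ q0]
    refine (abs_add_le _ _).trans ?_
    rw [abs_mul, Nat.abs_cast]
    have := mul_le_mul_of_nonneg_right c1 (abs_nonneg (h v))
    linarith [x1 v a]
  choose g hg using key
  refine ⟨g, hg, fun a => ?_, ?_⟩
  · refine tendsto_nhds_unique (tendsto_finsetSum Finset.univ fun v _ => hg v a)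
      (tendsto_const_nhds.congr fun x => ?_)
    rw [← Finset.sum_div, Finset.sum_add_distrib, ← Finset.mul_sum, hh, h1]
    simp
  · refine tendsto_nhds_unique (tendsto_finsetSum Finset.univ fun v _ => hg v (o v))
      (tendsto_const_nhds.congr' ?_)
    filter_upwards [hU.eventually_gt_atTop 0] with x x1
    rw [← Finset.sum_div, Finset.sum_add_distrib, ← Finset.mul_sum, hh, ← hq, mul_zero, zero_add,
      div_self x1.ne']

end analysis

variable {K : Type} [Field K] [NumberField K]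

lemma int_scale {b : ℕ} (hb : b ≠ 0) {T : Finset (HP K)}
    (hT : ∀ p, p ∈ T ↔ (b : 𝓞 K) ∈ p.asIdeal) {y : Kˣ} (hy : y ∈ bu K b) {t : ℕ}
    (h : ∀ p : T, Real.log (wv p.1 (y : K)) ≤ t * Real.log 2) :
    IsIntegral ℤ ((b : K) ^ t * y) := by
  have b0 : (b : K) ≠ 0 := by exact_mod_cast hb
  refine int_of_le fun p => ?_
  by_cases hp : p ∈ T
  · rw [← Real.log_nonpos_iff ((wv p).nonneg _), map_mul, map_pow,
      Real.log_mul (pow_ne_zero _ ((wv p).pos b0).ne') ((wv p).pos y.ne_zero).ne', Real.log_pow]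
    have := mul_le_mul_of_nonneg_left (log_b hb ((hT p).1 hp)) (Nat.cast_nonneg (α := ℝ) t)
    linarith [h ⟨p, hp⟩]
  · refine (Ib.mul ⟨0, ?_⟩ hy.1).le ((hT p).not.1 hp)
    simpa using (isIntegral_algebraMap (R := ℤ) (A := K) (x := b)).pow t

/-- logarithms of the absolute values -/
noncomputable def lg (φ : K →+* ℂ) (T : Finset (HP K)) (v : T ⊕ (K ≃ₐ[ℚ] K)) (y : K) : ℝ :=
  Real.log (v.elim (fun p => wv p.1 y) fun σ => ‖φ (σ y)‖)

lemma lg_scale (φ : K →+* ℂ) (T : Finset (HP K)) (v : T ⊕ (K ≃ₐ[ℚ] K)) {b y : K} (hb : b ≠ 0)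
    (hy : y ≠ 0) (t : ℕ) : lg φ T v (b ^ t * y) = t * lg φ T v b + lg φ T v y := by
  cases v with
  | inl p =>
    simp only [lg, Sum.elim_inl, map_mul, map_pow]
    rw [Real.log_mul (pow_ne_zero _ ((wv p.1).pos hb).ne') ((wv p.1).pos hy).ne', Real.log_pow]
  | inr σ =>
    simp only [lg, Sum.elim_inr, map_mul, map_pow, norm_mul, norm_pow]
    rw [Real.log_mul (pow_ne_zero _ (by simpa using hb)) (by simpa using hy), Real.log_pow]

theorem core (hS : SubG) [IsGalois ℚ K] {j : K} (hj : j ^ 2 = -1) {b : ℕ} (hb : 2 ≤ b)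
    {I X : Type} [Fintype I] (U : Ultrafilter X) (y : X → Option I → Kˣ)
    (hy : ∀ x a, y x a ∈ bu K b) (h1 : ∀ x, y x none = 1)
    (hs : ∀ᶠ x in (U : Filter X), ∑ a, (y x a : K) = 0) :
    (∃ l : I → K, l ≠ 0 ∧ ∀ᶠ x in (U : Filter X), ∑ i, l i * y x (some i) = 0) ∨
      ∀ a, ∃ t : K, ∀ᶠ x in (U : Filter X), (y x a : K) = t := by
  classical
  have hb0 : b ≠ 0 := by omega
  have b0 : (b : K) ≠ 0 := by exact_mod_cast hb0
  have l2 := Real.log_pos one_lt_two
  obtain ⟨φ⟩ : Nonempty (K →+* ℂ) := inferInstance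
  obtain ⟨c', hc'⟩ := ComplexEmbedding.exists_comp_symm_eq_of_comp_eq (k := ℚ) φ
    (ComplexEmbedding.conjugate φ) (Subsingleton.elim _ _)
  have hc : ∀ y, φ (c'.symm y) = starRingEnd ℂ (φ y) := fun y => DFunLike.congr_fun hc' y
  set c := c'.symm
  have hcc : c * c = 1 := by
    ext y
    apply φ.injective
    simp [hc]
  obtain ⟨T, hT⟩ := exists_T (K := K) hb0
  have cG : Fintype.card (K ≃ₐ[ℚ] K) = finrank ℚ K := by
    rw [← Nat.card_eq_fintype_card, IsGalois.card_aut_eq_finrank]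
  obtain ⟨β⟩ : Nonempty (Basis (K ≃ₐ[ℚ] K) ℤ (𝓞 K)) :=
    ⟨(RingOfIntegers.basis K).reindex (Fintype.equivOfCardEq (by
      rw [cG, ← finrank_eq_card_chooseBasisIndex, RingOfIntegers.rank]))⟩
  have pf : ∀ u ∈ bu K b, ∑ v, lg φ T v (u : K) = 0 := fun u hu => by
    rw [Fintype.sum_sum_type]; exact pf_eq φ hT hu
  choose am ham using fun F : X → Option I → ℝ => exists_max U F
  set o : T ⊕ (K ≃ₐ[ℚ] K) → Option I := fun v => am fun x a => lg φ T v (y x a) with ho
  have oc : ∀ σ, o (.inr (c * σ)) = o (.inr σ) := fun σ => by simp [ho, lg, hc]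
  set q : X → ℝ := fun x => ∑ v, lg φ T v (y x (o v)) with hq
  have hbd : ∀ᶠ x in (U : Filter X), ∀ v a, |lg φ T v (y x a)| ≤ q x := by
    filter_upwards [eventually_all.2 fun v => ham fun x a => lg φ T v (y x a)] with x hx
    exact height (f := fun v a => lg φ T v (y x a)) (fun v => by cases v <;> simp [h1, lg])
      (fun a => pf _ (hy x a)) hx
  have hint : ∀ x a (r : ℝ), (∀ v a, |lg φ T v (y x a)| ≤ r) →
      IsIntegral ℤ ((b : K) ^ ⌈r / Real.log 2⌉₊ * y x a) := fun x a r h =>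
    int_scale hb0 hT (hy x a) fun p => ((le_abs_self _).trans (h (.inl p) a)).trans
      ((div_le_iff₀ l2).1 (Nat.le_ceil _))
  by_cases hR : ∃ R, ∀ᶠ x in (U : Filter X), q x ≤ R
  · obtain ⟨R, hR⟩ := hR
    refine Or.inr fun a => ?_
    obtain ⟨z, -, hz⟩ := (Ultrafilter.eventually_exists_mem_iff (f := U)
      (P := fun z x => (b : K) ^ ⌈R / Real.log 2⌉₊ * y x a = z)
      (Embeddings.finite_of_norm_le K ℂ ((b : ℝ) ^ ⌈R / Real.log 2⌉₊ * Real.exp R))).1 (by
        filter_upwards [hbd, hR] with x x1 x2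
        refine ⟨_, ⟨hint x a R fun v a => (x1 v a).trans x2, fun ψ => ?_⟩, rfl⟩
        obtain ⟨σ, rfl⟩ := ComplexEmbedding.exists_comp_symm_eq_of_comp_eq (k := ℚ) φ ψ
          (Subsingleton.elim _ _)
        rw [map_mul, map_pow, map_natCast, norm_mul, norm_pow, Complex.norm_natCast]
        refine mul_le_mul_of_nonneg_left ?_ (by positivity)
        exact (Real.log_le_iff_le_exp (by simp)).1
          (((le_abs_self _).trans (x1 (.inr σ.symm) a)).trans x2))
    refine ⟨z / (b : K) ^ ⌈R / Real.log 2⌉₊, hz.mono fun x hx => ?_⟩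
    rw [← hx, mul_div_cancel_left₀ _ (pow_ne_zero _ b0)]
  have hU : Tendsto q U atTop := tendsto_atTop.2 fun R =>
    (Ultrafilter.eventually_not.2 fun h => hR ⟨R, h⟩).mono fun x hx => (not_le.1 hx).le
  have bb : Units.mk0 (b : K) b0 ∈ bu K b :=
    ⟨⟨0, by simpa using isIntegral_algebraMap (R := ℤ) (A := K) (x := b)⟩,
      ⟨1, by simpa [b0] using isIntegral_one⟩⟩
  obtain ⟨g, g1, g2, g3⟩ := limits U (f := fun x v a => lg φ T v (y x a))
    (fun x a => pf _ (hy x a)) (o := o) (q := q) (fun _ => rfl) hU hbd (pf _ bb)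
  set n : ℝ := Fintype.card (T ⊕ (K ≃ₐ[ℚ] K)) * Fintype.card I with hn
  have n0 : 0 ≤ n := by positivity
  set η : ℝ := 1 / (n + 1) with hη
  have η0 : 0 < η := by positivity
  have η1 : n * η < 1 := by rw [hη, mul_one_div, div_lt_one (by linarith)]; linarith
  set e : T ⊕ (K ≃ₐ[ℚ] K) → I → ℝ := fun v i => g v (rr (o v) i) + η with he
  have se : ∑ v, ∑ i, e v i < 0 := by
    simp only [he, Finset.sum_add_distrib, sum_rr, Finset.sum_sub_distrib, g3]
    rw [Finset.sum_comm]
    simp only [g2, Finset.sum_const, Finset.card_univ, nsmul_eq_mul]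
    rw [← mul_assoc, ← hn]
    linarith
  set cT : T → I → ℝ := fun p i => min 0 (e (.inl p) i) with hcT
  have sT : ∑ P : T, ∑ s : (K ≃ₐ[ℚ] K) × I, cT (actT hT s.1 P) s.2
      = finrank ℚ K * ∑ p, ∑ i, cT p i := by
    simp only [Fintype.sum_prod_type]
    rw [Finset.sum_comm, Finset.sum_congr rfl fun σ _ =>
      (actT hT σ).sum_comp fun p => ∑ i, cT p i, Finset.sum_const, Finset.card_univ, cG,
      nsmul_eq_mul]
  have d0 : (0 : ℝ) < finrank ℚ K := Nat.cast_pos.2 finrank_pos
  choose B B1 B2 B3 using fun r : ℝ => lattice β (fun p : T => p.1) (fun p => o (.inl p))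
    fun s => ⌈-(cT s.1 s.2 * r) / nl s.1.1⌉₊
  obtain ⟨w, w0, hw⟩ := hS K ((K ≃ₐ[ℚ] K) × I) T (places φ T)
    (fun s => s.elim (MR β (fun σ => o (.inr σ)) c j)
      fun P => MM β fun σ => o (.inl (actT hT σ P)))
    (fun s t => s.elim (e (.inr t.1) t.2) fun P => cT (actT hT t.1 P) t.2) φ
    (LR β (fun σ => o (.inr σ)) φ j) (fun _ => rfl) (MR_real β _ φ hc oc hj)
    (fun s => by
      cases s with
      | none => exact MR_det β (fun σ => o (.inr σ)) hcc hj
      | some P => exact MM_det β fun σ => o (.inl (actT hT σ P)))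
    (by
      simp only [Fintype.sum_option, places, Option.elim, one_mul]
      rw [sT, ← mul_add]
      refine mul_neg_of_pos_of_neg d0 (lt_of_le_of_lt ?_ se)
      rw [Fintype.sum_sum_type, Fintype.sum_prod_type, add_comm]
      exact add_le_add (Finset.sum_le_sum fun p _ => Finset.sum_le_sum fun i _ => min_le_right _ _)
        le_rfl)
    (U.map q) hU B (finrank ℚ K * ∑ s : T × I, nl s.1.1)
    (by
      filter_upwards [(show ((U.map q : Ultrafilter ℝ) : Filter ℝ) ≤ atTop from hU)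
        (eventually_ge_atTop 0)] with r r0
      refine ⟨B1 r, fun P z s => ?_, ?_⟩
      · simp only [places, Option.elim]
        rw [MM_apply]
        refine (act_le s.1 P.1 ((B3 r _).2 ⟨z, rfl⟩ (actT hT s.1 P, s.2))).trans
          (Real.exp_le_exp.2 ?_)
        have := (div_le_iff₀ (nl_pos (actT hT s.1 P).1)).1
          (Nat.le_ceil (-(cT (actT hT s.1 P) s.2 * r) / nl (actT hT s.1 P).1))
        exact neg_le.1 this
      · simp only [places, Option.elim, one_mul]
        rw [sT, mul_assoc, ← mul_sub]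
        refine mul_le_mul_of_nonneg_left ((B2 r).trans ?_) d0.le
        rw [← Fintype.sum_prod_type' cT, Finset.sum_mul, ← Finset.sum_sub_distrib]
        refine Finset.sum_le_sum fun s _ => ?_
        have p0 := nl_pos s.1.1
        have c0 : 0 ≤ -(cT s.1 s.2 * r) :=
          neg_nonneg.2 (mul_nonpos_of_nonpos_of_nonneg (min_le_left _ _) r0)
        have := mul_le_mul_of_nonneg_right (Nat.ceil_lt_add_one (div_nonneg c0 p0.le)).le p0.le
        rw [add_mul, div_mul_cancel₀ _ p0.ne'] at this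
        linarith)
  obtain ⟨l, l0, hl⟩ := fin_rel β w0
  refine Or.inl ⟨l, l0, ?_⟩
  have big : ∀ᶠ x in (U : Filter X), ∀ σ τ : K ≃ₐ[ℚ] K,
      2 * ‖φ (σ (β τ))‖ ≤ Real.exp (η / 2 * q x) :=
    eventually_all.2 fun σ => eventually_all.2 fun τ =>
      (Real.tendsto_exp_atTop.comp (hU.const_mul_atTop (half_pos η0))).eventually_ge_atTop _
  filter_upwards [hs, hbd, big, hU.eventually_gt_atTop 0, mem_map.1 hw,
    eventually_all.2 fun v => eventually_all.2 fun a =>
      (g1 v a).eventually (gt_mem_nhds (lt_add_of_pos_right _ (half_pos η0)))]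
    with x x1 x2 x3 x4 x5 x6
  set t := ⌈q x / Real.log 2⌉₊ with ht
  set xx : Option I → 𝓞 K := fun a => ⟨(b : K) ^ t * y x a, hint x a _ x2⟩ with hxx
  have cx : ∀ a, (xx a : K) = (b : K) ^ t * y x a := fun a => rfl
  have nx : ∀ a, (xx a : K) ≠ 0 := fun a => mul_ne_zero (pow_ne_zero _ b0) (y x a).ne_zero
  have sx : ∑ a, xx a = 0 := by
    apply RingOfIntegers.coe_injective
    rw [map_sum, map_zero, ← mul_zero ((b : K) ^ t), ← x1, Finset.mul_sum]
    rfl
  have lx : ∀ v a, lg φ T v (xx a) ≤ (g v a + η / 2) * q x := fun v a => by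
    rw [cx, lg_scale φ T v b0 (y x a).ne_zero]
    exact ((div_lt_iff₀ x4).1 (x6 v a)).le
  have fin := hl (fun i => xx (some i)) fun τ => by
    obtain ⟨z, hz⟩ := exists_XX β fun i => β τ * xx (some i)
    have hL : ∀ u i, LL β u i z = β τ * xx (rr u i) := fun u i => by
      rw [← lam_pt (x := fun a => β τ * xx a) (by rw [← Finset.mul_sum, sx, mul_zero]) u i]
      exact Finset.sum_congr rfl fun i' _ => by rw [hz]
    obtain ⟨z', rfl⟩ := (B3 (q x) z).1 fun s => by
      rw [hL]
      refine Ideal.mul_mem_left _ _ (mem_of_le _ (fun h => nx _ (by rw [h]; rfl)) ?_)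
      rw [hcT, min_mul_of_nonneg _ _ x4.le, zero_mul]
      refine le_min (Real.log_nonpos ((wv _).nonneg _) (wv_int _ (xx _).isIntegral_coe))
        ((lx (.inl s.1) _).trans (mul_le_mul_of_nonneg_right ?_ x4.le))
      simp only [he]
      linarith
    refine ⟨_, hz, x5 z' fun s => (LR_le β _ φ hj s _).trans ?_⟩
    have a1 := (Real.log_le_iff_le_exp (by simpa using nx _)).1
      (lx (.inr s.1) (rr (o (.inr s.1)) s.2))
    rw [hL, RingOfIntegers.coe_eq_algebraMap, map_mul, map_mul, map_mul, norm_mul, ← mul_assoc]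
    refine (mul_le_mul (x3 s.1 τ) a1 (norm_nonneg _) (Real.exp_nonneg _)).trans (le_of_eq ?_)
    rw [← Real.exp_add]
    simp only [he, Option.elim]
    ring_nf
  refine (mul_eq_zero.1 ?_).resolve_left (pow_ne_zero t b0)
  rw [← fin, Finset.mul_sum]
  exact Finset.sum_congr rfl fun i _ => by rw [cx]; ring

end UG

open Filter in
theorem unitGal : SubG → UnitGal := by
  classical
  rintro hS K _ _ _ ⟨j, hj⟩ Γ ⟨s, hs⟩ X A _ U y hy hne
  have main : ∀ (n : ℕ) (c : A → K), (Finset.univ.filter fun a => c a ≠ 0).card = n →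
      (∀ᶠ x in (U : Filter X), ∑ a, c a * (y x a : K) = 0) → ∀ a, c a = 0 := by
    intro n
    induction n using Nat.strong_induction_on with
    | _ n ih =>
    intro c hn hc a0
    by_contra h0
    let cu : A → Kˣ := fun a => if h : c a = 0 then 1 else Units.mk0 _ h
    have cu1 : ∀ a, c a ≠ 0 → (cu a : K) = c a := fun a h => by simp [cu, h]
    obtain ⟨b, hb, hbu⟩ := UG.exists_bu (s ∪ Finset.univ.image cu)
    have m1 : ∀ x a, y x a ∈ UG.bu K b := fun x a =>
      (Subgroup.closure_le _).2 (fun u hu => hbu u (Finset.mem_union_left _ hu)) (hs ▸ hy x a)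
    have m2 : ∀ a, cu a ∈ UG.bu K b := fun a =>
      hbu _ (Finset.mem_union_right _ (Finset.mem_image_of_mem _ (Finset.mem_univ a)))
    let I := {a : A // c a ≠ 0 ∧ a ≠ a0}
    let y' : X → Option I → Kˣ := fun x o =>
      o.elim 1 fun i => cu i.1 * y x i.1 / (cu a0 * y x a0)
    have v : ∀ x (i : I), (y' x (some i) : K) = c i.1 * y x i.1 / (c a0 * y x a0) := fun x i => by
      simp [y', cu1 _ h0, cu1 _ i.2.1]
    have sm : ∀ F : A → K, (∀ a, ¬(c a ≠ 0 ∧ a ≠ a0) → F a = 0) → ∑ a, F a = ∑ i : I, F i.1 := by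
      intro F hF
      rw [← Finset.sum_subtype (Finset.univ.filter fun a => c a ≠ 0 ∧ a ≠ a0) (by simp) F]
      exact (Finset.sum_subset (Finset.filter_subset _ _) fun a _ ha => hF a (by simpa using ha)).symm
    have hs' : ∀ᶠ x in (U : Filter X), ∑ o, (y' x o : K) = 0 := by
      filter_upwards [hc] with x hx
      have n0 : c a0 * y x a0 ≠ 0 := mul_ne_zero h0 (y x a0).ne_zero
      have e := sm (fun a => if a = a0 then 0 else c a * y x a) fun a ha => by
        by_cases h : a = a0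
        · simp [h]
        · simp [h, not_not.1 fun h' => ha ⟨h', h⟩]
      have e1 : ∑ a, c a * (y x a : K)
          = c a0 * y x a0 + ∑ a, if a = a0 then 0 else c a * (y x a : K) := by
        rw [← Finset.add_sum_erase _ _ (Finset.mem_univ a0),
          ← Finset.add_sum_erase _ (fun a => if a = a0 then 0 else c a * (y x a : K))
            (Finset.mem_univ a0), if_pos rfl, zero_add]
        congr 1
        exact Finset.sum_congr rfl fun a ha => (if_neg (Finset.mem_erase.1 ha).1).symm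
      rw [e, Finset.sum_congr rfl fun (i : I) _ => if_neg i.2.2, hx] at e1
      rw [Fintype.sum_option, Finset.sum_congr rfl fun i _ => v x i, ← Finset.sum_div]
      change (1 : K) + _ = 0
      rw [one_add_div n0, ← e1, zero_div]
    rcases UG.core hS hj hb U y' (fun x o => by
      cases o with
      | none => exact one_mem _
      | some i => exact div_mem (mul_mem (m2 _) (m1 _ _)) (mul_mem (m2 _) (m1 _ _)))
      (fun _ => rfl) hs' with ⟨l, l0, hl⟩ | h
    · let c' : A → K := fun a => if h : c a ≠ 0 ∧ a ≠ a0 then l ⟨a, h⟩ * c a else 0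
      have z := ih _ (by
        rw [← hn]
        refine Finset.card_lt_card ⟨fun a ha => ?_, fun h => ?_⟩
        · refine Finset.mem_filter.2 ⟨Finset.mem_univ _, fun e => (Finset.mem_filter.1 ha).2 ?_⟩
          simp [c', e]
        · exact (Finset.mem_filter.1 (h (Finset.mem_filter.2 ⟨Finset.mem_univ a0, h0⟩))).2
            (by simp [c'])) c' rfl (by
        filter_upwards [hl] with x hx
        have n0 : c a0 * y x a0 ≠ 0 := mul_ne_zero h0 (y x a0).ne_zero
        have hx' := congrArg (· * (c a0 * y x a0)) hx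
        simp only [zero_mul, Finset.sum_mul] at hx'
        rw [sm _ fun a ha => by simp only [c', dif_neg ha, zero_mul]]
        refine Eq.trans (Finset.sum_congr rfl fun i _ => ?_) hx'
        rw [v, mul_assoc, div_mul_cancel₀ _ n0]
        simp only [c', dif_pos i.2, mul_assoc]
        rfl)
      refine l0 (funext fun i => ?_)
      have := z i.1
      simp only [c', dif_pos i.2] at this
      exact (mul_eq_zero.1 this).resolve_right i.2.1
    · rcases isEmpty_or_nonempty I with hI | ⟨⟨i⟩⟩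
      · obtain ⟨x, hx⟩ := hs'.exists
        simp [y'] at hx
      · obtain ⟨t, ht⟩ := h (some i)
        refine hne i.1 a0 i.2.2 (t * c a0 / c i.1) (ht.mono fun x hx => ?_)
        have n0 : c a0 * y x a0 ≠ 0 := mul_ne_zero h0 (y x a0).ne_zero
        rw [v, div_eq_iff n0] at hx
        have := i.2.1
        field_simp
        linear_combination hx
  exact fun c => main _ c rfl

end Pool.Agent.MP_be2dd8_ag.H53
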