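import Pool.Agent.MP_be2dd8_ag.H53.Spec

set_option autoImplicit false

namespace Pool.Agent.MP_be2dd8_ag.H53.UG

open NumberField IsDedekindDomain

variable {K : Type} [Field K] [NumberField K]

/-- the nonzero primes -/
abbrev HP (K : Type) [Field K] := HeightOneSpectrum (𝓞 K)

/-- the normalised absolute value -/
noncomputable def wv (p : HP K) : AbsoluteValue K ℝ := NumberField.HeightOneSpectrum.adicAbv K p

/-- the logarithm of the norm -/
noncomputable def nl (p : HP K) : ℝ := Real.log (Ideal.absNorm p.asIdeal)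

lemma nl_ge (p : HP K) : Real.log 2 ≤ nl p :=
  Real.log_le_log two_pos (by exact_mod_cast NumberField.HeightOneSpectrum.one_lt_absNorm p)

lemma nl_pos (p : HP K) : 0 < nl p := (Real.log_pos one_lt_two).trans_le (nl_ge p)

lemma wv_eq (p : HP K) (y : K) : FinitePlace.mk p y = wv p y := FinitePlace.norm_embedding p y

lemma exists_mult (p : HP K) {y : 𝓞 K} (hy : y ≠ 0) :
    ∃ m : ℕ, Real.log (wv p y) = -(m * nl p) ∧ ∀ k, y ∈ p.asIdeal ^ k ↔ k ≤ m := by
  have h := FinitePlace.apply_mul_absNorm_pow_eq_one (FinitePlace.mk p) hy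
  rw [FinitePlace.maximalIdeal_mk, wv_eq] at h
  refine ⟨multiplicity p.asIdeal (Ideal.span {y}), ?_, fun k => ?_⟩
  · rw [eq_inv_of_mul_eq_one_left h, Real.log_inv, Real.log_pow, nl]
  · rw [← Ideal.dvd_span_singleton]
    exact (FiniteMultiplicity.of_prime_left p.prime (by simpa using hy)).pow_dvd_iff_le_multiplicity

lemma le_of_mem (p : HP K) {y : 𝓞 K} {k : ℕ} (h : y ∈ p.asIdeal ^ k) :
    wv p y ≤ Real.exp (-(k * nl p)) := by
  by_cases hy : y = 0
  · simp [hy, Real.exp_nonneg]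
  obtain ⟨m, h1, h2⟩ := exists_mult p hy
  rw [← Real.log_le_iff_le_exp ((wv p).pos (by simpa using hy)), h1, neg_le_neg_iff]
  exact mul_le_mul_of_nonneg_right (by exact_mod_cast (h2 k).1 h) (nl_pos p).le

lemma mem_of_le (p : HP K) {y : 𝓞 K} (hy : y ≠ 0) {r : ℝ} (h : Real.log (wv p y) ≤ r) :
    y ∈ p.asIdeal ^ ⌈-r / nl p⌉₊ := by
  obtain ⟨m, h1, h2⟩ := exists_mult p hy
  rw [h2, Nat.ceil_le, div_le_iff₀ (nl_pos p)]
  linarith

lemma wv_int (p : HP K) {y : K} (h : IsIntegral ℤ y) : wv p y ≤ 1 := by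
  simpa using le_of_mem p (y := ⟨y, h⟩) (k := 0) (by simp)

lemma wv_one (p : HP K) {y : 𝓞 K} (h : y ∉ p.asIdeal) : wv p y = 1 := by
  rw [← wv_eq]
  exact (FinitePlace.norm_eq_one_iff_notMem K p y).2 h

lemma int_of_le {y : K} (h : ∀ p : HP K, wv p y ≤ 1) : IsIntegral ℤ y := by
  obtain ⟨z, rfl⟩ := HeightOneSpectrum.mem_integers_of_valuation_le_one (R := 𝓞 K) K y fun p => by
    have := h p
    rw [wv, NumberField.HeightOneSpectrum.adicAbv_def] at this
    exact (WithZeroMulInt.toNNReal_le_one_iff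
      (NumberField.HeightOneSpectrum.one_lt_absNorm_nnreal p)).1 (by exact_mod_cast this)
  exact z.isIntegral_coe

lemma pf_le (T : Finset (HP K)) {y : K} (hy : y ≠ 0) (h : ∀ p ∉ T, wv p y ≤ 1) :
    0 ≤ ∑ p ∈ T, Real.log (wv p y) + Real.log |((Algebra.norm ℚ y : ℚ) : ℝ)| := by
  classical
  have e := FinitePlace.prod_eq_inv_abs_norm hy
  rw [← finprod_comp_equiv FinitePlace.equivHeightOneSpectrum.symm] at e
  have hf : (Function.mulSupport fun p : HP K => wv p y).Finite := by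
    refine ((FinitePlace.hasFiniteMulSupport hy).image FinitePlace.maximalIdeal).subset fun p hp => ?_
    exact ⟨FinitePlace.mk p, fun e => hp ((wv_eq p y).symm.trans e), FinitePlace.maximalIdeal_mk p⟩
  have e2 : ∏ᶠ p : HP K, wv p y = ∏ p ∈ T ∪ hf.toFinset, wv p y :=
    finprod_eq_prod_of_mulSupport_subset _ fun p hp => by simp [hp]
  have e3 : ∏ p ∈ T ∪ hf.toFinset, wv p y = |((Algebra.norm ℚ y : ℚ) : ℝ)|⁻¹ := by
    rw [← e2]
    refine Eq.trans (finprod_congr fun p => (wv_eq p y).symm) (e.trans ?_)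
    push_cast
    rfl
  have e4 := congrArg Real.log e3
  rw [Real.log_prod fun p _ => ((wv p).pos hy).ne', Real.log_inv,
    ← Finset.sum_sdiff (Finset.subset_union_left (s₁ := T))] at e4
  have e5 : ∑ p ∈ (T ∪ hf.toFinset) \ T, Real.log (wv p y) ≤ 0 :=
    Finset.sum_nonpos fun p hp => Real.log_nonpos ((wv p).nonneg y) (h p (Finset.mem_sdiff.1 hp).2)
  linarith

lemma log_norm [IsGalois ℚ K] (φ : K →+* ℂ) {y : K} (hy : y ≠ 0) :
    Real.log |((Algebra.norm ℚ y : ℚ) : ℝ)| = ∑ σ : K ≃ₐ[ℚ] K, Real.log ‖φ (σ y)‖ := by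
  have e := congrArg (fun z => ‖φ z‖) (Algebra.norm_eq_prod_automorphisms ℚ y)
  simp only [eq_ratCast, map_ratCast, map_prod, norm_prod, Complex.norm_ratCast] at e
  rw [e, Real.log_prod fun σ _ => by simpa using hy]

/-- integral after multiplication by a power of `b` -/
def Ib (b : ℕ) (y : K) : Prop := ∃ k : ℕ, IsIntegral ℤ ((b : K) ^ k * y)

omit [NumberField K] in
lemma Ib.mul {b : ℕ} {y z : K} (h : Ib b y) (h' : Ib b z) : Ib b (y * z) := by
  obtain ⟨k, h⟩ := h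
  obtain ⟨l, h'⟩ := h'
  exact ⟨k + l, by rw [pow_add, mul_mul_mul_comm]; exact h.mul h'⟩

/-- the units away from `b` -/
def bu (K : Type) [Field K] (b : ℕ) : Subgroup Kˣ where
  carrier := {y | Ib b (y : K) ∧ Ib b ((y⁻¹ : Kˣ) : K)}
  one_mem' := ⟨⟨0, by simpa using isIntegral_one⟩, ⟨0, by simpa using isIntegral_one⟩⟩
  mul_mem' h h' := ⟨by rw [Units.val_mul]; exact h.1.mul h'.1,
    by rw [mul_inv, Units.val_mul]; exact h.2.mul h'.2⟩
  inv_mem' h := ⟨h.2, by rw [inv_inv]; exact h.1⟩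

lemma exists_bu (s : Finset Kˣ) : ∃ b : ℕ, 2 ≤ b ∧ ∀ y ∈ s, y ∈ bu K b := by
  classical
  obtain ⟨n, h0, h⟩ := exists_integral_multiples ℤ ℚ
    (s.image (fun y : Kˣ => (y : K)) ∪ s.image fun y : Kˣ => ((y⁻¹ : Kˣ) : K))
  have key : ∀ x : K, IsIntegral ℤ (n • x) → Ib (2 * n.natAbs) x := by
    intro x hx
    refine ⟨1, ?_⟩
    have : ((2 * n.natAbs : ℕ) : K) ^ 1 * x = (2 * n.sign : ℤ) • n • x := by
      rw [pow_one, smul_smul, mul_assoc, Int.sign_mul_self_eq_natAbs, zsmul_eq_mul, Int.cast_mul,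
        Int.cast_natCast, Nat.cast_mul]
      simp
    rw [this]
    exact hx.smul _
  refine ⟨2 * n.natAbs, by omega, fun y hy => ⟨key _ (h _ ?_), key _ (h _ ?_)⟩⟩
  · exact Finset.mem_union_left _ (Finset.mem_image_of_mem _ hy)
  · exact Finset.mem_union_right _ (Finset.mem_image_of_mem _ hy)

lemma Ib.le {b : ℕ} {y : K} (h : Ib b y) {p : HP K} (hp : (b : 𝓞 K) ∉ p.asIdeal) :
    wv p y ≤ 1 := by
  obtain ⟨k, h⟩ := h
  have h1 := wv_int p h
  have h2 : wv p (b : K) = 1 := by simpa using wv_one p hp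
  rwa [map_mul, map_pow, h2, one_pow, one_mul] at h1

lemma exists_T {b : ℕ} (hb : b ≠ 0) :
    ∃ T : Finset (HP K), ∀ p, p ∈ T ↔ (b : 𝓞 K) ∈ p.asIdeal := by
  have h := Ideal.finite_factors (I := Ideal.span {(b : 𝓞 K)}) (by simpa using hb)
  exact ⟨h.toFinset, fun p => by simp [Ideal.dvd_span_singleton]⟩

lemma pf_eq [IsGalois ℚ K] (φ : K →+* ℂ) {b : ℕ} {T : Finset (HP K)}
    (hT : ∀ p, p ∈ T ↔ (b : 𝓞 K) ∈ p.asIdeal) {y : Kˣ} (h : y ∈ bu K b) :
    ∑ p : T, Real.log (wv p.1 (y : K)) + ∑ σ : K ≃ₐ[ℚ] K, Real.log ‖φ (σ y)‖ = 0 := by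
  have h1 := pf_le T y.ne_zero fun p hp => h.1.le ((hT p).not.1 hp)
  have h2 := pf_le T (y⁻¹).ne_zero fun p hp => h.2.le ((hT p).not.1 hp)
  rw [log_norm φ (Units.ne_zero _)] at h1 h2
  simp only [Units.val_inv_eq_inv_val, map_inv₀, norm_inv, Real.log_inv,
    Finset.sum_neg_distrib] at h2
  rw [Finset.sum_coe_sort T fun p => Real.log (wv p (y : K))]
  linarith

lemma log_b {b : ℕ} (hb : b ≠ 0) {p : HP K} (hp : (b : 𝓞 K) ∈ p.asIdeal) :
    Real.log (wv p (b : K)) ≤ -Real.log 2 := by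
  have h := le_of_mem p (y := b) (k := 1) (by simpa using hp)
  have h0 : 0 < wv p (b : K) := (wv p).pos (by exact_mod_cast hb)
  have h' : wv p (b : K) ≤ Real.exp (-nl p) := by simpa using h
  have := (Real.log_le_iff_le_exp h0).2 h'
  linarith [nl_ge p]

/-- the places -/
noncomputable def places (φ : K →+* ℂ) (T : Finset (HP K)) : Places K (Option T) where
  v s := s.elim (NumberField.place φ) fun p => wv p.1
  κ s := s.elim (Module.finrank ℚ K) fun _ => 1
  pos s := by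
    cases s
    · exact Nat.cast_pos.2 Module.finrank_pos
    · exact one_pos
  le s n := by
    cases s with
    | none => simp [NumberField.place_apply]
    | some p =>
      by_cases hn : n = 0
      · simp [hn]
      refine (wv_int p.1 (by simpa using isIntegral_algebraMap (R := ℤ) (A := K) (x := n))).trans ?_
      exact_mod_cast Int.one_le_abs hn
  pf n hn := by
    have h := pf_le T (y := (n : K)) (by exact_mod_cast hn) fun p _ =>
      wv_int p (by simpa using isIntegral_algebraMap (R := ℤ) (A := K) (x := n))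
    have e : Algebra.norm ℚ (n : K) = (n : ℚ) ^ Module.finrank ℚ K := by
      rw [← Algebra.norm_algebraMap]; simp
    rw [e, ← Finset.sum_coe_sort T] at h
    simp only [Fintype.sum_option, Option.elim, one_mul, NumberField.place_apply, map_intCast,
      Complex.norm_intCast]
    push_cast at h
    rw [abs_pow, Real.log_pow] at h
    linarith

/-- the action on integers -/
noncomputable abbrev gi (σ : K ≃ₐ[ℚ] K) : 𝓞 K ≃+* 𝓞 K := RingOfIntegers.mapRingEquiv σ.toRingEquiv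

/-- the action on primes -/
noncomputable def act (σ : K ≃ₐ[ℚ] K) : HP K ≃ HP K :=
  (HeightOneSpectrum.equivOfRingEquiv (gi σ)).symm

lemma act_ideal (σ : K ≃ₐ[ℚ] K) (P : HP K) :
    (act σ P).asIdeal = P.asIdeal.comap (gi σ : 𝓞 K →+* 𝓞 K) := rfl

lemma act_nl (σ : K ≃ₐ[ℚ] K) (P : HP K) : nl (act σ P) = nl P := by
  rw [nl, nl, act_ideal, Ideal.absNorm_apply, Ideal.absNorm_apply, Submodule.cardQuot,
    Submodule.cardQuot]
  congr 2
  exact AddSubgroup.index_comap_of_surjective P.asIdeal.toAddSubgroup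
    (f := (gi σ : 𝓞 K →+* 𝓞 K).toAddMonoidHom) (gi σ).surjective

lemma act_le (σ : K ≃ₐ[ℚ] K) (P : HP K) {y : 𝓞 K} {k : ℕ} (h : y ∈ (act σ P).asIdeal ^ k) :
    wv P (σ y) ≤ Real.exp (-(k * nl (act σ P))) := by
  rw [act_nl]
  exact le_of_mem P (y := gi σ y) (Ideal.le_comap_pow _ k h)

/-- the action on the primes that contain `b` -/
noncomputable def actT {b : ℕ} {T : Finset (HP K)} (hT : ∀ p, p ∈ T ↔ (b : 𝓞 K) ∈ p.asIdeal)
    (σ : K ≃ₐ[ℚ] K) : T ≃ T :=
  (act σ).subtypeEquiv fun P => by rw [hT, hT, act_ideal, Ideal.mem_comap, map_natCast]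

end Pool.Agent.MP_be2dd8_ag.H53.UG
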