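import Pool.Agent.MP_be2dd8_ag.H53.UgA

set_option autoImplicit false

namespace Pool.Agent.MP_be2dd8_ag.H53.UG

open NumberField IsDedekindDomain Module

lemma exists_B {ι : Type} [Fintype ι] [DecidableEq ι] (N : AddSubgroup (ι → ℤ))
    (hN : N.index ≠ 0) :
    ∃ B : Matrix ι ι ℤ, B.det.natAbs = N.index ∧ ∀ v, v ∈ N ↔ ∃ z, B.mulVec z = v := by
  have hf : Finite ((ι → ℤ) ⧸ N.toIntSubmodule) := Nat.finite_of_card_ne_zero hN
  have hr := (Submodule.finiteQuotient_iff N.toIntSubmodule).1 hf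
  rw [Module.finrank_fintype_fun_eq_card] at hr
  let bN : Basis ι ℤ N.toIntSubmodule :=
    (Module.finBasisOfFinrankEq ℤ N.toIntSubmodule hr).reindex (Fintype.equivFin ι).symm
  refine ⟨Matrix.of fun i j => (bN j : ι → ℤ) i, ?_, fun v => ⟨fun hv => ?_, ?_⟩⟩
  · rw [← Matrix.det_transpose]
    have := Submodule.natAbs_det_basis_change (Pi.basisFun ℤ ι) N.toIntSubmodule bN
    rw [Pi.basisFun_det] at this
    exact this
  · refine ⟨bN.repr ⟨v, hv⟩, ?_⟩
    have := congrArg (fun u : N.toIntSubmodule => (u : ι → ℤ)) (bN.sum_repr ⟨v, hv⟩)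
    ext i
    have h := congrFun this i
    simp only [Submodule.coe_sum, Submodule.coe_smul, Finset.sum_apply, Pi.smul_apply,
      smul_eq_mul] at h
    simp only [Matrix.mulVec, dotProduct, Matrix.of_apply]
    rw [← h]
    exact Finset.sum_congr rfl fun j _ => mul_comm _ _
  · rintro ⟨z, rfl⟩
    have : (Matrix.of fun i j => (bN j : ι → ℤ) i).mulVec z = ∑ j, z j • (bN j : ι → ℤ) := by
      ext i
      simp [Matrix.mulVec, dotProduct, mul_comm]
    rw [this]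
    exact sum_mem fun j _ => zsmul_mem (bN j).2 _

section forms
variable {I : Type} [Fintype I] [DecidableEq I]

/-- enumeration of the indices other than `o` -/
def rr (o : Option I) (i : I) : Option I := if some i = o then none else some i

lemma sum_rr (F : Option I → ℝ) (o : Option I) : ∑ i, F (rr o i) = ∑ a, F a - F o := by
  rw [Fintype.sum_option]
  cases o with
  | none => simp [rr]
  | some j =>
    have : ∀ i, F (rr (some j) i) = F (some i) + if i = j then F none - F (some j) else 0 := by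
      intro i
      by_cases h : i = j <;> simp [rr, h]
    simp only [this, Finset.sum_add_distrib, Finset.sum_ite_eq', Finset.mem_univ, if_true]
    ring

/-- the matrix of the forms other than `o` -/
def lam (o : Option I) (i j : I) : ℤ := if some i = o then -1 else if i = j then 1 else 0

lemma lam_apply {R : Type} [CommRing R] (u : I → R) (o : Option I) (i : I) :
    ∑ j, (lam o i j : R) * u j = if some i = o then -∑ j, u j else u i := by
  by_cases h : some i = o <;> simp [lam, h]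

lemma lam_inj {R : Type} [CommRing R] {u : I → R} {o : Option I}
    (h : ∀ i, ∑ j, (lam o i j : R) * u j = 0) (i : I) : u i = 0 := by
  have h1 : ∀ j, some j ≠ o → u j = 0 := fun j hj => by simpa [lam_apply, hj] using h j
  by_cases hi : some i = o
  · have h2 := h i
    rw [lam_apply, if_pos hi, neg_eq_zero, Finset.sum_eq_single i
      (fun j _ hj => h1 j fun e => hj (Option.some.inj (e.trans hi.symm))) (by simp)] at h2
    exact h2
  · exact h1 i hi

lemma lam_pt {R : Type} [CommRing R] {x : Option I → R} (h : ∑ a, x a = 0) (o : Option I) (i : I) :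
    ∑ j, (lam o i j : R) * x (some j) = x (rr o i) := by
  rw [Fintype.sum_option] at h
  rw [lam_apply, rr]
  split_ifs
  · linear_combination -h
  · rfl

end forms

variable {K : Type} [Field K] [NumberField K] [DecidableEq (K ≃ₐ[ℚ] K)]
  (β : Basis (K ≃ₐ[ℚ] K) ℤ (𝓞 K))

/-- the conjugates of the basis -/
noncomputable def Em : Matrix (K ≃ₐ[ℚ] K) (K ≃ₐ[ℚ] K) K := Matrix.of fun σ τ => σ (β τ)

omit [DecidableEq (K ≃ₐ[ℚ] K)] in
lemma Em_inj {μ : (K ≃ₐ[ℚ] K) → K} (h : ∀ τ, ∑ σ, μ σ * σ (β τ) = 0) : μ = 0 := by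
  have li := (linearIndependent_algHom_toLinearMap ℚ K K).comp
    (fun σ : K ≃ₐ[ℚ] K => (σ : K →ₐ[ℚ] K)) AlgEquiv.coe_toAlgHom_injective
  ext σ
  refine Fintype.linearIndependent_iff.1 li μ ?_ σ
  refine (β.localizationLocalization ℚ (nonZeroDivisors ℤ) K).ext fun τ => ?_
  simpa using h τ

lemma Em_det : (Em β).det ≠ 0 := fun h => by
  obtain ⟨μ, h0, h1⟩ := Matrix.exists_vecMul_eq_zero_iff.2 h
  exact h0 (Em_inj β fun τ => congrFun h1 τ)

variable {I : Type} [Fintype I] [DecidableEq I]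

/-- the point with given coordinates -/
noncomputable def XX (z : (K ≃ₐ[ℚ] K) × I → ℤ) (i : I) : 𝓞 K := ∑ τ, (z (τ, i) : 𝓞 K) * β τ

/-- the forms -/
noncomputable def LL (o : Option I) (i : I) : ((K ≃ₐ[ℚ] K) × I → ℤ) →+ 𝓞 K where
  toFun z := ∑ j, (lam o i j : 𝓞 K) * XX β z j
  map_zero' := by simp [XX]
  map_add' z z' := by simp [XX, add_mul, mul_add, Finset.sum_add_distrib]

omit [DecidableEq (K ≃ₐ[ℚ] K)] [Fintype I] [DecidableEq I] in
lemma exists_XX (x : I → 𝓞 K) : ∃ z, ∀ i, XX β z i = x i :=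
  ⟨fun t => β.repr (x t.2) t.1, fun i => by simpa [XX] using β.sum_repr (x i)⟩

omit [DecidableEq (K ≃ₐ[ℚ] K)] [Fintype I] [DecidableEq I] in
lemma map_XX (σ : K ≃ₐ[ℚ] K) (z : (K ≃ₐ[ℚ] K) × I → ℤ) (i : I) :
    σ (XX β z i : K) = ∑ τ, (z (τ, i) : K) * σ (β τ) := by
  simp [XX]

/-- the conjugates of the forms -/
noncomputable def MM (a : (K ≃ₐ[ℚ] K) → Option I) :
    Matrix ((K ≃ₐ[ℚ] K) × I) ((K ≃ₐ[ℚ] K) × I) K :=
  Matrix.of fun s t => (lam (a s.1) s.2 t.2 : K) * s.1 (β t.1)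

omit [DecidableEq (K ≃ₐ[ℚ] K)] in
lemma MM_sum (a : (K ≃ₐ[ℚ] K) → Option I) (s : (K ≃ₐ[ℚ] K) × I) (v : (K ≃ₐ[ℚ] K) × I → K) :
    ∑ t, MM β a s t * v t = ∑ j, (lam (a s.1) s.2 j : K) * ∑ τ, v (τ, j) * s.1 (β τ) := by
  rw [Fintype.sum_prod_type_right]
  refine Finset.sum_congr rfl fun j _ => ?_
  rw [Finset.mul_sum]
  exact Finset.sum_congr rfl fun τ _ => by simp only [MM, Matrix.of_apply]; ring

omit [DecidableEq (K ≃ₐ[ℚ] K)] in
lemma MM_apply (a : (K ≃ₐ[ℚ] K) → Option I) (s : (K ≃ₐ[ℚ] K) × I) (z : (K ≃ₐ[ℚ] K) × I → ℤ) :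
    ∑ t, MM β a s t * (z t : K) = s.1 (LL β (a s.1) s.2 z : K) := by
  rw [MM_sum]
  simp only [← map_XX]
  simp [LL]

lemma MM_ker (a : (K ≃ₐ[ℚ] K) → Option I) {v : (K ≃ₐ[ℚ] K) × I → K}
    (h : ∀ s, ∑ t, MM β a s t * v t = 0) : v = 0 := by
  ext ⟨τ, j⟩
  have h1 : (Em β).mulVec (fun τ => v (τ, j)) = 0 := by
    ext σ
    have := lam_inj (o := a σ) (u := fun j => ∑ τ, v (τ, j) * σ (β τ))
      (fun i => (MM_sum β a (σ, i) v).symm.trans (h _)) j
    simpa [Matrix.mulVec, dotProduct, Em, mul_comm] using this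
  exact congrFun (Matrix.eq_zero_of_mulVec_eq_zero (Em_det β) h1) τ

lemma MM_det (a : (K ≃ₐ[ℚ] K) → Option I) : (MM β a).det ≠ 0 := fun h => by
  obtain ⟨v, h0, h1⟩ := Matrix.exists_mulVec_eq_zero_iff.2 h
  exact h0 (MM_ker β a fun s => congrFun h1 s)

/-- real combinations of the conjugates -/
noncomputable def MR (a : (K ≃ₐ[ℚ] K) → Option I) (c : K ≃ₐ[ℚ] K) (j : K) :
    Matrix ((K ≃ₐ[ℚ] K) × I) ((K ≃ₐ[ℚ] K) × I) K :=
  Matrix.of fun s t => ((1 - j) * MM β a s t + (1 + j) * MM β a (c * s.1, s.2) t) / 2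

lemma MR_det (a : (K ≃ₐ[ℚ] K) → Option I) {c : K ≃ₐ[ℚ] K} (hc : c * c = 1) {j : K}
    (hj : j ^ 2 = -1) : (MR β a c j).det ≠ 0 := fun h => by
  obtain ⟨v, h0, h1⟩ := Matrix.exists_mulVec_eq_zero_iff.2 h
  have h2 : ∀ s, (1 - j) * ∑ t, MM β a s t * v t
      + (1 + j) * ∑ t, MM β a (c * s.1, s.2) t * v t = 0 := by
    intro s
    have := congrFun h1 s
    simp only [Matrix.mulVec, dotProduct, MR, Matrix.of_apply, Pi.zero_apply] at this
    rw [Finset.mul_sum, Finset.mul_sum, ← Finset.sum_add_distrib, ← mul_zero 2, ← this,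
      Finset.mul_sum]
    exact Finset.sum_congr rfl fun t _ => by ring
  refine h0 (MM_ker β a fun s => ?_)
  have e1 := h2 s
  have e2 := h2 (c * s.1, s.2)
  simp only [← mul_assoc, hc, one_mul] at e2
  have : (4 : K) * ∑ t, MM β a s t * v t = 0 := by
    linear_combination (1 + j) * e1 + (1 - j) * e2
      + (2 * ∑ t, MM β a s t * v t - 2 * ∑ t, MM β a (c * s.1, s.2) t * v t) * hj
  simpa using this

/-- its real form -/
noncomputable def LR (a : (K ≃ₐ[ℚ] K) → Option I) (φ : K →+* ℂ) (j : K) :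
    Matrix ((K ≃ₐ[ℚ] K) × I) ((K ≃ₐ[ℚ] K) × I) ℝ :=
  Matrix.of fun s t => ((1 - φ j) * φ (MM β a s t)).re

lemma re_zero {u : ℂ} (h : u ^ 2 = -1) : u.re = 0 := by
  rcases sq_eq_sq_iff_eq_or_eq_neg.1 (h.trans Complex.I_sq.symm) with e | e <;> simp [e]

omit [DecidableEq (K ≃ₐ[ℚ] K)] [Fintype I] in
lemma MR_real (a : (K ≃ₐ[ℚ] K) → Option I) (φ : K →+* ℂ) {c : K ≃ₐ[ℚ] K}
    (hc : ∀ y, φ (c y) = starRingEnd ℂ (φ y)) (ha : ∀ σ, a (c * σ) = a σ) {j : K}
    (hj : j ^ 2 = -1) (s t : (K ≃ₐ[ℚ] K) × I) : φ (MR β a c j s t) = (LR β a φ j s t : ℂ) := by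
  have h0 : (φ j).re = 0 := re_zero (by rw [← map_pow, hj]; simp)
  have h1 : starRingEnd ℂ (φ j) = -φ j := by apply Complex.ext <;> simp [h0]
  have h2 : φ (MM β a (c * s.1, s.2) t) = starRingEnd ℂ (φ (MM β a s t)) := by
    simp [MM, ha, hc]
  rw [LR, Matrix.of_apply, Complex.re_eq_add_conj, map_mul, map_sub, h1, ← h2]
  simp [MR, map_ofNat]

omit [DecidableEq (K ≃ₐ[ℚ] K)] in
lemma LR_le (a : (K ≃ₐ[ℚ] K) → Option I) (φ : K →+* ℂ) {j : K} (hj : j ^ 2 = -1)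
    (s : (K ≃ₐ[ℚ] K) × I) (z : (K ≃ₐ[ℚ] K) × I → ℤ) :
    |∑ t, LR β a φ j s t * (z t : ℝ)| ≤ 2 * ‖φ (s.1 (LL β (a s.1) s.2 z : K))‖ := by
  have e : ∑ t, LR β a φ j s t * (z t : ℝ)
      = ((1 - φ j) * φ (s.1 (LL β (a s.1) s.2 z : K))).re := by
    rw [← MM_apply, map_sum, Finset.mul_sum, Complex.re_sum]
    refine Finset.sum_congr rfl fun t _ => ?_
    rw [map_mul, map_intCast, ← mul_assoc, ← Complex.ofReal_intCast, Complex.re_mul_ofReal]
    rfl
  have h1 : ‖φ j‖ = 1 := by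
    have : ‖φ j‖ ^ 2 = 1 := by rw [← norm_pow, ← map_pow, hj]; simp
    exact (sq_eq_sq₀ (norm_nonneg _) zero_le_one).1 (by simpa using this)
  rw [e]
  refine (Complex.abs_re_le_norm _).trans ?_
  rw [norm_mul]
  refine mul_le_mul_of_nonneg_right ((norm_sub_le _ _).trans ?_) (norm_nonneg _)
  rw [h1, norm_one]
  norm_num

omit [DecidableEq I] in
lemma fin_rel {w : (K ≃ₐ[ℚ] K) × I → ℤ} (hw : w ≠ 0) : ∃ l : I → K, l ≠ 0 ∧ ∀ x : I → 𝓞 K,
    (∀ τ, ∃ z, (∀ i, XX β z i = β τ * x i) ∧ ∑ t, w t * z t = 0) → ∑ i, l i * x i = 0 := by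
  have hs : ∀ i, ∃ μ : (K ≃ₐ[ℚ] K) → K, ∀ τ, ∑ σ, μ σ * σ (β τ) = w (τ, i) := by
    intro i
    refine ⟨Matrix.vecMul (fun τ => (w (τ, i) : K)) (Em β)⁻¹, fun τ => ?_⟩
    have : Matrix.vecMul (Matrix.vecMul (fun τ => (w (τ, i) : K)) (Em β)⁻¹) (Em β)
        = fun τ => (w (τ, i) : K) := by
      rw [Matrix.vecMul_vecMul, Matrix.nonsing_inv_mul _ (Em_det β).isUnit, Matrix.vecMul_one]
    exact congrFun this τ
  choose μ hμ using hs
  obtain ⟨σ, i, h0⟩ : ∃ σ i, μ i σ ≠ 0 := by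
    by_contra! h
    refine hw (funext fun t => ?_)
    have := hμ t.2 t.1
    simp only [h, zero_mul, Finset.sum_const_zero] at this
    exact_mod_cast this.symm
  refine ⟨fun i => σ.symm (μ i σ), fun e => h0 (by simpa using congrFun e i), fun x hx => ?_⟩
  have h1 := Em_inj β (μ := fun σ => ∑ i, μ i σ * σ (x i)) fun τ => by
    obtain ⟨z, z1, z2⟩ := hx τ
    have z3 : ∑ t, (w t : K) * z t = 0 := by exact_mod_cast z2
    rw [← z3, Fintype.sum_prod_type_right]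
    simp only [Finset.sum_mul]
    rw [Finset.sum_comm]
    refine Finset.sum_congr rfl fun i _ => ?_
    simp only [← hμ, Finset.sum_mul]
    rw [Finset.sum_comm]
    refine Finset.sum_congr rfl fun ρ _ => ?_
    have := map_XX β ρ z i
    rw [z1] at this
    simp only [map_mul, RingOfIntegers.coe_eq_algebraMap] at this
    simp only [RingOfIntegers.coe_eq_algebraMap]
    rw [mul_assoc, mul_comm (ρ _), this, Finset.mul_sum]
    exact Finset.sum_congr rfl fun τ _ => by ring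
  apply σ.injective
  simpa using congrFun h1 σ

omit [DecidableEq (K ≃ₐ[ℚ] K)] in
lemma lattice [DecidableEq ((K ≃ₐ[ℚ] K) × I)] {T : Type} [Fintype T] (p : T → HP K)
    (o : T → Option I) (k : T × I → ℕ) :
    ∃ B : Matrix ((K ≃ₐ[ℚ] K) × I) ((K ≃ₐ[ℚ] K) × I) ℤ, B.det ≠ 0 ∧
      Real.log |(B.det : ℝ)| ≤ ∑ s, k s * nl (p s.1) ∧
      ∀ v, (∀ s : T × I, LL β (o s.1) s.2 v ∈ (p s.1).asIdeal ^ k s) ↔ ∃ z, B.mulVec z = v := by
  set f : T × I → AddSubgroup ((K ≃ₐ[ℚ] K) × I → ℤ) := fun s =>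
    ((p s.1).asIdeal ^ k s).toAddSubgroup.comap (LL β (o s.1) s.2) with hf
  have h0 : ∀ s : T × I, Ideal.absNorm (p s.1).asIdeal ^ k s ≠ 0 := fun s =>
    pow_ne_zero _ (NumberField.HeightOneSpectrum.one_lt_absNorm (p s.1)).ne_zero
  have h1 : ∀ s, (f s).index ∣ Ideal.absNorm (p s.1).asIdeal ^ k s := by
    intro s
    rw [hf, AddSubgroup.index_comap, ← map_pow]
    exact AddSubgroup.relIndex_dvd_index_of_normal _ _
  have h2 : (⨅ s, f s).index ≠ 0 :=
    AddSubgroup.index_iInf_ne_zero fun s => ne_zero_of_dvd_ne_zero (h0 s) (h1 s)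
  have h3 : (⨅ s, f s).index ≤ ∏ s : T × I, Ideal.absNorm (p s.1).asIdeal ^ k s :=
    (AddSubgroup.index_iInf_le f).trans
      (Finset.prod_le_prod' fun s _ => Nat.le_of_dvd (h0 s).bot_lt (h1 s))
  obtain ⟨B, b1, b2⟩ := exists_B _ h2
  have b0 : B.det ≠ 0 := Int.natAbs_ne_zero.1 (b1 ▸ h2)
  refine ⟨B, b0, ?_, fun v => ?_⟩
  · have e : |(B.det : ℝ)| = ((⨅ s, f s).index : ℝ) := by rw [← b1, Nat.cast_natAbs, Int.cast_abs]
    rw [e]
    refine (Real.log_le_log (by exact_mod_cast h2.bot_lt) (Nat.cast_le.2 h3)).trans ?_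
    rw [Nat.cast_prod, Real.log_prod fun s _ => by exact_mod_cast h0 s]
    simp [nl]
  · rw [← b2, AddSubgroup.mem_iInf]
    rfl

end Pool.Agent.MP_be2dd8_ag.H53.UG
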